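import Pool.Agent.Run7.h841.TM.Boot

/-! Explicit formulas in low degrees, pullbacks, transport. -/

set_option autoImplicit false
set_option linter.unusedVariables false
set_option linter.unusedSectionVars false

namespace Run7.h841.TM

open Set Topology
open Pool.Agent.Helper922.HB.Sc (Sing sface vert)
open Pool.Agent.Helper158.PD (TS sub front back pathSx sub_sub_lz sface_sub_lz exists_path
  eol_pathSx_one eol_pathSx_zero)

section

variable {X : Type} [TopologicalSpace X] {R : Type} [CommRing R] {A : Type} [AddCommGroup A]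
  [Module R A]

/-- the 0-simplex at a point -/
def pt (x : X) : Sing X 0 := ContinuousMap.const _ x

@[simp] theorem pt_apply (x : X) (s : stdSimplex ℝ (Fin 1)) : pt x s = x := rfl

theorem eq_pt (τ : Sing X 0) : τ = pt (τ (vert 0 0)) := by
  refine ContinuousMap.ext fun s => ?_
  have : s = vert 0 0 := Subsingleton.elim (α := stdSimplex ℝ (Fin 1)) _ _
  rw [this]
  rfl

theorem pt_inj {x y : X} (h : pt x = pt y) : x = y := by
  have := congrArg (fun τ : Sing X 0 => τ (vert 0 0)) h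
  exact this

theorem sface00 (σ : Sing X 1) : sface 0 0 σ = pt (σ (vert 1 1)) := by
  rw [eq_pt (sface 0 0 σ)]
  congr 1
  change σ (stdSimplex.map (Fin.succAbove 0) (stdSimplex.vertex (S := ℝ) (0 : Fin 1))) = _
  rw [stdSimplex.map_vertex]
  rfl

theorem sface01 (σ : Sing X 1) : sface 0 1 σ = pt (σ (vert 1 0)) := by
  rw [eq_pt (sface 0 1 σ)]
  congr 1
  change σ (stdSimplex.map (Fin.succAbove 1) (stdSimplex.vertex (S := ℝ) (0 : Fin 1))) = _
  rw [stdSimplex.map_vertex]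
  rfl

theorem pathSx_v0 {x y : X} (γ : Path x y) : pathSx γ (vert 1 0) = x := eol_pathSx_zero γ
theorem pathSx_v1 {x y : X} (γ : Path x y) : pathSx γ (vert 1 1) = y := eol_pathSx_one γ

theorem dl0 (u : Sing X 0 → A) (σ : Sing X 1) :
    dl u σ = u (sface 0 0 σ) - u (sface 0 1 σ) := by
  rw [dl, Fin.sum_univ_two]
  simp only [Fin.val_zero, Fin.val_one, pow_zero, pow_one, one_smul, neg_smul]
  rw [sub_eq_add_neg]

theorem dl0' (u : Sing X 0 → A) (σ : Sing X 1) :
    dl u σ = u (pt (σ (vert 1 1))) - u (pt (σ (vert 1 0))) := by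
  rw [dl0, sface00, sface01]

theorem dl1 (z : Sing X 1 → A) (τ : Sing X 2) :
    dl z τ = z (sface 1 0 τ) - z (sface 1 1 τ) + z (sface 1 2 τ) := by
  rw [dl, Fin.sum_univ_three]
  simp only [Fin.val_zero, Fin.val_one, Fin.val_two, pow_zero, pow_one, one_smul, neg_smul]
  have : ((-1 : ℤ) ^ 2) = 1 := by norm_num
  rw [this, one_smul, sub_eq_add_neg]

theorem eF0 (σ : Sing X 1) : eF σ = σ := by
  rw [eF]
  have : (![0, 1] : Fin 2 → Fin (0 + 1 + 1)) = id := by
    funext k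
    fin_cases k <;> rfl
  rw [this]
  exact sub_id σ

theorem eL0 (σ : Sing X 1) : eL σ = σ := by
  rw [eL]
  have : (![(Fin.last 0).castSucc, Fin.last (0 + 1)] : Fin 2 → Fin (0 + 1 + 1)) = id := by
    funext k
    fin_cases k <;> rfl
  rw [this]
  exact sub_id σ

theorem eF1 (τ : Sing X 2) : eF τ = sface 1 2 τ := by
  rw [eF, sface_sub_lz]
  congr 1
  funext k
  fin_cases k <;> rfl

theorem eL1 (τ : Sing X 2) : eL τ = sface 1 0 τ := by
  rw [eL, sface_sub_lz]
  congr 1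
  funext k
  fin_cases k <;> rfl

theorem dF0 (α : Sing X 1 → Rˣ) (u : Sing X 0 → A) (σ : Sing X 1) :
    dF α u σ = (α σ : R) • u (sface 0 0 σ) - u (sface 0 1 σ) := by
  rw [dF, dl0, eF0, sub_smul, one_smul]
  abel

theorem dL0 (α : Sing X 1 → Rˣ) (u : Sing X 0 → A) (σ : Sing X 1) :
    dL α u σ = u (sface 0 0 σ) - (α σ : R) • u (sface 0 1 σ) := by
  rw [dL, dl0, eL0]
  have : (Fin.last (0 + 1)) = (1 : Fin 2) := rfl
  rw [this, sub_smul, one_smul]
  norm_num

theorem dF0' (α : Sing X 1 → Rˣ) (u : Sing X 0 → A) (σ : Sing X 1) :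
    dF α u σ = (α σ : R) • u (pt (σ (vert 1 1))) - u (pt (σ (vert 1 0))) := by
  rw [dF0, sface00, sface01]

theorem dL0' (α : Sing X 1 → Rˣ) (u : Sing X 0 → A) (σ : Sing X 1) :
    dL α u σ = u (pt (σ (vert 1 1))) - (α σ : R) • u (pt (σ (vert 1 0))) := by
  rw [dL0, sface00, sface01]

theorem dF1 (α : Sing X 1 → Rˣ) (z : Sing X 1 → A) (τ : Sing X 2) :
    dF α z τ = (α (sface 1 2 τ) : R) • z (sface 1 0 τ) - z (sface 1 1 τ) + z (sface 1 2 τ) := by
  rw [dF, dl1, eF1, sub_smul, one_smul]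
  abel

theorem dL1 (α : Sing X 1 → Rˣ) (z : Sing X 1 → A) (τ : Sing X 2) :
    dL α z τ = z (sface 1 0 τ) - z (sface 1 1 τ) + (α (sface 1 0 τ) : R) • z (sface 1 2 τ) := by
  rw [dL, dl1, eL1]
  have : (Fin.last (1 + 1)) = (2 : Fin 3) := rfl
  have h2 : ((-1 : ℤ) ^ (1 + 1)) = 1 := by norm_num
  rw [this, h2, one_smul, sub_smul, one_smul]
  abel

/-- the value of an exact cochain on a loop -/
theorem dl_loop (u : Sing X 0 → A) {x : X} (γ : Path x x) : dl u (pathSx γ) = 0 := by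
  rw [dl0', pathSx_v0, pathSx_v1, sub_self]

end

section pull

variable {X Y : Type} [TopologicalSpace X] [TopologicalSpace Y] {R : Type} [CommRing R]
  {A : Type} [AddCommGroup A] [Module R A]

theorem pb_apply (g : C(X, Y)) {n : ℕ} (c : Sing Y n → A) (σ : Sing X n) :
    pb g c σ = c (g.comp σ) := rfl

theorem dl_pb' (g : C(X, Y)) {n : ℕ} (c : Sing Y n → A) : dl (pb g c) = pb g (dl c) := rfl

theorem eF_comp (g : C(X, Y)) {n : ℕ} (σ : Sing X (n + 1)) : eF (g.comp σ) = g.comp (eF σ) := rfl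
theorem eL_comp (g : C(X, Y)) {n : ℕ} (σ : Sing X (n + 1)) : eL (g.comp σ) = g.comp (eL σ) := rfl

theorem dF_pb (g : C(X, Y)) (α : Sing Y 1 → Rˣ) {n : ℕ} (c : Sing Y n → A) :
    dF (fun σ => α (g.comp σ)) (pb g c) = pb g (dF α c) := rfl

theorem dL_pb (g : C(X, Y)) (α : Sing Y 1 → Rˣ) {n : ℕ} (c : Sing Y n → A) :
    dL (fun σ => α (g.comp σ)) (pb g c) = pb g (dL α c) := rfl

theorem cp_tpb (g : C(X, Y)) (p : ℕ) (c : TS Y → A) : cp p (tpb g c) = pb g (cp p c) := rfl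

theorem tpb_inc (g : C(X, Y)) {p : ℕ} (c : Sing Y p → A) : tpb g (inc c) = inc (pb g c) := by
  apply tot_ext
  intro q
  rw [cp_tpb]
  by_cases h : q = p
  · subst h
    rw [cp_inc, cp_inc]
  · rw [cp_inc_ne h, cp_inc_ne h]
    rfl

theorem tL_tpb (g : C(X, Y)) (α : Sing Y 1 → Rˣ) (c : TS Y → A) :
    tL (fun σ => α (g.comp σ)) (tpb g c) = tpb g (tL α c) := by
  apply tot_ext
  intro q
  cases q with
  | zero => rfl
  | succ q => rfl

theorem tF_tpb (g : C(X, Y)) (α : Sing Y 1 → Rˣ) (c : TS Y → A) :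
    tF (fun σ => α (g.comp σ)) (tpb g c) = tpb g (tF α c) := by
  apply tot_ext
  intro q
  cases q with
  | zero => rfl
  | succ q => rfl

theorem td_tpb (g : C(X, Y)) (c : TS Y → A) : td (tpb g c) = tpb g (td c) := by
  apply tot_ext
  intro q
  cases q with
  | zero => rfl
  | succ q => rfl

theorem IsTw.pull {α : Sing Y 1 → Rˣ} (h : IsTw α) (g : C(X, Y)) :
    IsTw (fun σ : Sing X 1 => α (g.comp σ)) := fun τ => h (g.comp τ)

theorem comp_pathSx (g : C(X, Y)) {x y : X} (γ : Path x y) :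
    g.comp (pathSx γ) = pathSx (γ.map g.continuous) := by
  refine ContinuousMap.ext fun t => ?_
  rfl

/-- pull back and germs -/
theorem NV.pull {g : C(X, Y)} {K : Set Y} {c : TS Y → A} (h : NV K c) {L : Set X}
    (hL : MapsTo g L K) : NV L (tpb g c) := by
  intro x hx
  obtain ⟨U, hU, hxU, h1⟩ := h (g x) (hL hx)
  refine ⟨g ⁻¹' U, hU.preimage g.continuous, hxU, fun s hs => h1 ⟨s.1, g.comp s.2⟩ ?_⟩
  rintro _ ⟨t, rfl⟩
  exact hs ⟨t, rfl⟩

theorem Nv.pull {g : C(X, Y)} {K : Set Y} {n : ℕ} {c : Sing Y n → A} (h : Nv K c) {L : Set X}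
    (hL : MapsTo g L K) : Nv L (pb g c) := by
  intro x hx
  obtain ⟨U, hU, hxU, h1⟩ := h (g x) (hL hx)
  refine ⟨g ⁻¹' U, hU.preimage g.continuous, hxU, fun s hs => h1 (g.comp s) ?_⟩
  rintro _ ⟨t, rfl⟩
  exact hs ⟨t, rfl⟩

end pull

end Run7.h841.TM
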