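import Pool.Agent.Run7.h841.TM.Iface

/-! The piece CUP: the Leibniz rule and the duality pairing. -/

set_option autoImplicit false
set_option linter.unusedVariables false
set_option linter.unusedSectionVars false

namespace Run7.h841.TM

open Set Topology
open Pool.Agent.Helper922.HB.Sc (Sing sface vert)
open Pool.Agent.Helper158.PD (TS sub front back sub_sub_lz sface_sub_lz range_sface range_sub uu_lz
  ww_lz)

variable {X : Type} [TopologicalSpace X] {R : Type} [CommRing R] {A : Type} [AddCommGroup A]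
  [Module R A]

theorem cup_add_left {p q r : ℕ} (h : p + q = r) (a a' : Sing X p → A) (b : Sing X q → R) :
    cup h (a + a') b = cup h a b + cup h a' b := by
  funext σ
  exact smul_add _ _ _

theorem cup_sub_left {p q r : ℕ} (h : p + q = r) (a a' : Sing X p → A) (b : Sing X q → R) :
    cup h (a - a') b = cup h a b - cup h a' b := by
  funext σ
  exact smul_sub _ _ _

theorem cup_smul_left {p q r : ℕ} (h : p + q = r) (c : R) (a : Sing X p → A) (b : Sing X q → R) :
    cup h (c • a) b = c • cup h a b := by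
  funext σ
  exact smul_comm _ _ _

theorem cup_add_right {p q r : ℕ} (h : p + q = r) (a : Sing X p → A) (b b' : Sing X q → R) :
    cup h a (b + b') = cup h a b + cup h a b' := by
  funext σ
  exact add_smul _ _ _

theorem cup_sub_right {p q r : ℕ} (h : p + q = r) (a : Sing X p → A) (b b' : Sing X q → R) :
    cup h a (b - b') = cup h a b - cup h a b' := by
  funext σ
  exact sub_smul _ _ _

theorem cup_smul_right {p q r : ℕ} (h : p + q = r) (c : R) (a : Sing X p → A) (b : Sing X q → R) :
    cup h a (c • b) = c • cup h a b := by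
  funext σ
  exact mul_smul _ _ _

theorem cup_zero_left {p q r : ℕ} (h : p + q = r) (b : Sing X q → R) :
    cup h (0 : Sing X p → A) b = 0 := by
  funext σ
  exact smul_zero _

theorem cup_zero_right {p q r : ℕ} (h : p + q = r) (a : Sing X p → A) :
    cup h a (0 : Sing X q → R) = 0 := by
  funext σ
  exact zero_smul _ _

theorem leibniz0 {p q r : ℕ} (h : p + q = r) (a : Sing X p → A) (b : Sing X q → R) :
    dl (cup h a b) = cup (show p + 1 + q = r + 1 by omega) (dl a) b +
      (-1 : ℤ) ^ p • cup (show p + (q + 1) = r + 1 by omega) a (dl b) := by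
  funext σ
  rw [Pi.add_apply, Pi.smul_apply]
  simp only [dl, cup, Finset.sum_smul, Finset.smul_sum]
  have e1 : ∑ i : Fin (r + 2), (-1 : ℤ) ^ (i : ℕ) • b (sub (back h) (sface r i σ)) •
        a (sub (front h) (sface r i σ)) =
      ∑ i ∈ Finset.range (r + 2), (-1 : ℤ) ^ i • b (sub (ww_lz h i) σ) • a (sub (uu_lz h i) σ) := by
    rw [Finset.sum_range]
    refine Finset.sum_congr rfl fun i _ => ?_
    rw [sface_sub_lz, sub_sub_lz, sub_sub_lz]
    have f1 : i.succAbove ∘ front h = uu_lz h i := by
      funext j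
      apply Fin.ext
      simp only [Function.comp, uu_lz, front, Fin.succAbove, Fin.lt_def]
      split_ifs <;> simp_all
    have f2 : i.succAbove ∘ back h = ww_lz h i := by
      funext j
      apply Fin.ext
      simp only [Function.comp, ww_lz, back, Fin.succAbove, Fin.lt_def]
      split_ifs <;> simp_all
    rw [f1, f2]
  have e2 : ∑ i : Fin (p + 2), b (sub (back (show p + 1 + q = r + 1 by omega)) σ) •
        (-1 : ℤ) ^ (i : ℕ) • a (sface p i (sub (front (show p + 1 + q = r + 1 by omega)) σ)) =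
      ∑ i ∈ Finset.range (p + 2), (-1 : ℤ) ^ i •
        b (sub (back (show p + 1 + q = r + 1 by omega)) σ) • a (sub (uu_lz h i) σ) := by
    rw [Finset.sum_range]
    refine Finset.sum_congr rfl fun i _ => ?_
    rw [sface_sub_lz, sub_sub_lz, smul_comm]
    have f1 : front (show p + 1 + q = r + 1 by omega) ∘ i.succAbove = uu_lz h i := by
      funext j
      apply Fin.ext
      simp only [Function.comp, uu_lz, front, Fin.succAbove, Fin.lt_def]
      split_ifs <;> simp_all
    rw [f1]
  have e3 : ∑ i : Fin (q + 2), (-1 : ℤ) ^ p • ((-1 : ℤ) ^ (i : ℕ) •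
        b (sface q i (sub (back (show p + (q + 1) = r + 1 by omega)) σ))) •
          a (sub (front (show p + (q + 1) = r + 1 by omega)) σ) =
      ∑ i ∈ Finset.range (q + 2), (-1 : ℤ) ^ (p + i) •
        b (sub (ww_lz h (p + i)) σ) • a (sub (front (show p + (q + 1) = r + 1 by omega)) σ) := by
    rw [Finset.sum_range]
    refine Finset.sum_congr rfl fun i _ => ?_
    rw [sface_sub_lz, sub_sub_lz, pow_add, mul_smul, smul_assoc]
    have f1 : back (show p + (q + 1) = r + 1 by omega) ∘ i.succAbove = ww_lz h (p + i) := by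
      funext j
      apply Fin.ext
      simp only [Function.comp, ww_lz, back, Fin.succAbove, Fin.lt_def]
      split_ifs <;> simp_all <;> omega
    rw [f1]
  rw [e1, e2, e3]
  have g1 : ∀ i, p < i → uu_lz h i = front (show p + (q + 1) = r + 1 by omega) := by
    intro i hi
    funext j
    apply Fin.ext
    have := j.2
    simp only [uu_lz, front]
    rw [if_pos (by omega)]
  have g2 : ∀ i, i ≤ p → ww_lz h i = back (show p + 1 + q = r + 1 by omega) := by
    intro i hi
    funext j
    apply Fin.ext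
    simp only [ww_lz, back]
    rw [if_neg (by omega)]
    simp only []
    omega
  rw [show r + 2 = (p + 1) + (q + 1) by omega, Finset.sum_range_add, Finset.sum_range_succ _ (p + 1),
    Finset.sum_range_succ' _ (q + 1), g1 (p + 1) (by omega), g2 (p + 0) (by omega)]
  have e4 : ∑ i ∈ Finset.range (p + 1), (-1 : ℤ) ^ i • b (sub (ww_lz h i) σ) •
        a (sub (uu_lz h i) σ) =
      ∑ i ∈ Finset.range (p + 1), (-1 : ℤ) ^ i •
        b (sub (back (show p + 1 + q = r + 1 by omega)) σ) • a (sub (uu_lz h i) σ) := by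
    refine Finset.sum_congr rfl fun i hi => ?_
    rw [g2 i (by have := Finset.mem_range.1 hi; omega)]
  have e5 : ∑ i ∈ Finset.range (q + 1), (-1 : ℤ) ^ (p + 1 + i) •
        b (sub (ww_lz h (p + 1 + i)) σ) • a (sub (uu_lz h (p + 1 + i)) σ) =
      ∑ i ∈ Finset.range (q + 1), (-1 : ℤ) ^ (p + (i + 1)) •
        b (sub (ww_lz h (p + (i + 1))) σ) •
          a (sub (front (show p + (q + 1) = r + 1 by omega)) σ) := by
    refine Finset.sum_congr rfl fun i hi => ?_
    rw [g1 (p + 1 + i) (by omega), show p + 1 + i = p + (i + 1) by omega]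
  rw [e4, e5]
  have e6 : ∀ x : A, (-1 : ℤ) ^ (p + 1) • x + (-1 : ℤ) ^ (p + 0) • x = 0 := by
    intro x
    rw [← add_smul, pow_succ, add_zero]
    simp
  have e7 := e6 (b (sub (back (show p + 1 + q = r + 1 by omega)) σ) •
    a (sub (front (show p + (q + 1) = r + 1 by omega)) σ))
  generalize (∑ i ∈ Finset.range (p + 1), (-1 : ℤ) ^ i •
        b (sub (back (show p + 1 + q = r + 1 by omega)) σ) • a (sub (uu_lz h i) σ)) = S1
  generalize (∑ i ∈ Finset.range (q + 1), (-1 : ℤ) ^ (p + (i + 1)) •
        b (sub (ww_lz h (p + (i + 1))) σ) •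
          a (sub (front (show p + (q + 1) = r + 1 by omega)) σ)) = S2
  have e8 : ∀ x y : A, x + y = 0 → S1 + S2 = S1 + x + (S2 + y) := by
    intro x y hxy
    have : S1 + x + (S2 + y) = S1 + S2 + (x + y) := by abel
    rw [this, hxy, add_zero]
  exact e8 _ _ e7

theorem leibniz {α : Sing X 1 → Rˣ} {p q r : ℕ} (h : p + q = r) (a : Sing X p → A)
    (b : Sing X q → R) :
    dl (cup h a b) = cup (show p + 1 + q = r + 1 by omega) (dL α a) b +
      (-1 : ℤ) ^ p • cup (show p + (q + 1) = r + 1 by omega) a (dF α b) := by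
  rw [leibniz0]
  funext σ
  simp only [Pi.add_apply, Pi.smul_apply, cup, dL, dF, smul_add, add_smul]
  have f1 : sface p (Fin.last (p + 1)) (sub (front (show p + 1 + q = r + 1 by omega)) σ) =
      sub (front (show p + (q + 1) = r + 1 by omega)) σ := by
    rw [sface_sub_lz, sub_sub_lz]
    congr 1
    funext j
    apply Fin.ext
    simp [front]
  have f2 : sface q 0 (sub (back (show p + (q + 1) = r + 1 by omega)) σ) =
      sub (back (show p + 1 + q = r + 1 by omega)) σ := by
    rw [sface_sub_lz, sub_sub_lz]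
    congr 1
    funext j
    apply Fin.ext
    simp [back]
    omega
  have f3 : eL (sub (front (show p + 1 + q = r + 1 by omega)) σ) =
      eF (sub (back (show p + (q + 1) = r + 1 by omega)) σ) := by
    rw [eL, eF, sub_sub_lz, sub_sub_lz]
    congr 1
    funext j
    apply Fin.ext
    fin_cases j <;> simp [front, back]
  rw [f1, f2, f3]
  generalize ((α (eF (sub (back (show p + (q + 1) = r + 1 by omega)) σ)) : R) - 1) = t
  generalize b (sub (back (show p + 1 + q = r + 1 by omega)) σ) = y
  generalize a (sub (front (show p + (q + 1) = r + 1 by omega)) σ) = x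
  have e : y • (-1 : ℤ) ^ (p + 1) • t • x + (-1 : ℤ) ^ p • (t • y) • x = 0 := by
    rw [smul_comm y, smul_eq_mul, mul_smul, smul_comm y t, pow_succ, mul_smul]
    simp
  have e2 : ∀ (u v w z : A), w + z = 0 → u + v = u + w + (v + z) := by
    intro u v w z hwz
    have : u + w + (v + z) = u + v + (w + z) := by abel
    rw [this, hwz, add_zero]
  exact e2 _ _ _ _ e

theorem cup_cg {p p' q q' r : ℕ} (hp : p = p') (hq : q = q') (h : p + q = r)
    (h' : p' + q' = r) (a : TS X → A) (b : TS X → R) :
    cup h (cp p a) (cp q b) = cup h' (cp p' a) (cp q' b) := by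
  subst hp hq
  rfl

theorem CUP : S_CUP := by
  refine ⟨fun X _ R A _ _ _ α p q r h a b => leibniz h a b, ?_⟩
  intro X _ R A _ _ _ m I B hI
  refine ⟨LinearMap.mk₂ R (fun a b => ∑ p : Fin (m + 2), (-1 : ℤ) ^ ((p : ℕ) * (p + 1) / 2) •
        I (cup (show (p : ℕ) + (m + 1 - p) = m + 1 by omega) (cp (p : ℕ) a) (cp (m + 1 - p) b)))
      ?_ ?_ ?_ ?_, fun a b => rfl, ?_⟩
  · intro a a' b
    rw [← Finset.sum_add_distrib]
    refine Finset.sum_congr rfl fun p _ => ?_
    rw [cp_add, cup_add_left, map_add, smul_add]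
  · intro c a b
    rw [Finset.smul_sum]
    refine Finset.sum_congr rfl fun p _ => ?_
    rw [cp_smul, cup_smul_left, map_smul, smul_comm]
  · intro a b b'
    rw [← Finset.sum_add_distrib]
    refine Finset.sum_congr rfl fun p _ => ?_
    rw [cp_add, cup_add_right, map_add, smul_add]
  · intro c a b
    rw [Finset.smul_sum]
    refine Finset.sum_congr rfl fun p _ => ?_
    rw [cp_smul, cup_smul_right, map_smul, smul_comm]
  · intro α a b ha
    rw [LinearMap.mk₂_apply, LinearMap.mk₂_apply]
    rw [Fin.sum_univ_castSucc]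
    refine Eq.trans ?_ (Fin.sum_univ_succ _).symm
    have z1 : cp (m + 1 - ((Fin.last (m + 1) : Fin (m + 2)) : ℕ)) (tF α b) = 0 := by
      have : m + 1 - ((Fin.last (m + 1) : Fin (m + 2)) : ℕ) = 0 := by simp
      rw [this]
      rfl
    have z2 : cp (((0 : Fin (m + 2)) : ℕ)) (tL α a) = 0 := rfl
    rw [z1, cup_zero_right, map_zero, smul_zero, add_zero, z2, cup_zero_left, map_zero, smul_zero,
      zero_add]
    refine Finset.sum_congr rfl fun p _ => ?_
    have hp : (p : ℕ) ≤ m := by omega
    have e1 : cup (show ((p.castSucc : Fin (m + 2)) : ℕ) + (m + 1 - ((p.castSucc : Fin (m + 2)) : ℕ))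
          = m + 1 by omega) (cp ((p.castSucc : Fin (m + 2)) : ℕ) a)
          (cp (m + 1 - ((p.castSucc : Fin (m + 2)) : ℕ)) (tF α b)) =
        cup (show (p : ℕ) + ((m - p) + 1) = m + 1 by omega) (cp (p : ℕ) a)
          (cp ((m - p) + 1) (tF α b)) := by
      refine cup_cg rfl ?_ _ _ _ _
      simp only [Fin.val_castSucc]
      omega
    have e2 : cup (show ((p.succ : Fin (m + 2)) : ℕ) + (m + 1 - ((p.succ : Fin (m + 2)) : ℕ))
          = m + 1 by omega) (cp ((p.succ : Fin (m + 2)) : ℕ) (tL α a))
          (cp (m + 1 - ((p.succ : Fin (m + 2)) : ℕ)) b) =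
        cup (show (p : ℕ) + 1 + (m - p) = m + 1 by omega) (cp ((p : ℕ) + 1) (tL α a))
          (cp (m - p) b) := by
      refine cup_cg (Fin.val_succ p) ?_ _ _ _ _
      simp only [Fin.val_succ]
      omega
    rw [e1, e2, cp_tF_succ, cp_tL_succ]
    have h1 := hI (cup (show (p : ℕ) + (m - p) = m by omega) (cp (p : ℕ) a) (cp (m - p) b)) (by
      have h2 := (ha.cp (p : ℕ)).cup (show (p : ℕ) + (m - p) = m by omega) (L := ∅)
        (b := cp (m - p) b) (fun x hx => absurd hx (notMem_empty x))
      rwa [union_empty] at h2)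
    rw [leibniz (α := α), map_add, map_zsmul] at h1
    rw [eq_neg_of_add_eq_zero_left h1]
    have e3 : ((p.succ : Fin (m + 2)) : ℕ) * (((p.succ : Fin (m + 2)) : ℕ) + 1) / 2 =
        (p : ℕ) * ((p : ℕ) + 1) / 2 + ((p : ℕ) + 1) := by
      rw [Fin.val_succ]
      have : ((p : ℕ) + 1) * ((p : ℕ) + 1 + 1) = (p : ℕ) * ((p : ℕ) + 1) + ((p : ℕ) + 1) * 2 := by
        ring
      rw [this, Nat.add_mul_div_right _ _ (by norm_num)]
    rw [e3, Fin.val_castSucc, pow_add, mul_smul, smul_neg, smul_smul ((-1 : ℤ) ^ ((p : ℕ) + 1)),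
      ← pow_add, ← smul_neg]
    have e4 : (-1 : ℤ) ^ ((p : ℕ) + 1 + (p : ℕ)) = -1 := by
      have : (p : ℕ) + 1 + (p : ℕ) = 2 * (p : ℕ) + 1 := by ring
      rw [this, pow_succ, pow_mul]
      norm_num
    rw [e4]
    simp

end Run7.h841.TM
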