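import Pool.Agent.Run7.h841.TM.Fnl

/-! The pieces FUND and ORIJ. -/

set_option autoImplicit false
set_option linter.unusedVariables false
set_option linter.unusedSectionVars false

namespace Run7.h841.TM

open Set Topology
open Pool.Agent.Helper922.HB.Sc (Sing sface vert)
open Pool.Agent.Helper158.PD (TS sub front back HC range_sface)

section

variable {X : Type} [TopologicalSpace X] {R : Type} [CommRing R] {A : Type} [AddCommGroup A]
  [Module R A]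

variable (X R A) in
/-- the graded complex -/
noncomputable abbrev Grx : CCx X R A where
  S k := Sing X k
  rg k σ := range σ
  v0 k σ := σ (vert k 0)
  v0_mem k σ := ⟨_, rfl⟩
  d k := dlₗ R k
  dd k c := dl_dl c
  loc k c U h σ hσ := dl_loc c U h σ hσ

theorem mem_Grx {k : ℕ} {K : Set X} {c : Sing X k → A} : c ∈ (Grx X R A).N k K ↔ Nv K c := Iff.rfl

theorem tens_add {n : ℕ} (w : Sing X n → ℤ) (e e' : A) : tens w (e + e') = tens w e + tens w e' := by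
  funext σ
  exact smul_add _ _ _

theorem tens_add' {n : ℕ} (w w' : Sing X n → ℤ) (e : A) :
    tens (w + w') e = tens w e + tens w' e := by
  funext σ
  exact add_smul _ _ _

theorem tens_sub' {n : ℕ} (w w' : Sing X n → ℤ) (e : A) :
    tens (w - w') e = tens w e - tens w' e := by
  funext σ
  exact sub_smul _ _ _

theorem tens_smul' {n : ℕ} (r : ℤ) (w : Sing X n → ℤ) (e : A) :
    tens (r • w) e = r • tens w e := by
  funext σ
  exact mul_smul _ _ _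

theorem tens_smul {n : ℕ} (r : R) (w : Sing X n → ℤ) (e : A) :
    tens w (r • e) = r • tens w e := by
  funext σ
  exact smul_comm _ _ _

theorem tens_zero {n : ℕ} (w : Sing X n → ℤ) : tens w (0 : A) = 0 := by
  funext σ
  exact smul_zero _

theorem dl_tens {n : ℕ} (w : Sing X n → ℤ) (e : A) : dl (tens w e) = tens (dl w) e := by
  funext σ
  simp only [dl, tens, Finset.sum_smul, smul_assoc]

theorem Nv.tens {n : ℕ} {K : Set X} {w : Sing X n → ℤ} (h : Nv K w) (e : A) :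
    Nv K (TM.tens w e) := by
  intro x hx
  obtain ⟨U, hU, hxU, h1⟩ := h x hx
  exact ⟨U, hU, hxU, fun σ hσ => by rw [TM.tens, h1 σ hσ, zero_smul]⟩

/-- graded consequences of `USph` -/
theorem USph.other {K L : Set X} {n : ℕ} {w : Sing X n → ℤ} (h : USph K L n w) {k : ℕ}
    (hk : k + 1 ≠ n) {b : Sing X (k + 1) → A} (hb : Nv L b) (hdb : Nv K (dl b)) :
    ∃ b' : Sing X k → A, Nv L b' ∧ Nv K (b - dl b') := by
  obtain ⟨e, b', hb', h1⟩ := h.2.2.2 A (inc b) (NV.inc hb) (by rw [td_inc]; exact NV.inc hdb)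
  refine ⟨cp k b', hb'.cp k, ?_⟩
  have h2 := h1.cp (k + 1)
  rwa [cp_sub, cp_sub, cp_inc, cp_inc_ne hk, sub_zero, cp_td_succ] at h2

theorem USph.top {K L : Set X} {m : ℕ} {w : Sing X (m + 1) → ℤ} (h : USph K L (m + 1) w)
    {b : Sing X (m + 1) → A} (hb : Nv L b) (hdb : Nv K (dl b)) :
    ∃ (e : A) (b' : Sing X m → A), Nv L b' ∧ Nv K (b - tens w e - dl b') := by
  obtain ⟨e, b', hb', h1⟩ := h.2.2.2 A (inc b) (NV.inc hb) (by rw [td_inc]; exact NV.inc hdb)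
  refine ⟨e, cp m b', hb'.cp m, ?_⟩
  have h2 := h1.cp (m + 1)
  rwa [cp_sub, cp_sub, cp_inc, cp_inc, cp_td_succ] at h2

theorem USph.top_ne {K L : Set X} {m : ℕ} {w : Sing X (m + 1) → ℤ} (h : USph K L (m + 1) w)
    (e : A) (b' : Sing X m → A) (hb' : Nv L b') (h1 : Nv K (tens w e - dl b')) : e = 0 := by
  refine h.2.2.1 A e (inc b') (NV.inc hb') ?_
  rw [td_inc, ← inc_sub]
  exact NV.inc h1

theorem ori_graded {m : ℕ} {B : Set X} {Bx : Set (Set X)} {o : Set X → Sing X (m + 1) → ℤ}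
    (ho : IsOri (m + 1) B Bx o) {V V' : Set X} (hV : V ∈ Bx) (hV' : V' ∈ Bx) (h : V' ⊆ V) :
    ∃ b : Sing X m → ℤ, Nv (V \ B)ᶜ b ∧ Nv univ (o V' - o V - dl b) := by
  obtain ⟨b, hb, h1⟩ := ho.2 V hV V' hV' h
  refine ⟨cp m b, hb.cp m, ?_⟩
  have h2 := h1.cp (m + 1)
  rwa [cp_sub, cp_inc, cp_td_succ] at h2

end

section fund

variable {X : Type} [TopologicalSpace X] [CompactSpace X] [T2Space X] [CompletelyNormalSpace X]
  {R E : Type} [CommRing R] [AddCommGroup E] [Module R E] [Module.Injective R E]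
  {m : ℕ} {B : Set X} {Bx : Set (Set X)} {o : Set X → Sing X (m + 1) → ℤ}

theorem compl_diff (V B : Set X) : (V \ B)ᶜ = Vᶜ ∪ B := by
  rw [sdiff_eq, compl_inter, compl_compl]

/-- the dual complex is acyclic at points in degrees `> m + 1` -/
theorem dual_acy (hB : IsClosed B) (hgeo : Geo (m + 1) B Bx) (x : X) :
    ((Grx X R E).dual E hB).Acy (m + 1) {x} := by
  intro k hk φ hφ
  obtain ⟨U, hU, hxU, hkill⟩ : (Grx X R E).bd E k φ ∈ (Grx X R E).Z E B k {x} := hφ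
  obtain ⟨V, hV, hxV, hVU⟩ := hgeo.basis x U hU (hxU rfl)
  obtain ⟨w, hw⟩ := hgeo.gen V hV
  obtain ⟨ψ, hψ⟩ := (Grx X R E).ext_bd (k := k + 1) (L := (V \ B)ᶜ) φ (by
    intro b hb hdb
    obtain ⟨b', hb', hbb⟩ := hw.other (by omega : k + 1 ≠ m + 1) hb hdb
    have h1 : φ.1 (b - dl b') = 0 := φ.2 _ hbb
    have h2 : φ.1 (dl b') = 0 := hkill b' (by
      refine (Grx X R E).N_mono ?_ hb'
      rw [compl_diff]
      exact union_subset_union_left _ (compl_subset_compl.2 hVU))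
    have h3 : φ.1 b = φ.1 (b - dl b') + φ.1 (dl b') := by
      rw [← map_add, sub_add_cancel]
    rw [h3, h1, h2, add_zero])
  refine ⟨ψ, V, hgeo.isOpen V hV, singleton_subset_iff.2 hxV, ?_⟩
  rw [← compl_diff]
  exact hψ

/-- functionals with the right values on `V` -/
def PV (B : Set X) (o : Set X → Sing X (m + 1) → ℤ) (φ : (Sing X (m + 1) → E) →ₗ[R] E)
    (V : Set X) : Prop :=
  (∀ c : Sing X m → E, Nv (V \ B)ᶜ c → φ (dl c) = 0) ∧ ∀ e : E, φ (tens (o V) e) = e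

theorem PV_down (ho : IsOri (m + 1) B Bx o) {φ : (Sing X (m + 1) → E) →ₗ[R] E}
    (hφ : ∀ c, Nv univ c → φ c = 0) {V V' : Set X} (hV : V ∈ Bx) (hV' : V' ∈ Bx) (h : V' ⊆ V)
    (hP : PV B o φ V) : PV B o φ V' := by
  have hsub : (V \ B)ᶜ ⊆ (V' \ B)ᶜ := compl_subset_compl.2 (sdiff_subset_sdiff_left h)
  refine ⟨fun c hc => hP.1 c (hc.mono hsub), fun e => ?_⟩
  obtain ⟨b, hb, h1⟩ := ori_graded ho hV hV' h
  have h2 := hφ _ (h1.tens e)
  rw [tens_sub', tens_sub', map_sub, map_sub, hP.2, ← dl_tens, hP.1 _ (hb.tens e), sub_zero,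
    sub_eq_zero] at h2
  exact h2

theorem PV_up (ho : IsOri (m + 1) B Bx o) {φ : (Sing X (m + 1) → E) →ₗ[R] E}
    (hφ : ∀ c, Nv univ c → φ c = 0) {V V' : Set X} (hV : V ∈ Bx) (hV' : V' ∈ Bx) (h : V' ⊆ V)
    (hP : PV B o φ V') (hk : ∀ c : Sing X m → E, Nv (V \ B)ᶜ c → φ (dl c) = 0) :
    PV B o φ V := by
  refine ⟨hk, fun e => ?_⟩
  obtain ⟨b, hb, h1⟩ := ori_graded ho hV hV' h
  have h2 := hφ _ (h1.tens e)
  rw [tens_sub', tens_sub', map_sub, map_sub, hP.2, ← dl_tens, hk _ (hb.tens e), sub_zero,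
    sub_eq_zero] at h2
  exact h2.symm

/-- functionals with the right germ at `x` -/
def Rx (B : Set X) (Bx : Set (Set X)) (o : Set X → Sing X (m + 1) → ℤ) (x : X) :
    Set ((Grx X R E).D E (m + 1)) :=
  {φ | ∃ V ∈ Bx, x ∈ V ∧ PV B o φ.1 V}

theorem Rx_small (hgeo : Geo (m + 1) B Bx) (ho : IsOri (m + 1) B Bx o) {x : X}
    {φ : (Grx X R E).D E (m + 1)} (hφ : φ ∈ Rx B Bx o x) {U : Set X} (hU : IsOpen U) (hxU : x ∈ U) :
    ∃ V ∈ Bx, x ∈ V ∧ V ⊆ U ∧ PV B o φ.1 V := by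
  obtain ⟨V1, hV1, hx1, hP⟩ := hφ
  obtain ⟨V, hV, hxV, hsub⟩ := hgeo.basis x (V1 ∩ U) ((hgeo.isOpen V1 hV1).inter hU) ⟨hx1, hxU⟩
  exact ⟨V, hV, hxV, hsub.trans inter_subset_right,
    PV_down ho φ.2 hV1 hV (hsub.trans inter_subset_left) hP⟩

theorem Rx_sub (hgeo : Geo (m + 1) B Bx) (ho : IsOri (m + 1) B Bx o) {x : X}
    {φ φ' : (Grx X R E).D E (m + 1)} (hφ : φ ∈ Rx B Bx o x) (hφ' : φ' ∈ Rx B Bx o x) :
    ∃ ψ : (Grx X R E).D E (m + 2), φ - φ' - (Grx X R E).bd E (m + 1) ψ ∈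
      (Grx X R E).Z E B (m + 1) {x} := by
  obtain ⟨V1, hV1, hx1, hP1⟩ := hφ'
  obtain ⟨V, hV, hxV, hVU, hP⟩ := Rx_small hgeo ho hφ (hgeo.isOpen V1 hV1) hx1
  have hP' := PV_down ho φ'.2 hV1 hV hVU hP1
  obtain ⟨ψ, hψ⟩ := (Grx X R E).ext_bd (k := m + 1) (L := (V \ B)ᶜ) (φ - φ') (by
    intro b hb hdb
    obtain ⟨e, b', hb', hr⟩ := (ho.1 V hV).top hb hdb
    have e1 : (φ - φ').1 (b - tens (o V) e - dl b') = 0 := (φ - φ').2 _ hr
    have e2 : (φ - φ').1 (tens (o V) e) = 0 := by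
      change φ.1 (tens (o V) e) - φ'.1 (tens (o V) e) = 0
      rw [hP.2, hP'.2, sub_self]
    have e3 : (φ - φ').1 (dl b') = 0 := by
      change φ.1 (dl b') - φ'.1 (dl b') = 0
      rw [hP.1 b' hb', hP'.1 b' hb', sub_self]
    rw [map_sub, map_sub, e2, e3, sub_zero, sub_zero] at e1
    exact e1)
  refine ⟨ψ, V, hgeo.isOpen V hV, singleton_subset_iff.2 hxV, ?_⟩
  rw [← compl_diff]
  exact hψ

theorem Rx_bd (ho : IsOri (m + 1) B Bx o) {x : X}
    {φ : (Grx X R E).D E (m + 1)} (hφ : φ ∈ Rx B Bx o x) (ψ : (Grx X R E).D E (m + 2)) :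
    φ + (Grx X R E).bd E (m + 1) ψ ∈ Rx B Bx o x := by
  obtain ⟨V, hV, hxV, hP⟩ := hφ
  refine ⟨V, hV, hxV, fun c hc => ?_, fun e => ?_⟩
  · change φ.1 (dl c) + ψ.1 (dl (dl c)) = 0
    rw [hP.1 c hc, dl_dl, map_zero, add_zero]
  · change φ.1 (tens (o V) e) + ψ.1 (dl (tens (o V) e)) = e
    rw [hP.2, dl_tens, ψ.2 _ ((ho.1 V hV).2.1.tens e), add_zero]

theorem Rx_Z (hgeo : Geo (m + 1) B Bx) (ho : IsOri (m + 1) B Bx o) {x : X}
    {φ : (Grx X R E).D E (m + 1)} (hφ : φ ∈ Rx B Bx o x) {ζ : (Grx X R E).D E (m + 1)}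
    (hζ : ζ ∈ (Grx X R E).Z E B (m + 1) {x}) : φ + ζ ∈ Rx B Bx o x := by
  obtain ⟨U, hU, hxU, h0⟩ := hζ
  obtain ⟨V, hV, hxV, hVU, hP⟩ := Rx_small hgeo ho hφ hU (hxU rfl)
  have hsub : Uᶜ ∪ B ⊆ (V \ B)ᶜ := by
    rw [compl_diff]
    exact union_subset_union_left _ (compl_subset_compl.2 hVU)
  refine ⟨V, hV, hxV, fun c hc => ?_, fun e => ?_⟩
  · change φ.1 (dl c) + ζ.1 (dl c) = 0
    rw [hP.1 c hc, h0 _ ((hc.mono hsub).dl), add_zero]
  · change φ.1 (tens (o V) e) + ζ.1 (tens (o V) e) = e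
    rw [hP.2, h0 _ (((ho.1 V hV).1.tens e).mono hsub), add_zero]

theorem Rx_R4 (hgeo : Geo (m + 1) B Bx) {x : X}
    {φ : (Grx X R E).D E (m + 1)} (hφ : φ ∈ Rx B Bx o x) :
    (Grx X R E).bd E m φ ∈ (Grx X R E).Z E B m {x} := by
  obtain ⟨V, hV, hxV, hP⟩ := hφ
  refine ⟨V, hgeo.isOpen V hV, singleton_subset_iff.2 hxV, ?_⟩
  rw [← compl_diff]
  exact hP.1

theorem Rx_R5 (hgeo : Geo (m + 1) B Bx) (ho : IsOri (m + 1) B Bx o) (x : X) :
    ∃ U, IsOpen U ∧ x ∈ U ∧ ∃ φ : (Grx X R E).D E (m + 1), (∀ y ∈ U, φ ∈ Rx B Bx o y) ∧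
      ∀ B' ⊆ U, (Grx X R E).bd E m φ ∈ (Grx X R E).Z E B m B' := by
  obtain ⟨V, hV, hxV, -⟩ := hgeo.basis x univ isOpen_univ (mem_univ x)
  obtain ⟨φ, hφ⟩ := ext_inj (LinearMap.coprod
    (LinearMap.coprod ((dlₗ R m).comp ((Grx X R E).N m (V \ B)ᶜ).subtype)
      ({ toFun := fun e => tens (o V) e
         map_add' := fun e e' => tens_add _ _ _
         map_smul' := fun r e => tens_smul _ _ _ } : E →ₗ[R] (Sing X (m + 1) → E)))
    ((Grx X R E).N (m + 1) univ).subtype)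
    ((LinearMap.snd R _ E).comp (LinearMap.fst R _ ((Grx X R E).N (m + 1) univ))) (by
      rintro ⟨⟨⟨c, hc⟩, e⟩, ⟨ν, hν⟩⟩ h
      change dl c + tens (o V) e + ν = 0 at h
      change e = 0
      refine (ho.1 V hV).top_ne e (-c) (((mem_Grx).1 hc).neg) ?_
      have h3 : tens (o V) e - dl (-c) = -ν := by
        rw [dl_neg, sub_neg_eq_add, add_comm (tens (o V) e)]
        exact eq_neg_of_add_eq_zero_left h
      rw [h3]
      exact ((mem_Grx).1 hν).neg)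
  have k1 : ∀ c : Sing X m → E, Nv (V \ B)ᶜ c → φ (dl c) = 0 := by
    intro c hc
    have := hφ ((⟨c, hc⟩, 0), 0)
    change φ (dl c + tens (o V) 0 + 0) = 0 at this
    rwa [tens_zero, add_zero, add_zero] at this
  have k2 : ∀ e : E, φ (tens (o V) e) = e := by
    intro e
    have := hφ ((0, e), 0)
    change φ (dl 0 + tens (o V) e + 0) = e at this
    rwa [dl_zero, zero_add, add_zero] at this
  have k3 : ∀ c : Sing X (m + 1) → E, Nv univ c → φ c = 0 := by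
    intro c hc
    have := hφ ((0, 0), ⟨c, hc⟩)
    change φ (dl 0 + tens (o V) 0 + c) = 0 at this
    rwa [dl_zero, zero_add, tens_zero, zero_add] at this
  refine ⟨V, hgeo.isOpen V hV, hxV, ⟨φ, k3⟩, fun y hy => ⟨V, hV, hy, k1, k2⟩, ?_⟩
  intro B' hB'
  refine ⟨V, hgeo.isOpen V hV, hB', ?_⟩
  rw [← compl_diff]
  exact k1

end fund

theorem FUND : S_FUND := by
  intro X _ _ _ _ m B Bx o R E _ _ _ _ hB hgeo hloc ho
  have hac : ((Grx X R E).dual E hB).Good (m + 1) univ :=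
    boot' _ hloc (fun x => dual_acy hB hgeo x)
  obtain ⟨φ, h1, h2⟩ := HC.glue ((Grx X R E).dual E hB) (m := m) hac (fun x => Rx B Bx o x)
    (fun x φ hφ φ' hφ' => Rx_sub hgeo ho hφ hφ') (fun x φ hφ ψ => Rx_bd ho hφ ψ)
    (fun x φ hφ ζ hζ => Rx_Z hgeo ho hφ hζ) (fun x φ hφ => Rx_R4 hgeo hφ)
    (fun x => Rx_R5 hgeo ho x)
  have h3 : ∀ c : Sing X m → E, Nv B c → φ.1 (dl c) = 0 := (Grx X R E).Z_univ h1
  refine ⟨φ.1, φ.2, h3, fun V hV e => ?_⟩
  obtain ⟨x, hx⟩ := (hgeo.pconn V hV).nonempty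
  obtain ⟨V', hV', hxV', hsub, hP⟩ := Rx_small hgeo ho (h2 x) (hgeo.isOpen V hV) hx
  refine (PV_up ho φ.2 hV hV' hsub hP ?_).2 e
  intro c hc
  apply h3 c
  refine hc.mono ?_
  rw [compl_diff]
  exact subset_union_right

theorem USph.zsmul {X : Type} [TopologicalSpace X] {K L : Set X} {n : ℕ} {w : Sing X n → ℤ}
    (h : USph K L n w) {r : ℤ} (hr : r = 1 ∨ r = -1) : USph K L n (r • w) := by
  have hrr : r * r = 1 := by rcases hr with rfl | rfl <;> norm_num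
  have ht : ∀ (A : Type) [AddCommGroup A] (e : A), tens (r • w) e = tens w (r • e) := by
    intro A _ e
    funext σ
    change (r * w σ) • e = w σ • r • e
    rw [smul_smul, mul_comm]
  refine ⟨h.1.smul r, ?_, ?_, ?_⟩
  · rw [dl_smul]
    exact h.2.1.smul r
  · intro A _ e b' hb' h1
    rw [ht] at h1
    have h2 := h.2.2.1 A _ b' hb' h1
    have h3 : r • r • e = 0 := by rw [h2, smul_zero]
    rwa [smul_smul, hrr, one_smul] at h3
  · intro A _ b hb hdb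
    obtain ⟨e, b', hb', h1⟩ := h.2.2.2 A b hb hdb
    refine ⟨r • e, b', hb', ?_⟩
    rw [ht, smul_smul, hrr, one_smul]
    exact h1

theorem ORIJ (hG2 : S_G2) : S_ORIJ := by
  intro X _ _ _ _ _ m B Bx hB hgeo hloc J hJ1 hJ2 a ha hda hJa
  have hE : Module.Injective ℚ ℚ := inj_of_field ℚ ℚ
  choose! w hw using hgeo.gen
  have huniq := (hG2 X).2.2.2.2.2.2.2.2
  have hBsub : ∀ V : Set X, B ⊆ (V \ B)ᶜ := by
    intro V
    rw [compl_diff]
    exact subset_union_right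
  -- comparison
  have hcomp : ∀ V ∈ Bx, ∀ V' ∈ Bx, V' ⊆ V → ∃ r : ℤ, (r = 1 ∨ r = -1) ∧
      ∃ b : TS X → ℤ, NV (V \ B)ᶜ b ∧ NV univ (inc (w V') - r • inc (w V) - td b) := by
    intro V hV V' hV' h
    exact huniq univ (V \ B)ᶜ (m + 1) (w V) (w V') (subset_univ _) (hw V hV)
      (hgeo.mono V hV V' hV' h _ (hw V' hV'))
  obtain ⟨j, hj⟩ : ∃ j : Set X → ℚ, ∀ V, j V = J (tens (w V) 1) := ⟨_, fun _ => rfl⟩
  have hjr : ∀ V ∈ Bx, ∀ V' ∈ Bx, ∀ (r : ℤ) (b : TS X → ℤ), NV (V \ B)ᶜ b →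
      NV univ (inc (w V') - r • inc (w V) - td b) → j V' = r * j V := by
    intro V hV V' hV' r b hb h1
    have h2 := h1.cp (m + 1)
    rw [cp_sub, cp_sub, cp_smul, cp_inc, cp_inc, cp_td_succ] at h2
    have h3 := hJ1 _ (h2.tens (1 : ℚ))
    rw [tens_sub', tens_sub', tens_smul', map_sub, map_sub, map_zsmul, ← dl_tens,
      hJ2 _ (((hb.cp m).mono (hBsub V)).tens _), sub_zero, sub_eq_zero, zsmul_eq_mul] at h3
    rw [hj, hj]
    exact h3
  have habs : ∀ V ∈ Bx, ∀ V' ∈ Bx, V' ⊆ V → |j V'| = |j V| := by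
    intro V hV V' hV' h
    obtain ⟨r, hr, b, hb, h1⟩ := hcomp V hV V' hV' h
    rw [hjr V hV V' hV' r b hb h1, abs_mul]
    rcases hr with rfl | rfl <;> simp
  have habs2 : ∀ V ∈ Bx, ∀ V' ∈ Bx, (V ∩ V').Nonempty → |j V'| = |j V| := by
    rintro V hV V' hV' ⟨x, hx, hx'⟩
    obtain ⟨V'', hV'', hx'', hsub⟩ := hgeo.basis x (V ∩ V')
      ((hgeo.isOpen V hV).inter (hgeo.isOpen V' hV')) ⟨hx, hx'⟩
    rw [← habs V hV V'' hV'' (hsub.trans inter_subset_left),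
      ← habs V' hV' V'' hV'' (hsub.trans inter_subset_right)]
  have hex : ∀ x : X, ∃ V ∈ Bx, x ∈ V := by
    intro x
    obtain ⟨V, hV, hx, -⟩ := hgeo.basis x univ isOpen_univ (mem_univ x)
    exact ⟨V, hV, hx⟩
  choose Vx hVx hxV using hex
  have hconst : ∀ x y : X, |j (Vx x)| = |j (Vx y)| := by
    have hlc : IsLocallyConstant (fun x => |j (Vx x)|) := by
      rw [IsLocallyConstant.iff_eventually_eq]
      intro x
      filter_upwards [(hgeo.isOpen _ (hVx x)).mem_nhds (hxV x)] with y hy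
      exact habs2 _ (hVx x) _ (hVx y) ⟨y, hy, hxV y⟩
    exact fun x y => hlc.apply_eq_of_preconnectedSpace x y
  by_cases h0 : ∃ x : X, j (Vx x) ≠ 0
  · obtain ⟨x₀, hx₀⟩ := h0
    have hne : ∀ V ∈ Bx, j V ≠ 0 := by
      intro V hV h
      obtain ⟨x, hx⟩ := (hgeo.pconn V hV).nonempty
      have h1 := habs2 _ (hVx x) V hV ⟨x, hxV x, hx⟩
      rw [h, abs_zero] at h1
      have h2 := hconst x x₀
      rw [← h1] at h2
      exact hx₀ (abs_eq_zero.1 h2.symm)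
    obtain ⟨sg, hsg⟩ : ∃ sg : Set X → ℤ, ∀ V, sg V = if 0 < j V then 1 else -1 :=
      ⟨_, fun _ => rfl⟩
    have hsg1 : ∀ V, sg V = 1 ∨ sg V = -1 := by
      intro V
      rw [hsg]
      split_ifs
      · left; rfl
      · right; rfl
    refine ⟨fun V => sg V • w V, fun V hV => (hw V hV).zsmul (hsg1 V), ?_⟩
    intro V hV V' hV' h
    obtain ⟨r, hr, b, hb, h1⟩ := hcomp V hV V' hV' h
    have h2 := hjr V hV V' hV' r b hb h1
    have h3 : sg V' * r = sg V := by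
      rw [hsg, hsg, h2]
      rcases hr with rfl | rfl
      · simp
      · have h4 := hne V hV
        rcases lt_or_gt_of_ne h4 with h5 | h5
        · rw [if_pos (by push_cast; linarith), if_neg (by linarith)]
          norm_num
        · rw [if_neg (by push_cast; linarith), if_pos h5]
          norm_num
    refine ⟨sg V' • b, hb.smul _, ?_⟩
    have h6 : inc (sg V' • w V' - sg V • w V) - td (sg V' • b) =
        sg V' • (inc (w V') - r • inc (w V) - td b) := by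
      rw [inc_sub, inc_smul, inc_smul, td_smul, smul_sub, smul_sub, smul_smul, h3]
    rw [h6]
    exact h1.smul _
  · exfalso
    push Not at h0
    have hz : ∀ V ∈ Bx, j V = 0 := by
      intro V hV
      obtain ⟨x, hx⟩ := (hgeo.pconn V hV).nonempty
      have h1 := habs2 _ (hVx x) V hV ⟨x, hxV x, hx⟩
      rw [h0 x, abs_zero] at h1
      exact abs_eq_zero.1 h1
    have hac : ((Grx X ℚ ℚ).dual ℚ hB).Good (m + 1) univ :=
      boot' _ hloc (fun x => dual_acy hB hgeo x)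
    obtain ⟨ψ, hψ⟩ := HC.ex_of_local ((Grx X ℚ ℚ).dual ℚ hB) (m := m) hac isClosed_univ
      (θ := ⟨J, hJ1⟩) (by
      intro x _
      obtain ⟨ψ, hψ⟩ := (Grx X ℚ ℚ).ext_bd (k := m + 1) (L := (Vx x \ B)ᶜ) (⟨J, hJ1⟩ : _) (by
        intro b hb hdb
        obtain ⟨e, b', hb', hr⟩ := (hw _ (hVx x)).top hb hdb
        have e1 : J (b - tens (w (Vx x)) e - dl b') = 0 := hJ1 _ hr
        have e2 : J (tens (w (Vx x)) e) = 0 := by
          have : tens (w (Vx x)) e = e • tens (w (Vx x)) (1 : ℚ) := by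
            rw [← tens_smul, smul_eq_mul, mul_one]
          rw [this, map_smul, ← hj, hz _ (hVx x), smul_zero]
        have e3 : J (dl b') = 0 := hJ2 _ (Nv.mono (hBsub _) hb')
        rw [map_sub, map_sub, e2, e3, sub_zero, sub_zero] at e1
        exact e1)
      refine ⟨ψ, Vx x, hgeo.isOpen _ (hVx x), singleton_subset_iff.2 (hxV x), ?_⟩
      rw [← compl_diff]
      exact hψ)
    have h1 : J a - ψ.1 (dl a) = 0 := (Grx X ℚ ℚ).Z_univ hψ a ha
    rw [ψ.2 _ hda, sub_zero] at h1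
    exact hJa h1

end Run7.h841.TM
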