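import Pool.Agent.Run7.h841.TM.LocT
import Pool.Agent.Run7.h841.TM.PFund
import Pool.Agent.Run7.h841.TM.PCup

/-! The piece DUAL: twisted Poincaré–Lefschetz duality. -/

set_option autoImplicit false
set_option linter.unusedVariables false
set_option linter.unusedSectionVars false

namespace Run7.h841.TM

open Set Topology
open Pool.Agent.Helper922.HB.Sc (Sing sface vert)
open Pool.Agent.Helper158.PD (TS sub front back HC range_sface)

section

variable {X : Type} [TopologicalSpace X] {R : Type} [CommRing R] {A : Type} [AddCommGroup A]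
  [Module R A]

variable (A) in
/-- the total complex -/
noncomputable abbrev Totx (α : Sing X 1 → Rˣ) (hα : IsTw α) : CCx X R A where
  S _ := TS X
  rg _ s := range s.2
  v0 _ s := s.2 (vert s.1 0)
  v0_mem _ s := ⟨_, rfl⟩
  d _ := tFₗ α
  dd _ c := tF_tF hα c
  loc _ c U h s hs := tF_loc α c U h s hs

variable (R) in
/-- total cochains vanishing near `K` -/
def NVs (A : Type) [AddCommGroup A] [Module R A] (K : Set X) : Submodule R (TS X → A) where
  carrier := {c | NV K c}
  zero_mem' := NV.zero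
  add_mem' := NV.add
  smul_mem' r _ h := h.smul r

theorem mem_NVs {K : Set X} {c : TS X → A} : c ∈ NVs R A K ↔ NV K c := Iff.rfl

end

section

variable {X : Type} [TopologicalSpace X] [CompactSpace X] [T2Space X] [CompletelyNormalSpace X]
  {R E : Type} [CommRing R] [AddCommGroup E] [Module R E] [Module.Injective R E]
  {m : ℕ} {B : Set X} {Bx : Set (Set X)} {o : Set X → Sing X (m + 1) → ℤ}
  {I : (Sing X (m + 1) → E) →ₗ[R] E}

/-- the pairing of CUP -/
structure PairD (I : (Sing X (m + 1) → E) →ₗ[R] E) (B : Set X)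
    (P : (TS X → E) →ₗ[R] (TS X → R) →ₗ[R] E) : Prop where
  form : ∀ a b, P a b = ∑ p : Fin (m + 2), (-1 : ℤ) ^ ((p : ℕ) * (p + 1) / 2) •
        I (cup (show (p : ℕ) + (m + 1 - p) = m + 1 by omega) (cp (p : ℕ) a) (cp (m + 1 - p) b))
  adj : ∀ (α : Sing X 1 → Rˣ) (a : TS X → E) (b : TS X → R), NV B a → P a (tF α b) = P (tL α a) b
  kill : ∀ c : Sing X (m + 1) → E, Nv univ c → I c = 0

variable {P : (TS X → E) →ₗ[R] (TS X → R) →ₗ[R] E}

theorem PairD.supp (hP : PairD I B P) {K L : Set X} {a : TS X → E} {b : TS X → R}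
    (ha : NV K a) (hb : NV L b) (h : K ∪ L = univ) : P a b = 0 := by
  rw [hP.form]
  refine Finset.sum_eq_zero fun p _ => ?_
  rw [hP.kill _ (by
    have h1 := (ha.cp (p : ℕ)).cup (show (p : ℕ) + (m + 1 - p) = m + 1 by omega)
      (hb.cp (m + 1 - p))
    rwa [h] at h1), smul_zero]

variable {α : Sing X 1 → Rˣ} (hα : IsTw α)

/-- the duality map -/
noncomputable def Phx (hP : PairD I B P) : (TS X → E) →ₗ[R] (Totx R α hα).D E 0 :=
  LinearMap.codRestrict ((Totx R α hα).D E 0) P (by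
    intro a b hb
    exact hP.supp (K := ∅) (NV.empty a) (show NV univ b from hb) (empty_union _))

theorem Phx_apply (hP : PairD I B P) (a : TS X → E) (b : TS X → R) :
    (Phx hα hP a).1 b = P a b := rfl

theorem Phx_Z (hP : PairD I B P) {K : Set X} {a : TS X → E} (h : NV K a) :
    Phx hα hP a ∈ (Totx R α hα).Z E ∅ 0 K := by
  obtain ⟨U, hU, hAU, h1⟩ := h.nhd
  refine ⟨U, hU, hAU, fun b hb => ?_⟩
  rw [union_empty] at hb
  exact hP.supp h1 (show NV Uᶜ b from hb) (union_compl_self U)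

/-- the cone of the duality map -/
noncomputable def conex (hB : IsClosed B) (hP : PairD I B P) : HC X where
  T _ := NVs R E B × (Totx R α hα).D E 0
  d _ :=
    { toFun := fun z => (⟨tL α z.1.1, (z.1.2 : NV B z.1.1).tL⟩,
        Phx hα hP z.1.1 - (Totx R α hα).bd E 0 z.2)
      map_zero' := by
        apply Prod.ext
        · apply Subtype.ext
          exact tL_zero α
        · change Phx hα hP 0 - (Totx R α hα).bd E 0 0 = 0
          rw [map_zero, map_zero, sub_zero]
      map_add' := by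
        intro z w
        apply Prod.ext
        · apply Subtype.ext
          exact tL_add α _ _
        · change Phx hα hP (z.1.1 + w.1.1) - (Totx R α hα).bd E 0 (z.2 + w.2) =
            Phx hα hP z.1.1 - (Totx R α hα).bd E 0 z.2 +
              (Phx hα hP w.1.1 - (Totx R α hα).bd E 0 w.2)
          have e1 : (Totx R α hα).bd E 0 (z.2 + w.2) =
              (Totx R α hα).bd E 0 z.2 + (Totx R α hα).bd E 0 w.2 := map_add _ _ _
          refine (congrArg₂ (· - ·) (map_add (Phx hα hP) z.1.1 w.1.1) e1).trans ?_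
          exact add_sub_add_comm _ _ _ _ }
  Z _ K := (((NVs R E K).comap (NVs R E B).subtype).prod ((Totx R α hα).Z E ∅ 0 K)).toAddSubgroup
  d_Z := by
    rintro k K ⟨a, φ⟩ ⟨h1, h2⟩
    have h1' : NV K a.1 := h1
    refine ⟨h1'.tL, ?_⟩
    refine Submodule.sub_mem _ (Phx_Z hα hP h1') ?_
    obtain ⟨U, hU, hAU, h⟩ := h2
    exact ⟨U, hU, hAU, fun c hc => h _ ((Totx R α hα).d_N (k := 0) hc)⟩
  dd := by
    rintro k ⟨a, φ⟩
    apply Prod.ext
    · apply Subtype.ext
      exact tL_tL hα a.1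
    · apply Subtype.ext
      apply LinearMap.ext
      intro b
      change P (tL α a.1) b - (P a.1 (tF α b) - φ.1 (tF α (tF α b))) = 0
      rw [hP.adj α a.1 b a.2, tF_tF hα, map_zero, sub_zero, sub_self]
  mono := by
    rintro k K L hAB ⟨a, φ⟩ ⟨h1, U, hU, hBU, h⟩
    exact ⟨NV.mono hAB h1, U, hU, hAB.trans hBU, h⟩
  union := by
    rintro k K L _ _ ⟨a, φ⟩ ⟨h1, h2⟩ ⟨h3, h4⟩
    exact ⟨NV.union h1 h3, (Totx R α hα).Z_union isClosed_empty h2 h4⟩
  inter := by
    rintro k K L hK hL ⟨a, φ⟩ ⟨h1, h2⟩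
    have h1' : NV (K ∩ L) a.1 := h1
    have h3 : NV ((K ∪ B) ∩ (L ∪ B)) a.1 := by
      rw [← inter_union_distrib_right]
      exact h1'.union a.2
    obtain ⟨a1, a2, h4, h5, e1⟩ := NV.split (hK.union hB) (hL.union hB) h3
    obtain ⟨φ1, h6, φ2, h7, e2⟩ := (Totx R α hα).Z_inter hK hL h2
    exact ⟨(⟨a1, h4.mono subset_union_right⟩, φ1), ⟨h4.mono subset_union_left, h6⟩,
      (⟨a2, h5.mono subset_union_right⟩, φ2), ⟨h5.mono subset_union_left, h7⟩,
      Prod.ext (Subtype.ext e1) e2⟩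
  nhd := by
    rintro k K _ ⟨a, φ⟩ ⟨h1, U, hU, hAU, h⟩
    obtain ⟨V, hV, hAV, h3⟩ := (show NV K a.1 from h1).nhd
    exact ⟨U ∩ V, hU.inter hV, subset_inter hAU hAV, fun L hL =>
      ⟨h3.mono (hL.trans inter_subset_right), U, hU, hL.trans inter_subset_left, h⟩⟩
  empty := by
    rintro k ⟨a, φ⟩
    refine ⟨NV.empty _, ∅, isOpen_empty, subset_rfl, fun c hc => φ.2 c ?_⟩
    rwa [compl_empty, univ_union] at hc

/-- the pairing with a local flat cochain -/
theorem pair_flat (hP : PairD I B P) (hval : ∀ V ∈ Bx, ∀ e : E, I (tens (o V) e) = e)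
    {β : X → Rˣ} {V V₀ : Set X} (hV : V ∈ Bx) (hV₀ : IsOpen V₀) (hVV : V ⊆ V₀)
    (hw : USph univ Vᶜ (m + 1) (o V)) (e : E) :
    P (cut V₀ (Tm (bL β)⁻¹ (cst e))) (Wg β (o V)) = e := by
  classical
  rw [hP.form, Fin.sum_univ_succ, Finset.sum_eq_zero, add_zero]
  · have h0 : (-1 : ℤ) ^ (((0 : Fin (m + 2)) : ℕ) * (((0 : Fin (m + 2)) : ℕ) + 1) / 2) = 1 := by
      simp
    rw [h0, one_smul]
    obtain ⟨c, hc⟩ : ∃ c, c = cup (show ((0 : Fin (m + 2)) : ℕ) + (m + 1 - ((0 : Fin (m + 2)) : ℕ))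
      = m + 1 by simp) (cp ((0 : Fin (m + 2)) : ℕ) (cut V₀ (Tm (bL β)⁻¹ (cst e))))
      (cp (m + 1 - ((0 : Fin (m + 2)) : ℕ)) (Wg β (o V)) : Sing X _ → R) := ⟨_, rfl⟩
    rw [← hc]
    have h1 : Nv univ (c - tens (o V) e) := by
      have h2 : Nv V₀ (c - tens (o V) e) := by
        refine Nv.of_zero hV₀ fun σ hσ => ?_
        rw [Pi.sub_apply, hc, sub_eq_zero]
        have e2 : sub (back (show 0 + (m + 1) = m + 1 by omega)) σ = σ := by
          have : back (show 0 + (m + 1) = m + 1 by omega) = id := by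
            funext i
            apply Fin.ext
            simp [back]
          rw [this, sub_id]
        have e3 : cp (m + 1) (Wg β (o V) : TS X → R) σ =
            (β (σ (vert (m + 1) 0)) : R) * (o V σ • (1 : R)) := by
          change (β (σ (vert (m + 1) 0)) : R) * (cp (m + 1) (inc (tens (o V) (1 : R))) σ) = _
          rw [cp_inc]
          rfl
        have hv : sub (front (show 0 + (m + 1) = m + 1 by omega)) σ (vert 0 0) =
            σ (vert (m + 1) 0) := by
          rw [sub_vert]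
          rfl
        have e4 : cp 0 (cut V₀ (Tm (bL β)⁻¹ (cst e)))
            (sub (front (show 0 + (m + 1) = m + 1 by omega)) σ) =
            (((β (σ (vert (m + 1) 0)))⁻¹ : Rˣ) : R) • e := by
          change cut V₀ (Tm (bL β)⁻¹ (cst e))
            ⟨0, sub (front (show 0 + (m + 1) = m + 1 by omega)) σ⟩ = _
          rw [cut_of _ ((Pool.Agent.Helper158.PD.range_sub _ σ).trans hσ)]
          change (((β (sub (front (show 0 + (m + 1) = m + 1 by omega)) σ
            (vert 0 (Fin.last 0))))⁻¹ : Rˣ) : R) • cp 0 (cst e)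
            (sub (front (show 0 + (m + 1) = m + 1 by omega)) σ) = _
          have h5 : (Fin.last 0 : Fin 1) = 0 := rfl
          rw [h5, hv, cst, cp_inc]
        have e1 : cup (show ((0 : Fin (m + 2)) : ℕ) + (m + 1 - ((0 : Fin (m + 2)) : ℕ))
            = m + 1 by simp) (cp ((0 : Fin (m + 2)) : ℕ) (cut V₀ (Tm (bL β)⁻¹ (cst e))))
            (cp (m + 1 - ((0 : Fin (m + 2)) : ℕ)) (Wg β (o V)) : Sing X _ → R) σ =
            cp (m + 1) (Wg β (o V) : TS X → R)
              (sub (back (show 0 + (m + 1) = m + 1 by omega)) σ) •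
            cp 0 (cut V₀ (Tm (bL β)⁻¹ (cst e)))
              (sub (front (show 0 + (m + 1) = m + 1 by omega)) σ) := rfl
        rw [e1, e2, e3, e4, smul_smul]
        have e5 : ((β (σ (vert (m + 1) 0)) : Rˣ) : R) * (o V σ • (1 : R)) *
            (((β (σ (vert (m + 1) 0)))⁻¹ : Rˣ) : R) = o V σ • (1 : R) := by
          have := Units.mul_inv (β (σ (vert (m + 1) 0)))
          calc ((β (σ (vert (m + 1) 0)) : Rˣ) : R) * (o V σ • (1 : R)) *
            (((β (σ (vert (m + 1) 0)))⁻¹ : Rˣ) : R) =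
              (((β (σ (vert (m + 1) 0)) : Rˣ) : R) *
                (((β (σ (vert (m + 1) 0)))⁻¹ : Rˣ) : R)) * (o V σ • (1 : R)) := by ring
            _ = _ := by rw [this, one_mul]
        rw [e5, smul_assoc, one_smul]
        rfl
      have h3 : Nv Vᶜ (c - tens (o V) e) := by
        refine Nv.sub ?_ (hw.1.tens e)
        rw [hc]
        have h4 := (NV.empty (cut V₀ (Tm (bL β)⁻¹ (cst e)))).cp ((0 : Fin (m + 2)) : ℕ)
        have h5 := h4.cup (show ((0 : Fin (m + 2)) : ℕ) + (m + 1 - ((0 : Fin (m + 2)) : ℕ))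
            = m + 1 by simp) ((Wg_NV (R := R) β hw).cp (m + 1 - ((0 : Fin (m + 2)) : ℕ)))
        rwa [empty_union] at h5
      have h4 := h2.union h3
      have h5 : V₀ ∪ Vᶜ = univ := by
        rw [eq_univ_iff_forall]
        intro x
        by_cases hx : x ∈ V
        · exact Or.inl (hVV hx)
        · exact Or.inr hx
      rwa [h5] at h4
    have h6 := hP.kill _ h1
    rw [map_sub, hval V hV, sub_eq_zero] at h6
    exact h6
  · intro p _
    have h1 : cp ((Fin.succ p : Fin (m + 2)) : ℕ) (cut V₀ (Tm (bL β)⁻¹ (cst e))) = 0 := by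
      funext σ
      change (if range σ ⊆ V₀ then _ • cp ((Fin.succ p : Fin (m + 2)) : ℕ) (cst e) σ else 0) = 0
      rw [cst, cp_inc_ne (by rw [Fin.val_succ]; omega)]
      simp
    rw [h1, cup_zero_left, map_zero, smul_zero]

theorem conex_acy (hB : IsClosed B) (hP : PairD I B P)
    (hval : ∀ V ∈ Bx, ∀ e : E, I (tens (o V) e) = e)
    (hgeo : Geo (m + 1) B Bx) (ho : IsOri (m + 1) B Bx o) (x : X)
    (a : TS X → E) (haB : NV B a) (φ : (Totx R α hα).D E 0)
    (h1 : NV {x} (tL α a)) (h2 : Phx hα hP a - (Totx R α hα).bd E 0 φ ∈ (Totx R α hα).Z E ∅ 0 {x}) :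
    ∃ (a' : TS X → E) (ψ : (Totx R α hα).D E 0), NV B a' ∧ NV {x} (a - tL α a') ∧
      φ - (Phx hα hP a' - (Totx R α hα).bd E 0 ψ) ∈ (Totx R α hα).Z E ∅ 0 {x} := by
  classical
  obtain ⟨U, hU, hxU, β, hβ⟩ := locTriv hα (hgeo.cacy x)
  by_cases hxB : x ∈ B
  · have h3 : (Totx R α hα).bd E 0 φ ∈ (Totx R α hα).Z E ∅ 0 {x} := by
      have h4 := Submodule.sub_mem _
        (Phx_Z hα hP (haB.mono (singleton_subset_iff.2 hxB))) h2
      rwa [sub_sub_cancel] at h4
    obtain ⟨U₂, hU₂, hxU₂, h5⟩ := h3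
    rw [singleton_subset_iff] at hxU₂
    obtain ⟨V, hV, hxV, hsub⟩ := hgeo.basis x (U ∩ U₂) (hU.inter hU₂) ⟨hxU, hxU₂⟩
    have hVo := hgeo.isOpen V hV
    have hr := hgeo.half V hV ⟨x, hxV, hxB⟩
    obtain ⟨ψ, hψ⟩ := (Totx R α hα).ext_bd (k := 0) (L := Vᶜ) φ (by
      intro b hb hdb
      obtain ⟨b', hb', hν⟩ := raF hα hβ hVo (hsub.trans inter_subset_left) hr b hb hdb
      have e1 : φ.1 (b - tF α b') = 0 := φ.2 _ hν
      have e2 : φ.1 (tF α b') = 0 := h5 b' (by
        rw [union_empty]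
        exact hb'.mono (compl_subset_compl.2 (hsub.trans inter_subset_right)))
      rw [map_sub, e2, sub_zero] at e1
      exact e1)
    refine ⟨0, -ψ, NV.zero, ?_, V, hVo, singleton_subset_iff.2 hxV, ?_⟩
    · rw [tL_zero, sub_zero]
      exact haB.mono (singleton_subset_iff.2 hxB)
    · intro c hc
      rw [union_empty] at hc
      rw [map_zero, map_neg, zero_sub, neg_neg]
      exact hψ c hc
  · -- interior points
    obtain ⟨V₀, hxV₀, hcl, hV₀B⟩ : ∃ V₀ : Set X, x ∈ V₀ ∧ IsOpen V₀ ∧ Disjoint (closure V₀) B := by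
      obtain ⟨K, hK, hKc, hKs⟩ := exists_mem_nhds_isClosed_subset
        (hB.isOpen_compl.mem_nhds (show x ∈ Bᶜ from hxB))
      refine ⟨interior K, mem_interior_iff_mem_nhds.2 hK, isOpen_interior, ?_⟩
      refine Set.disjoint_left.2 fun y hy hyB => ?_
      exact hKs ((closure_minimal interior_subset hKc) hy) hyB
    have hV₀ : IsOpen V₀ := hcl
    obtain ⟨e, a₁, hν⟩ := cacyL hα (hgeo.cacy x) hU hxU hβ a h1
    have hKx : ∀ κ : E, NV B (cut V₀ (Tm (bL β)⁻¹ (cst κ))) := fun κ => cut_NV hV₀B _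
    have ha₁ : NV B (cut V₀ a₁) := cut_NV hV₀B _
    have hflat : ∀ κ : E, ∀ s : TS X, range s.2 ⊆ U ∩ V₀ →
        tL α (cut V₀ (Tm (bL β)⁻¹ (cst κ))) s = 0 := by
      intro κ s hs
      rw [tL_cut α _ (hs.trans inter_subset_right)]
      exact flatL hα hβ κ s (hs.trans inter_subset_left)
    have hν' : NV {x} (a - cut V₀ (Tm (bL β)⁻¹ (cst e)) - tL α (cut V₀ a₁)) := by
      have hxs : ({x} : Set X) ∩ V₀ = {x} := by
        rw [inter_eq_left, singleton_subset_iff]; exact hxV₀
      rw [← hxs] at hν ⊢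
      refine NV.congr_on hV₀ ?_ hν
      intro s hs
      simp only [Pi.sub_apply]
      rw [cut_of _ hs, tL_cut α _ hs]
    obtain ⟨K, hK⟩ : ∃ K : E → TS X → E, ∀ κ, K κ = cut V₀ (Tm (bL β)⁻¹ (cst κ)) :=
      ⟨_, fun _ => rfl⟩
    simp only [← hK] at hKx hflat hν'
    obtain ⟨φ₁, hφ₁⟩ : ∃ φ₁, φ₁ = φ - Phx hα hP (cut V₀ a₁) := ⟨_, rfl⟩
    have h6 : Phx hα hP (K e) - (Totx R α hα).bd E 0 φ₁ ∈ (Totx R α hα).Z E ∅ 0 {x} := by
      have h7 := Submodule.sub_mem _ h2 (Phx_Z hα hP hν')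
      have e7 : Phx hα hP (K e) - (Totx R α hα).bd E 0 φ₁ =
          Phx hα hP a - (Totx R α hα).bd E 0 φ -
            Phx hα hP (a - K e - tL α (cut V₀ a₁)) := by
        apply Subtype.ext
        apply LinearMap.ext
        intro b
        rw [hφ₁]
        change P (K e) b - (φ.1 (tF α b) - P (cut V₀ a₁) (tF α b)) =
          P a b - φ.1 (tF α b) - P (a - K e - tL α (cut V₀ a₁)) b
        rw [hP.adj α _ b ha₁, map_sub, map_sub, LinearMap.sub_apply, LinearMap.sub_apply]
        abel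
      rw [e7]
      exact h7
    obtain ⟨U₃, hU₃, hxU₃, h8⟩ := h6
    rw [singleton_subset_iff] at hxU₃
    have h8' : ∀ b : TS X → R, NV U₃ᶜ b → P (K e) b = φ₁.1 (tF α b) := by
      intro b hb
      have := h8 b (by rw [union_empty]; exact hb)
      exact sub_eq_zero.1 this
    obtain ⟨V, hV, hxV, hsub⟩ := hgeo.basis x ((U ∩ V₀) ∩ U₃) ((hU.inter hV₀).inter hU₃)
      ⟨⟨hxU, hxV₀⟩, hxU₃⟩
    have hVo := hgeo.isOpen V hV
    have hVU : V ⊆ U := fun y hy => (hsub hy).1.1
    have hVV₀ : V ⊆ V₀ := fun y hy => (hsub hy).1.2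
    have hVU₃ : V ⊆ U₃ := fun y hy => (hsub hy).2
    have hVB : V \ B = V := by
      ext y
      exact ⟨fun h => h.1, fun h => ⟨h, fun hyB =>
        (Set.disjoint_left.1 hV₀B) (subset_closure (hVV₀ h)) hyB⟩⟩
    have hw : USph univ Vᶜ (m + 1) (o V) := by
      have := ho.1 V hV
      rwa [hVB] at this
    have hWc : NV univ (tF α (Wg β (o V) : TS X → R)) := Wg_closed hα hβ hVo hVU hw
    have hWN : NV Vᶜ (Wg β (o V) : TS X → R) := Wg_NV β hw
    have hPK : ∀ κ, P (K κ) (Wg β (o V)) = κ := by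
      intro κ
      rw [hK]
      exact pair_flat hP hval hV hV₀ hVV₀ hw κ
    have he : e = 0 := by
      rw [← hPK e, h8' _ (hWN.mono (compl_subset_compl.2 hVU₃))]
      exact φ₁.2 _ hWc
    have hK0 : K 0 = 0 := by
      rw [hK]
      funext s
      by_cases hs : range s.2 ⊆ V₀
      · rw [cut_of _ hs]
        change _ • cst (0 : E) s = 0
        have : (cst (0 : E) : TS X → E) = 0 := by
          rw [cst]
          exact inc_zero
        rw [this]
        exact smul_zero _
      · exact if_neg hs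
    rw [he, hK0] at h8'
    obtain ⟨κ, hκ⟩ : ∃ κ, κ = φ₁.1 (Wg β (o V)) := ⟨_, rfl⟩
    obtain ⟨ψ, hψ⟩ := (Totx R α hα).ext_bd (k := 0) (L := Vᶜ) (φ₁ - Phx hα hP (K κ)) (by
      intro b hb hdb
      obtain ⟨r, b', hb', hν3⟩ := spF hα hβ hVo hVU hw b hb hdb
      have e1 : (φ₁ - Phx hα hP (K κ)).1 (b - r • Wg β (o V) - tF α b') = 0 :=
        (φ₁ - Phx hα hP (K κ)).2 _ hν3
      have e2 : (φ₁ - Phx hα hP (K κ)).1 (Wg β (o V)) = 0 := by
        change φ₁.1 (Wg β (o V)) - P (K κ) (Wg β (o V)) = 0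
        rw [hPK, hκ, sub_self]
      have e3 : (φ₁ - Phx hα hP (K κ)).1 (tF α b') = 0 := by
        change φ₁.1 (tF α b') - P (K κ) (tF α b') = 0
        have h9 := h8' b' (hb'.mono (compl_subset_compl.2 hVU₃))
        rw [map_zero, LinearMap.zero_apply] at h9
        rw [← h9, hP.adj α _ b' (hKx κ), zero_sub, neg_eq_zero]
        refine hP.supp (K := V) (L := Vᶜ) (NV.of_zero hVo fun s hs => ?_) hb' (union_compl_self V)
        exact hflat κ s (hs.trans (subset_inter hVU hVV₀))
      rw [map_sub, map_sub, map_smul, e2, e3, smul_zero, sub_zero, sub_zero] at e1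
      exact e1)
    refine ⟨cut V₀ a₁ + K κ, -ψ, ha₁.add (hKx κ), ?_, V, hVo, singleton_subset_iff.2 hxV, ?_⟩
    · rw [he, hK0, sub_zero] at hν'
      have h10 : NV {x} (tL α (K κ)) := by
        intro y hy
        rw [mem_singleton_iff.1 hy]
        exact ⟨U ∩ V₀, hU.inter hV₀, ⟨hxU, hxV₀⟩, hflat κ⟩
      have h11 := hν'.sub h10
      rw [tL_add]
      rwa [sub_sub] at h11
    · intro c hc
      rw [union_empty] at hc
      have h12 := hψ c hc
      change φ₁.1 c - P (K κ) c - ψ.1 (tF α c) = 0 at h12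
      change φ.1 c - (P (cut V₀ a₁ + K κ) c - (-ψ.1) (tF α c)) = 0
      rw [hφ₁] at h12
      change φ.1 c - P (cut V₀ a₁) c - P (K κ) c - ψ.1 (tF α c) = 0 at h12
      rw [map_add, LinearMap.add_apply, LinearMap.neg_apply, ← h12]
      abel

end

theorem dL_zsmul' {X : Type} [TopologicalSpace X] {R A : Type} [CommRing R] [AddCommGroup A]
    [Module R A] (α : Sing X 1 → Rˣ) {n : ℕ} (k : ℤ) (c : Sing X n → A) :
    dL α (k • c) = k • dL α c :=
  map_zsmul (dLₗ (A := A) α n) k c

theorem DUAL : S_DUAL := by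
  intro X _ _ _ _ m B Bx o R E _ _ _ _ I α hB hgeo hloc ho hI hα
  obtain ⟨P, hform, hadj⟩ := CUP.2 X R E m I B hI.clos
  have hP : PairD I B P := ⟨hform, hadj, hI.kill⟩
  have hgood : (conex hα hB hP).Good 0 univ := by
    refine boot' _ hloc fun x => ?_
    rintro k - ⟨⟨a, haB⟩, φ⟩ ⟨h1, h2⟩
    obtain ⟨a', ψ, h3, h4, h5⟩ := conex_acy hα hB hP hI.val hgeo ho x a haB φ h1 h2
    exact ⟨(⟨a', h3⟩, ψ), h4, h5⟩
  obtain ⟨ss1, ss2, -, -⟩ := SS X R R α hα
  obtain ⟨-, ssE, -, -⟩ := SS X R E α hα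
  refine ⟨?_, ?_⟩
  · intro p q h a haN hda hab
    have hPa : ∀ b : TS X → R, P (inc a) b = (-1 : ℤ) ^ (p * (p + 1) / 2) • I (cup h a (cp q b)) := by
      intro b
      rw [hform, Finset.sum_eq_single (⟨p, by omega⟩ : Fin (m + 2))]
      · congr 2
        have hq : m + 1 - p = q := by omega
        have : cup (show p + (m + 1 - p) = m + 1 by omega) (cp p (inc a)) (cp (m + 1 - p) b) =
            cup h (cp p (inc a)) (cp q b) := cup_cg rfl hq _ _ _ _
        refine this.trans ?_
        rw [cp_inc]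
      · intro p' _ hne
        have h1 : cp (p' : ℕ) (inc a) = 0 := by
          apply cp_inc_ne
          intro h2
          exact hne (Fin.ext h2)
        rw [h1, cup_zero_left, map_zero, smul_zero]
      · intro h1
        exact absurd (Finset.mem_univ _) h1
    obtain ⟨φ, hφ⟩ := ext_inj (LinearMap.coprod (tFₗ (A := R) α) (NVs R R (univ : Set X)).subtype)
      ((P (inc a)).comp (LinearMap.fst R _ (NVs R R (univ : Set X)))) (by
        rintro ⟨b, ⟨ν, hν⟩⟩ h1
        change tF α b + ν = 0 at h1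
        change P (inc a) b = 0
        have h2 : tF α ν = 0 := by
          have : ν = -tF α b := eq_neg_of_add_eq_zero_right h1
          rw [this, tF_neg, tF_tF hα, neg_zero]
        obtain ⟨ν', hν', h3⟩ := ss1 ν hν h2
        have h4 : tF α (b + ν') = 0 := by rw [tF_add, h3, h1]
        have h5 : P (inc a) (b + ν') = 0 := by
          rw [hPa, hab _ (by rw [← cp_tF_succ, h4, cp_zero]), smul_zero]
        have h6 : P (inc a) ν' = 0 := hP.supp (K := ∅) (NV.empty _) hν' (empty_union _)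
        rw [map_add, h6, add_zero] at h5
        exact h5)
    have hφN : ∀ c : TS X → R, NV univ c → φ c = 0 := by
      intro c hc
      have := hφ (0, ⟨c, hc⟩)
      change φ (tF α 0 + c) = P (inc a) 0 at this
      rwa [tF_zero, zero_add, map_zero] at this
    have hφt : ∀ b : TS X → R, φ (tF α b) = P (inc a) b := by
      intro b
      have := hφ (b, 0)
      change φ (tF α b + 0) = P (inc a) b at this
      rwa [add_zero] at this
    obtain ⟨⟨⟨a₂, ha₂⟩, ψ⟩, h1, h2⟩ := hgood univ subset_rfl isClosed_univ 0 le_rfl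
      (⟨inc a, NV.inc haN⟩, ⟨φ, hφN⟩) (by
        refine ⟨?_, ?_⟩
        · change NV univ (tL α (inc a))
          rw [tL_inc, hda, inc_zero]
          exact NV.zero
        · have : Phx hα hP (inc a) - (Totx R α hα).bd E 0 ⟨φ, hφN⟩ = 0 := by
            apply Subtype.ext
            apply LinearMap.ext
            intro b
            change P (inc a) b - φ (tF α b) = 0
            rw [hφt, sub_self]
          change Phx hα hP (inc a) - (Totx R α hα).bd E 0 ⟨φ, hφN⟩ ∈ _
          rw [this]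
          exact Submodule.zero_mem _)
    have h1' : NV univ (inc a - tL α a₂) := h1
    obtain ⟨ν', hν', h3⟩ := ssE _ h1' (by
      rw [tL_sub, tL_tL hα, tL_inc, hda, inc_zero, sub_zero])
    refine ⟨a₂ + ν', NV.add ha₂ (hν'.mono (subset_univ _)), ?_⟩
    rw [tL_add, h3]
    abel
  · intro q φ hφ
    obtain ⟨φh, hφh⟩ := ext_inj (LinearMap.coprod (LinearMap.ker (tFₗ (A := R) α)).subtype
      (NVs R R (univ : Set X)).subtype)
      ((φ.comp (⟨⟨cp q, fun a b => rfl⟩, fun r a => rfl⟩ : (TS X → R) →ₗ[R] (Sing X q → R))).comp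
        ((LinearMap.ker (tFₗ (A := R) α)).subtype.comp
          (LinearMap.fst R _ (NVs R R (univ : Set X))))) (by
        rintro ⟨⟨b, hb⟩, ⟨ν, hν⟩⟩ h1
        change b + ν = 0 at h1
        change φ (cp q b) = 0
        have hb' : tF α b = 0 := hb
        have h2 : ν = -b := eq_neg_of_add_eq_zero_right h1
        obtain ⟨ν', hν', h3⟩ := ss1 ν hν (by rw [h2, tF_neg, hb', neg_zero])
        have h4 : b = tF α (-ν') := by
          rw [tF_neg, h3, h2, neg_neg]
        rw [h4]
        exact hφ _)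
    have k1 : ∀ b : TS X → R, tF α b = 0 → φh b = φ (cp q b) := by
      intro b hb
      have := hφh (⟨b, hb⟩, 0)
      change φh (b + 0) = φ (cp q b) at this
      rwa [add_zero] at this
    have k2 : ∀ c : TS X → R, NV univ c → φh c = 0 := by
      intro c hc
      have := hφh (0, ⟨c, hc⟩)
      change φh (0 + c) = φ (cp q 0) at this
      rwa [zero_add, cp_zero, map_zero] at this
    obtain ⟨⟨⟨a₂, ha₂⟩, ψ⟩, h1, h2⟩ := hgood univ subset_rfl isClosed_univ 0 le_rfl
      (⟨0, NV.zero⟩, ⟨φh, k2⟩) (by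
        refine ⟨?_, ?_⟩
        · change NV univ (tL α 0)
          rw [tL_zero]
          exact NV.zero
        · have : Phx hα hP 0 - (Totx R α hα).bd E 0 ⟨φh, k2⟩ = 0 := by
            apply Subtype.ext
            apply LinearMap.ext
            intro b
            change P 0 b - φh (tF α b) = 0
            rw [k1 _ (tF_tF hα b), hφ, map_zero, LinearMap.zero_apply, sub_zero]
          change Phx hα hP 0 - (Totx R α hα).bd E 0 ⟨φh, k2⟩ ∈ _
          rw [this]
          exact Submodule.zero_mem _)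
    have h1' : NV univ (0 - tL α a₂) := h1
    have h2' : ∀ b : TS X → R, tF α b = 0 → φ (cp q b) = P a₂ b := by
      intro b hb
      have h3 := (Totx R α hα).Z_univ h2 b (by exact NV.empty b)
      change φh b - (P a₂ b - ψ.1 (tF α b)) = 0 at h3
      rw [hb, map_zero, sub_zero, k1 b hb, sub_eq_zero] at h3
      exact h3
    rw [zero_sub] at h1'
    obtain ⟨ν', hν', h3⟩ := ssE (tL α a₂) (by
      have := h1'.neg
      rwa [neg_neg] at this) (tL_tL hα a₂)
    have h4 : tL α (a₂ - ν') = 0 := by rw [tL_sub, h3, sub_self]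
    have h5 : NV B (a₂ - ν') := NV.sub ha₂ (hν'.mono (subset_univ _))
    have h6 : ∀ b : TS X → R, tF α b = 0 → φ (cp q b) = P (a₂ - ν') b := by
      intro b hb
      rw [map_sub, LinearMap.sub_apply, hP.supp hν' (NV.empty b) (univ_union _), sub_zero]
      exact h2' b hb
    by_cases hq : q ≤ m + 1
    · right
      refine ⟨m + 1 - q, by omega, (-1 : ℤ) ^ ((m + 1 - q) * ((m + 1 - q) + 1) / 2) •
        cp (m + 1 - q) (a₂ - ν'), ?_, ?_, ?_⟩
      · have := (h5.cp (m + 1 - q)).smul (R := ℤ) ((-1 : ℤ) ^ ((m + 1 - q) * ((m + 1 - q) + 1) / 2))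
        exact this
      · have h7 : dL α (cp (m + 1 - q) (a₂ - ν')) = 0 := by
          rw [← cp_tL_succ, h4, cp_zero]
        have h8 := dL_zsmul' α ((-1 : ℤ) ^ ((m + 1 - q) * ((m + 1 - q) + 1) / 2))
          (cp (m + 1 - q) (a₂ - ν'))
        rw [h8, h7, smul_zero]
      · intro b hb
        have h7 := h6 (inc b) (by rw [tF_inc, hb, inc_zero])
        rw [cp_inc] at h7
        rw [h7, hform, Finset.sum_eq_single (⟨m + 1 - q, by omega⟩ : Fin (m + 2))]
        · have hq' : m + 1 - (m + 1 - q) = q := by omega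
          have e1 : cup (show (m + 1 - q) + (m + 1 - (m + 1 - q)) = m + 1 by omega)
              (cp (m + 1 - q) (a₂ - ν')) (cp (m + 1 - (m + 1 - q)) (inc b)) =
              cup (show (m + 1 - q) + q = m + 1 by omega)
              (cp (m + 1 - q) (a₂ - ν')) (cp q (inc b)) := cup_cg rfl hq' _ _ _ _
          have e2 : cup (show (m + 1 - q) + q = m + 1 by omega)
              ((-1 : ℤ) ^ ((m + 1 - q) * ((m + 1 - q) + 1) / 2) • cp (m + 1 - q) (a₂ - ν')) b =
              (-1 : ℤ) ^ ((m + 1 - q) * ((m + 1 - q) + 1) / 2) •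
                cup (show (m + 1 - q) + q = m + 1 by omega) (cp (m + 1 - q) (a₂ - ν')) b := by
            funext σ
            exact smul_comm (b (sub (back (show (m + 1 - q) + q = m + 1 by omega)) σ))
              ((-1 : ℤ) ^ ((m + 1 - q) * ((m + 1 - q) + 1) / 2))
              (cp (m + 1 - q) (a₂ - ν') (sub (front (show (m + 1 - q) + q = m + 1 by omega)) σ))
          rw [e2, map_zsmul]
          congr 2
          refine e1.trans ?_
          rw [cp_inc]
        · intro p' _ hne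
          have h1 : cp (m + 1 - (p' : ℕ)) (inc b) = 0 := by
            apply cp_inc_ne
            intro h2
            exact hne (Fin.ext (by have := p'.2; simp only; omega))
          rw [h1, cup_zero_right, map_zero, smul_zero]
        · intro h1
          exact absurd (Finset.mem_univ _) h1
    · left
      refine ⟨by omega, fun b hb => ?_⟩
      have h7 := h6 (inc b) (by rw [tF_inc, hb, inc_zero])
      rw [cp_inc] at h7
      rw [h7, hform]
      refine Finset.sum_eq_zero fun p _ => ?_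
      rw [cp_inc_ne (by omega), cup_zero_right, map_zero, smul_zero]

end Run7.h841.TM
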