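import Pool.Agent.Run7.h841.TM.Iface
import Pool.Agent.Run7.h841.TM.Deg

/-! The piece SS: twisted small simplices. -/

set_option autoImplicit false
set_option linter.unusedVariables false
set_option linter.unusedSectionVars false

namespace Run7.h841.TM

open Set Topology Finsupp
open Pool.Agent.Helper922.HB.Sc (Sing sface vert aff Dl LS lface lbd sd TL lpush smallSet mm
  supported_map single_mem_supported' sface_comp_aff sface_eq aff_comp aff_vert map_eq_aff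
  lpush_single lpush_vert lpush_TL lpush_sd bd_single lbd_TL lbd_sd sd_iter_mesh vert_mem_Wset
  mm_spec mm_face mm_small map_dist_le Wset)
open Pool.Agent.Helper158.PD (TS sub front back sub_sub_lz sface_sub_lz range_sface range_sub)

section

variable {X : Type} [TopologicalSpace X] {R : Type} [CommRing R] {A : Type} [AddCommGroup A]
  [Module R A]

theorem sub_aff {n r m : ℕ} (σ : Sing X n) (a : LS n r) (f : Fin (m + 1) → Fin (r + 1)) :
    sub f (σ.comp (aff a)) = σ.comp (aff (a ∘ f)) := by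
  rw [sub, map_eq_aff, ContinuousMap.comp_assoc, aff_comp]
  congr 2
  funext i
  exact aff_vert a (f i)

theorem sub_eq_aff {n m : ℕ} (σ : Sing X n) (f : Fin (m + 1) → Fin (n + 1)) :
    sub f σ = σ.comp (aff (fun i => vert n (f i))) := by
  rw [sub, map_eq_aff]

theorem al_tri {α : Sing X 1 → Rˣ} (hα : IsTw α) {n : ℕ} (σ : Sing X n) (x y z : Dl n) :
    α (σ.comp (aff ![x, z])) = α (σ.comp (aff ![x, y])) * α (σ.comp (aff ![y, z])) := by
  have h := hα (σ.comp (aff (![x, y, z] : LS n 2)))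
  rw [sface_comp_aff, sface_comp_aff, sface_comp_aff] at h
  have e0 : lface n 1 0 (![x, y, z] : LS n 2) = ![y, z] := by
    funext k; fin_cases k <;> rfl
  have e1 : lface n 1 1 (![x, y, z] : LS n 2) = ![x, z] := by
    funext k; fin_cases k <;> rfl
  have e2 : lface n 1 2 (![x, y, z] : LS n 2) = ![x, y] := by
    funext k; fin_cases k <;> rfl
  rw [e0, e1, e2] at h
  exact h

theorem al_cst {α : Sing X 1 → Rˣ} (hα : IsTw α) {n : ℕ} (σ : Sing X n) (x : Dl n) :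
    α (σ.comp (aff ![x, x])) = 1 := by
  have h := al_tri hα σ x x x
  exact mul_eq_left.1 h.symm

/-- the pulled back, untwisted cochain on affine simplices -/
noncomputable def pbc (α : Sing X 1 → Rˣ) (c : TS X → A) {n : ℕ} (σ : Sing X n) (k : ℕ)
    (a : LS n k) : A :=
  (α (σ.comp (aff ![vert n 0, a 0])) : R) • c ⟨k, σ.comp (aff a)⟩

theorem pbc_tF {α : Sing X 1 → Rˣ} (hα : IsTw α) (c : TS X → A) {n : ℕ} (σ : Sing X n) (k : ℕ)
    (a : LS n (k + 1)) : pbc α (tF α c) σ (k + 1) a =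
      ∑ i : Fin (k + 2), (-1 : ℤ) ^ (i : ℕ) • pbc α c σ k (lface n k i a) := by
  have h1 : tF α c ⟨k + 1, σ.comp (aff a)⟩ = dF α (cp k c) (σ.comp (aff a)) := rfl
  rw [pbc, h1, dF_eq hα, Finset.smul_sum]
  refine Finset.sum_congr rfl fun i _ => ?_
  rw [smul_comm, smul_smul, ← Units.val_mul, sface_comp_aff, sub_aff]
  congr 2
  have e : (a ∘ ![0, i.succAbove 0] : LS n 1) = ![a 0, lface n k i a 0] := by
    funext l
    fin_cases l <;> rfl
  rw [e, ← al_tri hα]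

/-- evaluation -/
noncomputable abbrev ev {S : Type} (f : S → A) : (S →₀ ℤ) →ₗ[ℤ] A := Finsupp.linearCombination ℤ f

theorem ev_single {S : Type} (f : S → A) (s : S) : ev f (single s 1) = f s := by
  rw [ev, linearCombination_single, one_smul]

theorem ev_tF {α : Sing X 1 → Rˣ} (hα : IsTw α) (c : TS X → A) {n : ℕ} (σ : Sing X n) (k : ℕ)
    (z : LS n (k + 1) →₀ ℤ) : ev (pbc α (tF α c) σ (k + 1)) z = ev (pbc α c σ k) (lbd n k z) := by
  have : ev (pbc α (tF α c) σ (k + 1)) = (ev (pbc α c σ k)).comp (lbd n k) := by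
    apply Finsupp.lhom_ext'
    intro a
    apply LinearMap.ext_ring
    simp only [LinearMap.comp_apply, lsingle_apply]
    rw [ev_single, pbc_tF hα, lbd, bd_single, map_sum]
    refine Finset.sum_congr rfl fun i _ => ?_
    rw [map_smul, ev_single]
  exact LinearMap.congr_fun this z

/-- the `j`-th face of the standard simplex -/
noncomputable def fc (k : ℕ) (j : Fin (k + 2)) : LS (k + 1) k := fun i => vert (k + 1) (j.succAbove i)

theorem ev_face {α : Sing X 1 → Rˣ} (hα : IsTw α) (c : TS X → A) {n : ℕ} (σ : Sing X (n + 1))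
    (i : Fin (n + 2)) (k : ℕ) (z : LS n k →₀ ℤ) :
    (α (sub (![0, i.succAbove 0] : Fin 2 → Fin (n + 1 + 1)) σ) : R) •
      ev (pbc α c (sface n i σ) k) z = ev (pbc α c σ k) (lpush (fc n i) k z) := by
  induction z using Finsupp.induction_linear with
  | zero => rw [map_zero, map_zero, map_zero, smul_zero]
  | add z w hz hw => rw [map_add, map_add, map_add, smul_add, hz, hw]
  | single a m =>
    have h0 : (single a m : LS n k →₀ ℤ) = m • single a 1 := by simp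
    rw [h0, map_smul, map_smul, map_smul, smul_comm]
    congr 1
    rw [lpush_single, ev_single, ev_single, pbc, pbc, smul_smul, ← Units.val_mul]
    have e1 : (sface n i σ).comp (aff a) = σ.comp (aff (fun l => aff (fc n i) (a l))) := by
      rw [sface_eq, ContinuousMap.comp_assoc, aff_comp]
      rfl
    have e2 : (sface n i σ).comp (aff ![vert n 0, a 0]) =
        σ.comp (aff ![vert (n + 1) (i.succAbove 0), aff (fc n i) (a 0)]) := by
      rw [sface_eq, ContinuousMap.comp_assoc, aff_comp]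
      congr 2
      funext l
      fin_cases l
      · exact aff_vert _ _
      · rfl
    have e3 : sub (![0, i.succAbove 0] : Fin 2 → Fin (n + 1 + 1)) σ =
        σ.comp (aff ![vert (n + 1) 0, vert (n + 1) (i.succAbove 0)]) := by
      rw [sub_eq_aff]
      congr 2
      funext l
      fin_cases l <;> rfl
    rw [e1, e2, e3, ← al_tri hα]

variable (𝒞 : Set (Set X))

noncomputable def dz {k : ℕ} (σ : Sing X k) : LS k (k + 1) →₀ ℤ :=
  ∑ i ∈ Finset.range (mm 𝒞 σ), TL k k ((⇑(sd k k))^[i] (single (vert k) 1))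

noncomputable def rz : ∀ {k : ℕ} (σ : Sing X k), LS k k →₀ ℤ
  | 0, σ => single (vert 0) 1
  | k + 1, σ => single (vert (k + 1)) 1 - lbd (k + 1) (k + 1) (dz 𝒞 σ) -
      ∑ j : Fin (k + 2), (-1 : ℤ) ^ (j : ℕ) • lpush (fc k j) (k + 1) (dz 𝒞 (sface k j σ))

/-- the twisted homotopy operator -/
noncomputable def Dop (α : Sing X 1 → Rˣ) (c : TS X → A) : TS X → A :=
  fun s => ev (pbc α c s.2 (s.1 + 1)) (dz 𝒞 s.2)

/-- the twisted subdivision operator -/
noncomputable def Rop (α : Sing X 1 → Rˣ) (c : TS X → A) : TS X → A :=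
  fun s => ev (pbc α c s.2 s.1) (rz 𝒞 s.2)

theorem pbc_vert {α : Sing X 1 → Rˣ} (hα : IsTw α) (c : TS X → A) (s : TS X) :
    pbc α c s.2 s.1 (vert s.1) = c s := by
  have h : (vert s.1 : LS s.1 s.1) 0 = vert s.1 0 := rfl
  have e : s.2.comp (aff (vert s.1)) = s.2 := by
    rw [Pool.Agent.Helper922.HB.Sc.aff_vert_eq]
    exact ContinuousMap.comp_id _
  rw [pbc, al_cst hα, Units.val_one, one_smul, e]

theorem dz_zero (σ : Sing X 0) : dz 𝒞 σ = 0 := by
  rw [dz]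
  exact Finset.sum_eq_zero fun i _ => rfl

theorem htpy {α : Sing X 1 → Rˣ} (hα : IsTw α) (c : TS X → A) :
    c = Rop 𝒞 α c + Dop 𝒞 α (tF α c) + tF α (Dop 𝒞 α c) := by
  funext ⟨k, σ⟩
  simp only [Pi.add_apply]
  cases k with
  | zero =>
    have h1 : Dop 𝒞 α (tF α c) ⟨0, σ⟩ = 0 := by
      change ev _ (dz 𝒞 σ) = 0
      rw [dz_zero, map_zero]
    have h2 : tF α (Dop 𝒞 α c) ⟨0, σ⟩ = 0 := rfl
    have h3 : Rop 𝒞 α c ⟨0, σ⟩ = c ⟨0, σ⟩ := by
      change ev (pbc α c σ 0) (single (vert 0) 1) = _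
      rw [ev_single]
      exact pbc_vert hα c ⟨0, σ⟩
    rw [h1, h2, h3, add_zero, add_zero]
  | succ k =>
    have h1 : Dop 𝒞 α (tF α c) ⟨k + 1, σ⟩ =
        ev (pbc α c σ (k + 1)) (lbd (k + 1) (k + 1) (dz 𝒞 σ)) := ev_tF hα c σ (k + 1) _
    have h2 : tF α (Dop 𝒞 α c) ⟨k + 1, σ⟩ = ∑ j : Fin (k + 2), (-1 : ℤ) ^ (j : ℕ) •
        ev (pbc α c σ (k + 1)) (lpush (fc k j) (k + 1) (dz 𝒞 (sface k j σ))) := by
      change dF α (cp k (Dop 𝒞 α c)) σ = _
      rw [dF_eq hα]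
      refine Finset.sum_congr rfl fun j _ => ?_
      rw [← ev_face hα]
      rfl
    have h3 : Rop 𝒞 α c ⟨k + 1, σ⟩ = ev (pbc α c σ (k + 1)) (single (vert (k + 1)) 1) -
        ev (pbc α c σ (k + 1)) (lbd (k + 1) (k + 1) (dz 𝒞 σ)) -
        ∑ j : Fin (k + 2), (-1 : ℤ) ^ (j : ℕ) •
        ev (pbc α c σ (k + 1)) (lpush (fc k j) (k + 1) (dz 𝒞 (sface k j σ))) := by
      change ev (pbc α c σ (k + 1)) (rz 𝒞 σ) = _
      rw [rz, map_sub, map_sub, map_sum]
      congr 1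
      refine Finset.sum_congr rfl fun j _ => ?_
      rw [map_smul]
    rw [h1, h2, h3, ev_single, pbc_vert hα c ⟨k + 1, σ⟩]
    abel

theorem tF_Rop {α : Sing X 1 → Rˣ} (hα : IsTw α) (c : TS X → A) :
    tF α (Rop 𝒞 α c) = Rop 𝒞 α (tF α c) := by
  have h1 := congrArg (tF α) (htpy 𝒞 hα c)
  have h2 := htpy 𝒞 hα (tF α c)
  rw [tF_add, tF_add, tF_tF hα, add_zero] at h1
  rw [tF_tF hα] at h2
  have h3 : Dop 𝒞 α (0 : TS X → A) = 0 := by
    funext s
    change ev (pbc α 0 s.2 (s.1 + 1)) _ = 0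
    have : pbc α (0 : TS X → A) s.2 (s.1 + 1) = 0 := by
      funext a
      exact smul_zero _
    rw [this, ev, Finsupp.linearCombination_apply, Finsupp.sum]
    exact Finset.sum_eq_zero fun a _ => smul_zero _
  rw [h3, add_zero] at h2
  exact add_right_cancel (h1.symm.trans h2)

/-- affine simplices which are small after composition with `σ` -/
def SmL {n : ℕ} (σ : Sing X n) (k : ℕ) : Set (LS n k) := {a | σ.comp (aff a) ∈ smallSet 𝒞 k}

theorem smL_comp {n m k : ℕ} {σ : Sing X n} {a : LS n m} (ha : a ∈ SmL 𝒞 σ m) (b : LS m k) :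
    (fun l => aff a (b l)) ∈ SmL 𝒞 σ k := by
  obtain ⟨C, hC, h⟩ := ha
  refine ⟨C, hC, ?_⟩
  rw [← aff_comp, ← ContinuousMap.comp_assoc]
  rintro _ ⟨x, rfl⟩
  exact h ⟨_, rfl⟩

theorem lpush_small {n m : ℕ} {σ : Sing X n} {a : LS n m} (ha : a ∈ SmL 𝒞 σ m) (k : ℕ)
    (z : LS m k →₀ ℤ) : lpush a k z ∈ Finsupp.supported ℤ ℤ (SmL 𝒞 σ k) := by
  have hz : z ∈ Finsupp.supported ℤ ℤ (Set.univ : Set (LS m k)) := by simp
  refine supported_map _ (lpush a k) _ ?_ z hz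
  intro b _
  rw [lpush_single]
  exact single_mem_supported' (smL_comp 𝒞 ha b)

theorem TL_small {n k : ℕ} (σ : Sing X n) (z : LS n k →₀ ℤ)
    (hz : z ∈ Finsupp.supported ℤ ℤ (SmL 𝒞 σ k)) :
    TL n k z ∈ Finsupp.supported ℤ ℤ (SmL 𝒞 σ (k + 1)) := by
  refine supported_map _ (TL n k) _ ?_ z hz
  intro a ha
  rw [← lpush_vert, ← lpush_TL]
  exact lpush_small 𝒞 ha _ _

theorem sd_small {n k : ℕ} (σ : Sing X n) (z : LS n k →₀ ℤ)
    (hz : z ∈ Finsupp.supported ℤ ℤ (SmL 𝒞 σ k)) :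
    sd n k z ∈ Finsupp.supported ℤ ℤ (SmL 𝒞 σ k) := by
  refine supported_map _ (sd n k) _ ?_ z hz
  intro a ha
  rw [← lpush_vert, ← lpush_sd]
  exact lpush_small 𝒞 ha _ _

theorem sd_iter_small {n k : ℕ} (σ : Sing X n) (m : ℕ) (z : LS n k →₀ ℤ)
    (hz : z ∈ Finsupp.supported ℤ ℤ (SmL 𝒞 σ k)) :
    (⇑(sd n k))^[m] z ∈ Finsupp.supported ℤ ℤ (SmL 𝒞 σ k) := by
  induction m with
  | zero => exact hz
  | succ m ih =>
    rw [Function.iterate_succ_apply']
    exact sd_small 𝒞 σ _ ih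

theorem lpush_sd_iter {m n : ℕ} (c : LS n m) (k i : ℕ) (z : LS m k →₀ ℤ) :
    lpush c k ((⇑(sd m k))^[i] z) = (⇑(sd n k))^[i] (lpush c k z) := by
  induction i with
  | zero => rfl
  | succ i ih =>
    rw [Function.iterate_succ_apply', Function.iterate_succ_apply', lpush_sd, ih]

theorem lbd_sd_iter (n k i : ℕ) (z : LS n (k + 1) →₀ ℤ) :
    lbd n k ((⇑(sd n (k + 1)))^[i] z) = (⇑(sd n k))^[i] (lbd n k z) := by
  induction i with
  | zero => rfl
  | succ i ih =>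
    rw [Function.iterate_succ_apply', Function.iterate_succ_apply', lbd_sd, ih]

theorem sd_iter_sum (n k m : ℕ) {ι : Type} (s : Finset ι) (c : ι → ℤ) (f : ι → (LS n k →₀ ℤ)) :
    (⇑(sd n k))^[m] (∑ i ∈ s, c i • f i) = ∑ i ∈ s, c i • (⇑(sd n k))^[m] (f i) := by
  induction m with
  | zero => rfl
  | succ m ih =>
    simp only [Function.iterate_succ_apply', ih, map_sum, map_smul]

variable {𝒞}

theorem vert_iter_small (hopen : ∀ C ∈ 𝒞, IsOpen C) (hcov : ∀ x : X, ∃ C ∈ 𝒞, x ∈ C) {k : ℕ}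
    (σ : Sing X k) (m : ℕ) (h : mm 𝒞 σ ≤ m) :
    (⇑(sd k k))^[m] (single (vert k) 1) ∈ Finsupp.supported ℤ ℤ (SmL 𝒞 σ k) := by
  obtain ⟨l, rfl⟩ := Nat.exists_eq_add_of_le h
  rw [add_comm, Function.iterate_add_apply]
  apply sd_iter_small 𝒞 σ l
  have h1 := sd_iter_mesh k k 1 zero_le_one (mm 𝒞 σ) (single (vert k) 1)
    (single_mem_supported' (vert_mem_Wset k))
  refine Finsupp.supported_mono ?_ h1
  intro a ha
  obtain ⟨C, hC, hsub⟩ := mm_spec 𝒞 hopen hcov σ (Set.range (aff a)) (by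
    rintro _ ⟨x, rfl⟩ _ ⟨y, rfl⟩
    rw [mul_one] at ha
    exact map_dist_le a _ ha x y)
  refine ⟨C, hC, ?_⟩
  rintro _ ⟨x, rfl⟩
  exact hsub ⟨_, ⟨x, rfl⟩, rfl⟩

theorem face_push_small {k l : ℕ} (σ : Sing X (k + 1)) (j : Fin (k + 2)) (z : LS k l →₀ ℤ)
    (hz : z ∈ Finsupp.supported ℤ ℤ (SmL 𝒞 (sface k j σ) l)) :
    lpush (fc k j) l z ∈ Finsupp.supported ℤ ℤ (SmL 𝒞 σ l) := by
  refine supported_map _ (lpush (fc k j) l) _ ?_ z hz
  rintro a ⟨C, hC, h⟩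
  rw [lpush_single]
  apply single_mem_supported'
  refine ⟨C, hC, ?_⟩
  rw [← aff_comp, ← ContinuousMap.comp_assoc]
  rw [sface_eq] at h
  exact h

theorem rz_small (hopen : ∀ C ∈ 𝒞, IsOpen C) (hcov : ∀ x : X, ∃ C ∈ 𝒞, x ∈ C) {k : ℕ}
    (σ : Sing X k) : rz 𝒞 σ ∈ Finsupp.supported ℤ ℤ (SmL 𝒞 σ k) := by
  cases k with
  | zero =>
    change single (vert 0) 1 ∈ _
    apply single_mem_supported'
    obtain ⟨C, hC, hx⟩ := hcov (σ (vert 0 0))
    refine ⟨C, hC, ?_⟩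
    rintro _ ⟨x, rfl⟩
    have : ∀ y : stdSimplex ℝ (Fin 1), y = vert 0 0 := fun y =>
      Subsingleton.elim (α := stdSimplex ℝ (Fin 1)) _ _
    change σ (aff (vert 0) x) ∈ C
    rw [this (aff (vert 0) x)]
    exact hx
  | succ k =>
    rw [rz]
    have h1 : ∀ i, lbd (k + 1) (k + 1) (TL (k + 1) (k + 1)
          ((⇑(sd (k + 1) (k + 1)))^[i] (single (vert (k + 1)) 1))) =
        (⇑(sd (k + 1) (k + 1)))^[i] (single (vert (k + 1)) 1) -
          (⇑(sd (k + 1) (k + 1)))^[i + 1] (single (vert (k + 1)) 1) -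
          TL (k + 1) k ((⇑(sd (k + 1) k))^[i] (lbd (k + 1) k (single (vert (k + 1)) 1))) := by
      intro i
      have := lbd_TL (k + 1) k ((⇑(sd (k + 1) (k + 1)))^[i] (single (vert (k + 1)) 1))
      rw [lbd_sd_iter] at this
      rw [eq_sub_iff_add_eq, this, Function.iterate_succ_apply']
    have h2 : lbd (k + 1) (k + 1) (dz 𝒞 σ) = single (vert (k + 1)) 1 -
        (⇑(sd (k + 1) (k + 1)))^[mm 𝒞 σ] (single (vert (k + 1)) 1) -
        ∑ i ∈ Finset.range (mm 𝒞 σ), TL (k + 1) k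
          ((⇑(sd (k + 1) k))^[i] (lbd (k + 1) k (single (vert (k + 1)) 1))) := by
      rw [dz, map_sum]
      simp only [h1]
      rw [Finset.sum_sub_distrib, Finset.sum_range_sub']
      rfl
    have h3 : ∀ j : Fin (k + 2), lpush (fc k j) (k + 1) (dz 𝒞 (sface k j σ)) =
        ∑ i ∈ Finset.range (mm 𝒞 (sface k j σ)), TL (k + 1) k
          ((⇑(sd (k + 1) k))^[i] (single (fc k j) 1)) := by
      intro j
      rw [dz, map_sum]
      refine Finset.sum_congr rfl fun i _ => ?_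
      rw [lpush_TL, lpush_sd_iter, lpush_vert]
    have h4 : ∀ i, TL (k + 1) k ((⇑(sd (k + 1) k))^[i] (lbd (k + 1) k (single (vert (k + 1)) 1))) =
        ∑ j : Fin (k + 2), (-1 : ℤ) ^ (j : ℕ) •
          TL (k + 1) k ((⇑(sd (k + 1) k))^[i] (single (fc k j) 1)) := by
      intro i
      rw [lbd, bd_single, sd_iter_sum, map_sum]
      refine Finset.sum_congr rfl fun j _ => ?_
      rw [map_smul]
      rfl
    rw [h2]
    simp only [h3, h4]
    rw [Finset.sum_comm]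
    have h5 : (single (vert (k + 1)) 1 : LS (k + 1) (k + 1) →₀ ℤ) -
        (single (vert (k + 1)) 1 - (⇑(sd (k + 1) (k + 1)))^[mm 𝒞 σ] (single (vert (k + 1)) 1) -
        ∑ j : Fin (k + 2), ∑ i ∈ Finset.range (mm 𝒞 σ), (-1 : ℤ) ^ (j : ℕ) •
          TL (k + 1) k ((⇑(sd (k + 1) k))^[i] (single (fc k j) 1))) -
        ∑ j : Fin (k + 2), (-1 : ℤ) ^ (j : ℕ) • ∑ i ∈ Finset.range (mm 𝒞 (sface k j σ)),
          TL (k + 1) k ((⇑(sd (k + 1) k))^[i] (single (fc k j) 1)) =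
        (⇑(sd (k + 1) (k + 1)))^[mm 𝒞 σ] (single (vert (k + 1)) 1) +
        (∑ j : Fin (k + 2), ∑ i ∈ Finset.range (mm 𝒞 σ), (-1 : ℤ) ^ (j : ℕ) •
          TL (k + 1) k ((⇑(sd (k + 1) k))^[i] (single (fc k j) 1)) -
        ∑ j : Fin (k + 2), (-1 : ℤ) ^ (j : ℕ) • ∑ i ∈ Finset.range (mm 𝒞 (sface k j σ)),
          TL (k + 1) k ((⇑(sd (k + 1) k))^[i] (single (fc k j) 1))) := by
      abel
    rw [h5]
    apply Submodule.add_mem
    · exact vert_iter_small hopen hcov σ _ le_rfl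
    · rw [← Finset.sum_sub_distrib]
      apply Submodule.sum_mem
      intro j _
      rw [← Finset.smul_sum, ← smul_sub]
      apply Submodule.smul_mem
      have hle := mm_face 𝒞 hopen hcov σ j
      rw [← Finset.sum_Ico_eq_sub _ hle]
      apply Submodule.sum_mem
      intro i hi
      apply TL_small
      have e : (single (fc k j) 1 : LS (k + 1) k →₀ ℤ) = lpush (fc k j) k (single (vert k) 1) :=
        (lpush_vert _).symm
      rw [e, ← lpush_sd_iter]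
      apply face_push_small
      exact vert_iter_small hopen hcov _ _ (Finset.mem_Ico.mp hi).1

theorem ev_small {n : ℕ} {S : Type} (s : Set S) (f : S → A) (h : ∀ a ∈ s, f a = 0) (z : S →₀ ℤ)
    (hz : z ∈ Finsupp.supported ℤ ℤ s) : ev f z = 0 := by
  have := supported_map s (ev f) ⊥ (by
    intro a ha
    rw [ev_single, h a ha]
    exact Submodule.zero_mem _) z hz
  exact (Submodule.mem_bot ℤ).1 this

/-- the subdivision of a cochain which vanishes on small simplices is zero -/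
theorem Rop_zero (hopen : ∀ C ∈ 𝒞, IsOpen C) (hcov : ∀ x : X, ∃ C ∈ 𝒞, x ∈ C)
    (α : Sing X 1 → Rˣ) (c : TS X → A) (hc : ∀ s : TS X, s.2 ∈ smallSet 𝒞 s.1 → c s = 0) :
    Rop 𝒞 α c = 0 := by
  funext s
  refine ev_small (n := 0) (SmL 𝒞 s.2 s.1) _ (fun a ha => ?_) _ (rz_small hopen hcov s.2)
  rw [pbc, hc ⟨s.1, s.2.comp (aff a)⟩ ha, smul_zero]

/-- both operators are trivial on small simplices -/
theorem Dop_small (α : Sing X 1 → Rˣ) (c : TS X → A) (s : TS X) (hs : s.2 ∈ smallSet 𝒞 s.1) :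
    Dop 𝒞 α c s = 0 := by
  change ev _ (dz 𝒞 s.2) = 0
  rw [dz, mm_small 𝒞 s.2 hs, Finset.range_zero, Finset.sum_empty, map_zero]

theorem small_face {k : ℕ} {σ : Sing X (k + 1)} (h : σ ∈ smallSet 𝒞 (k + 1)) (j : Fin (k + 2)) :
    sface k j σ ∈ smallSet 𝒞 k := by
  obtain ⟨C, hC, h⟩ := h
  exact ⟨C, hC, (range_sface k j σ).trans h⟩

theorem Rop_small {α : Sing X 1 → Rˣ} (hα : IsTw α) (c : TS X → A) (s : TS X)
    (hs : s.2 ∈ smallSet 𝒞 s.1) : Rop 𝒞 α c s = c s := by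
  have h1 := congrFun (htpy 𝒞 hα c) s
  rw [Pi.add_apply, Pi.add_apply, Dop_small α _ s hs, add_zero] at h1
  have h2 : tF α (Dop 𝒞 α c) s = 0 := by
    obtain ⟨k, σ⟩ := s
    cases k with
    | zero => rfl
    | succ k =>
      change dF α (cp k (Dop 𝒞 α c)) σ = 0
      rw [dF_eq hα]
      refine Finset.sum_eq_zero fun j _ => ?_
      have : cp k (Dop 𝒞 α c) (sface k j σ) = 0 :=
        Dop_small α c ⟨k, sface k j σ⟩ (small_face hs j)
      rw [this, smul_zero, smul_zero]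
  rw [h2, add_zero] at h1
  exact h1.symm

theorem ssF1 {α : Sing X 1 → Rˣ} (hα : IsTw α) (c : TS X → A) (hc : NV univ c)
    (h : tF α c = 0) : ∃ c', NV univ c' ∧ tF α c' = c := by
  obtain ⟨𝒞, h𝒞⟩ : ∃ 𝒞 : Set (Set X), 𝒞 = {U | IsOpen U ∧ ∀ s : TS X, range s.2 ⊆ U → c s = 0} :=
    ⟨_, rfl⟩
  have hopen : ∀ C ∈ 𝒞, IsOpen C := fun C hC => by rw [h𝒞] at hC; exact hC.1
  have hcov : ∀ x : X, ∃ C ∈ 𝒞, x ∈ C := by
    intro x
    obtain ⟨U, hU, hxU, h1⟩ := hc x (mem_univ x)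
    exact ⟨U, by rw [h𝒞]; exact ⟨hU, h1⟩, hxU⟩
  refine ⟨Dop 𝒞 α c, ?_, ?_⟩
  · intro x _
    obtain ⟨C, hC, hx⟩ := hcov x
    exact ⟨C, hopen C hC, hx, fun s hs => Dop_small α c s ⟨C, hC, hs⟩⟩
  · have h1 := htpy 𝒞 hα c
    have h2 : Rop 𝒞 α c = 0 := Rop_zero hopen hcov α c (by
      rintro s ⟨C, hC, hs⟩
      rw [h𝒞] at hC
      exact hC.2 s hs)
    have h3 : Dop 𝒞 α (tF α c) = 0 := by
      rw [h]
      funext s
      change ev (pbc α 0 s.2 (s.1 + 1)) _ = 0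
      refine ev_small (n := 0) univ _ (fun a _ => smul_zero _) _ (by simp)
    rw [h2, h3, zero_add, zero_add] at h1
    exact h1.symm

theorem ssF2 {α : Sing X 1 → Rˣ} (hα : IsTw α) (B : Set X) (hB : IsOpen B) (a : TS X → A)
    (ha : NV B (tF α a)) : ∃ a' : TS X → A, (∀ s : TS X, range s.2 ⊆ B → tF α a' s = 0) ∧
      NV B (a' - a) := by
  classical
  let ι : C(B, X) := ⟨Subtype.val, continuous_subtype_val⟩
  obtain ⟨𝒞, h𝒞⟩ : ∃ 𝒞 : Set (Set B), 𝒞 = {U | IsOpen U ∧ ∀ s : TS B, range s.2 ⊆ U →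
    tF α a ⟨s.1, ι.comp s.2⟩ = 0} := ⟨_, rfl⟩
  have hopen : ∀ C ∈ 𝒞, IsOpen C := fun C hC => by rw [h𝒞] at hC; exact hC.1
  have hmem : ∀ U : Set X, IsOpen U → (∀ s : TS X, range s.2 ⊆ U → tF α a s = 0) →
      (Subtype.val ⁻¹' U : Set B) ∈ 𝒞 := by
    intro U hU h1
    rw [h𝒞]
    refine ⟨hU.preimage continuous_subtype_val, fun s hs => h1 ⟨s.1, ι.comp s.2⟩ ?_⟩
    rintro _ ⟨x, rfl⟩
    exact hs ⟨x, rfl⟩
  have hcov : ∀ x : B, ∃ C ∈ 𝒞, x ∈ C := by
    intro x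
    obtain ⟨U, hU, hxU, h1⟩ := ha x x.2
    exact ⟨_, hmem U hU h1, hxU⟩
  let αB : Sing B 1 → Rˣ := fun σ => α (ι.comp σ)
  have hαB : IsTw αB := hα.pull ι
  let aB : TS B → A := tpb ι a
  have haB : tF αB aB = tpb ι (tF α a) := tF_tpb ι α a
  let bB : TS B → A := Rop 𝒞 αB aB
  have key : tF αB bB = 0 := by
    rw [tF_Rop 𝒞 hαB]
    apply Rop_zero hopen hcov
    rintro s ⟨C, hC, hs⟩
    rw [h𝒞] at hC
    rw [haB]
    exact hC.2 s hs
  let cores : ∀ (p : ℕ) (σ : Sing X p), range σ ⊆ B → Sing B p := fun p σ h =>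
    ⟨fun x => ⟨σ x, h ⟨x, rfl⟩⟩, Continuous.subtype_mk σ.continuous _⟩
  refine ⟨fun s => if h : range s.2 ⊆ B then bB ⟨s.1, cores s.1 s.2 h⟩ else 0, ?_, ?_⟩
  · rintro ⟨p, σ⟩ hσ
    cases p with
    | zero => rfl
    | succ p =>
      change dF α (cp p _) σ = 0
      rw [dF_eq hα]
      have h3 : dF αB (cp p bB) (cores (p + 1) σ hσ) = 0 :=
        congrFun key ⟨p + 1, cores (p + 1) σ hσ⟩
      rw [dF_eq hαB] at h3
      refine Eq.trans (Finset.sum_congr rfl fun i _ => ?_) h3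
      have h4 : range (sface p i σ) ⊆ B := (range_sface p i σ).trans hσ
      change (-1 : ℤ) ^ (i : ℕ) • (α _ : R) • (if h : range (sface p i σ) ⊆ B then
        bB ⟨p, cores p (sface p i σ) h⟩ else 0) = _
      rw [dif_pos h4]
      rfl
  · intro x hx
    obtain ⟨U, hU, hxU, h1⟩ := ha x hx
    refine ⟨U ∩ B, hU.inter hB, ⟨hxU, hx⟩, ?_⟩
    rintro ⟨p, σ⟩ hs
    have hsB : range σ ⊆ B := hs.trans inter_subset_right
    have hsU : range σ ⊆ U := hs.trans inter_subset_left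
    change (if h : range σ ⊆ B then bB ⟨p, cores p σ h⟩ else 0) - a ⟨p, σ⟩ = 0
    rw [dif_pos hsB]
    have h5 : cores p σ hsB ∈ smallSet 𝒞 p := by
      refine ⟨_, hmem U hU h1, ?_⟩
      rintro _ ⟨y, rfl⟩
      exact hsU ⟨y, rfl⟩
    have h6 : bB ⟨p, cores p σ hsB⟩ = aB ⟨p, cores p σ hsB⟩ := Rop_small hαB aB ⟨p, _⟩ h5
    rw [h6]
    exact sub_self _

/-! ### from `F` to `L` -/

/-- multiplication by a function with values in the units -/
def Tm (g : TS X → Rˣ) (c : TS X → A) : TS X → A := fun s => (g s : R) • c s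

theorem NV.Tm {K : Set X} {c : TS X → A} (h : NV K c) (g : TS X → Rˣ) : NV K (TM.Tm g c) := by
  intro x hx
  obtain ⟨U, hU, hxU, h1⟩ := h x hx
  exact ⟨U, hU, hxU, fun s hs => by rw [TM.Tm, h1 s hs, smul_zero]⟩

theorem Tm_Tm (g h : TS X → Rˣ) (c : TS X → A) : Tm g (Tm h c) = Tm (g * h) c := by
  funext s
  simp only [Tm, smul_smul, ← Units.val_mul, Pi.mul_apply]

theorem Tm_one (c : TS X → A) : Tm (1 : TS X → Rˣ) c = c := by
  funext s
  simp [Tm]

theorem Tm_sub (g : TS X → Rˣ) (c c' : TS X → A) : Tm g (c - c') = Tm g c - Tm g c' := by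
  funext s
  exact smul_sub _ _ _

/-- transport from the last to the first vertex -/
noncomputable def gl (α : Sing X 1 → Rˣ) : TS X → Rˣ :=
  fun s => (α (sub (![0, Fin.last s.1] : Fin 2 → Fin (s.1 + 1)) s.2))⁻¹

theorem IsTw.inv {α : Sing X 1 → Rˣ} (h : IsTw α) : IsTw α⁻¹ := by
  intro τ
  simp only [Pi.inv_apply, h τ, mul_inv]

theorem tF_Tm {α : Sing X 1 → Rˣ} (hα : IsTw α) (c : TS X → A) :
    tF α⁻¹ (Tm (gl α) c) = Tm (gl α) (tL α c) := by
  funext ⟨k, σ⟩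
  cases k with
  | zero => exact (smul_zero _).symm
  | succ k =>
    change dF α⁻¹ (cp k (Tm (gl α) c)) σ = (gl α ⟨k + 1, σ⟩ : R) • dL α (cp k c) σ
    rw [dF_eq hα.inv, dL_eq hα, Finset.smul_sum]
    refine Finset.sum_congr rfl fun i _ => ?_
    rw [smul_comm (gl α ⟨k + 1, σ⟩ : R) ((-1 : ℤ) ^ (i : ℕ))]
    congr 1
    change ((α⁻¹ (sub (![0, i.succAbove 0] : Fin 2 → Fin (k + 1 + 1)) σ) : Rˣ) : R) •
      ((gl α ⟨k, sface k i σ⟩ : Rˣ) : R) • c ⟨k, sface k i σ⟩ = _ • _ • c ⟨k, sface k i σ⟩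
    rw [smul_smul, smul_smul, ← Units.val_mul, ← Units.val_mul]
    congr 2
    have e1 : sub (![0, Fin.last k] : Fin 2 → Fin (k + 1)) (sface k i σ) =
        sub (![i.succAbove 0, i.succAbove (Fin.last k)] : Fin 2 → Fin (k + 1 + 1)) σ := by
      rw [sface_sub_lz, sub_sub_lz]
      congr 1
      funext l
      fin_cases l <;> rfl
    change (α _)⁻¹ * (α (sub (![0, Fin.last k] : Fin 2 → Fin (k + 1)) (sface k i σ)))⁻¹ =
      (α (sub (![0, Fin.last (k + 1)] : Fin 2 → Fin (k + 1 + 1)) σ))⁻¹ * _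
    rw [e1, ← mul_inv, ← hα.tri σ 0 (i.succAbove 0) (i.succAbove (Fin.last k)),
      hα.tri σ 0 (i.succAbove (Fin.last k)) (Fin.last (k + 1)), mul_inv, inv_mul_cancel_right]

end

theorem SS : S_SS := by
  intro X _ R A _ _ _ α hα
  have hg : ∀ c : TS X → A, Tm (gl α)⁻¹ (Tm (gl α) c) = c := by
    intro c
    rw [Tm_Tm, inv_mul_cancel, Tm_one]
  have hg' : ∀ c : TS X → A, Tm (gl α) (Tm (gl α)⁻¹ c) = c := by
    intro c
    rw [Tm_Tm, mul_inv_cancel, Tm_one]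
  refine ⟨fun c hc h => ssF1 hα c hc h, ?_, fun B hB a ha => ssF2 hα B hB a ha, ?_⟩
  · intro c hc h
    obtain ⟨c'', h1, h2⟩ := ssF1 hα.inv (Tm (gl α) c) (hc.Tm _) (by
      rw [tF_Tm hα, h]
      funext s
      exact smul_zero _)
    refine ⟨Tm (gl α)⁻¹ c'', h1.Tm _, ?_⟩
    have h3 := tF_Tm hα (Tm (gl α)⁻¹ c'')
    rw [hg', h2] at h3
    rw [← hg (tL α (Tm (gl α)⁻¹ c'')), ← h3, hg]
  · intro B hB a ha
    obtain ⟨a'', h1, h2⟩ := ssF2 hα.inv B hB (Tm (gl α) a) (by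
      rw [tF_Tm hα]
      exact ha.Tm _)
    refine ⟨Tm (gl α)⁻¹ a'', ?_, ?_⟩
    · intro s hs
      have h3 := congrFun (tF_Tm hα (Tm (gl α)⁻¹ a'')) s
      rw [hg', h1 s hs] at h3
      have h4 := congrFun (hg (tL α (Tm (gl α)⁻¹ a''))) s
      rw [← h4]
      change _ • (Tm (gl α) (tL α (Tm (gl α)⁻¹ a''))) s = 0
      rw [← h3, smul_zero]
    · have h3 : Tm (gl α)⁻¹ a'' - a = Tm (gl α)⁻¹ (a'' - Tm (gl α) a) := by
        rw [Tm_sub, hg]
      rw [h3]
      exact h2.Tm _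

end Run7.h841.TM
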