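import Pool.Agent.Run7.h841.TM.Iface
import Pool.Agent.Run7.h841.TM.Deg

/-! The piece HOM, and extension of functionals. -/

set_option autoImplicit false
set_option linter.unusedVariables false
set_option linter.unusedSectionVars false

namespace Run7.h841.TM

open Set Topology
open Pool.Agent.Helper922.HB.Sc (Sing sface vert)
open Pool.Agent.Helper158.PD (TS sub front back pathSx exists_path)

/-- factorisation of functionals with values in an injective module -/
theorem ext_inj {R E V W : Type} [CommRing R] [AddCommGroup E] [Module R E] [Module.Injective R E]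
    [AddCommGroup V] [Module R V] [AddCommGroup W] [Module R W] (f : V →ₗ[R] W) (Z : V →ₗ[R] E)
    (h : ∀ v, f v = 0 → Z v = 0) : ∃ U : W →ₗ[R] E, ∀ v, U (f v) = Z v := by
  have hk : LinearMap.ker f ≤ LinearMap.ker Z := fun v hv => h v hv
  have hinj : Function.Injective ((LinearMap.ker f).liftQ f le_rfl) := by
    rw [← LinearMap.ker_eq_bot]
    exact Submodule.ker_liftQ_eq_bot _ _ _ le_rfl
  obtain ⟨U, hU⟩ := Module.Injective.out ((LinearMap.ker f).liftQ f le_rfl) hinj
    ((LinearMap.ker f).liftQ Z hk)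
  refine ⟨U, fun v => ?_⟩
  have := hU ((LinearMap.ker f).mkQ v)
  rw [Submodule.mkQ_apply, Submodule.liftQ_apply, Submodule.liftQ_apply] at this
  exact this

theorem inj_of_field (k A : Type) [Field k] [AddCommGroup A] [Module k A] :
    Module.Injective k A where
  out := by
    intro X Y _ _ _ _ f hf g
    obtain ⟨h, hh⟩ := f.exists_leftInverse_of_injective (LinearMap.ker_eq_bot.2 hf)
    refine ⟨g.comp h, fun x => ?_⟩
    rw [LinearMap.comp_apply, ← LinearMap.comp_apply h f, hh, LinearMap.id_apply]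

theorem ext_field {k A V W : Type} [Field k] [AddCommGroup A] [Module k A]
    [AddCommGroup V] [Module k V] [AddCommGroup W] [Module k W] (f : V →ₗ[k] W) (Z : V →ₗ[k] A)
    (h : ∀ v, f v = 0 → Z v = 0) : ∃ U : W →ₗ[k] A, ∀ v, U (f v) = Z v := by
  have := inj_of_field k A
  exact ext_inj f Z h

/-- a functional which kills a subspace and does not kill a given vector -/
theorem exists_fun {k V : Type} [Field k] [AddCommGroup V] [Module k V] (S : Submodule k V)
    (v : V) (hv : v ∉ S) : ∃ J : V →ₗ[k] k, (∀ s ∈ S, J s = 0) ∧ J v = 1 := by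
  have hne : S.mkQ v ≠ 0 := by
    rwa [Submodule.mkQ_apply, Ne, Submodule.Quotient.mk_eq_zero]
  obtain ⟨U, hU⟩ := ext_field (LinearMap.toSpanSingleton k (V ⧸ S) (S.mkQ v))
    (LinearMap.id : k →ₗ[k] k) (by
      intro c hc
      rw [LinearMap.toSpanSingleton_apply] at hc
      rcases smul_eq_zero.1 hc with h | h
      · exact h
      · exact absurd h hne)
  refine ⟨U.comp S.mkQ, fun s hs => ?_, ?_⟩
  · rw [LinearMap.comp_apply, Submodule.mkQ_apply, (Submodule.Quotient.mk_eq_zero _).2 hs, map_zero]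
  · have := hU 1
    rw [LinearMap.toSpanSingleton_apply, one_smul, LinearMap.id_apply] at this
    exact this

section

variable {X : Type} [TopologicalSpace X] {A : Type} [AddCommGroup A] [Module ℚ A]

theorem pow_smul_q (i : ℕ) (a : A) : ((-1 : ℚ) ^ i) • a = ((-1 : ℤ) ^ i) • a := by
  rcases Nat.even_or_odd i with h | h
  · rw [h.neg_one_pow, h.neg_one_pow, one_smul, one_smul]
  · rw [h.neg_one_pow, h.neg_one_pow, neg_smul, neg_smul, one_smul, one_smul]

theorem lc_bdry {n : ℕ} (z : Sing X n → A) :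
    (Finsupp.linearCombination ℚ z).comp (F.bdry X n) = Finsupp.linearCombination ℚ (dl z) := by
  apply Finsupp.lhom_ext'
  intro σ
  apply LinearMap.ext_ring
  simp only [LinearMap.comp_apply, Finsupp.lsingle_apply, F.bdry,
    Finsupp.linearCombination_single, one_smul, map_sum, map_smul, dl]
  refine Finset.sum_congr rfl fun i _ => ?_
  rw [pow_smul_q]
  rfl

theorem lc_bdry_apply {n : ℕ} (z : Sing X n → A) (c : F.Sx X (n + 1) →₀ ℚ) :
    Finsupp.linearCombination ℚ z (F.bdry X n c) = Finsupp.linearCombination ℚ (dl z) c :=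
  LinearMap.congr_fun (lc_bdry z) c

/-- a linear map on chains is a cochain -/
theorem lc_of {n : ℕ} (Z : (F.Sx X n →₀ ℚ) →ₗ[ℚ] A) :
    Finsupp.linearCombination ℚ (fun σ : Sing X n => Z (Finsupp.single σ 1)) = Z := by
  apply Finsupp.lhom_ext'
  intro σ
  apply LinearMap.ext_ring
  simp

theorem lc_zero {n : ℕ} (c : F.Sx X n →₀ ℚ) :
    Finsupp.linearCombination ℚ (0 : Sing X n → A) c = 0 := by
  rw [Finsupp.linearCombination_apply, Finsupp.sum]
  exact Finset.sum_eq_zero fun σ _ => smul_zero _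

theorem bdry_bdry (n : ℕ) (c : F.Sx X (n + 1 + 1) →₀ ℚ) : F.bdry X n (F.bdry X (n + 1) c) = 0 := by
  have h1 : ∀ J : (F.Sx X n →₀ ℚ) →ₗ[ℚ] ℚ, J (F.bdry X n (F.bdry X (n + 1) c)) = 0 := by
    intro J
    rw [← lc_of J, lc_bdry_apply, lc_bdry_apply, dl_dl, lc_zero]
  by_contra hne
  obtain ⟨J, _, hJ⟩ := exists_fun (⊥ : Submodule ℚ (F.Sx X n →₀ ℚ)) _ hne
  rw [h1 J] at hJ
  exact zero_ne_one hJ

/-- cocycles which kill the cycles are coboundaries -/
theorem exact_of_kill {n : ℕ} (z : Sing X (n + 1) → A)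
    (h : ∀ c, F.bdry X n c = 0 → Finsupp.linearCombination ℚ z c = 0) :
    ∃ u : Sing X n → A, dl u = z := by
  obtain ⟨U, hU⟩ := ext_field (F.bdry X n) (Finsupp.linearCombination ℚ z) h
  refine ⟨fun σ => U (Finsupp.single σ 1), ?_⟩
  have h2 : Finsupp.linearCombination ℚ (dl (fun σ : Sing X n => U (Finsupp.single σ 1))) =
      Finsupp.linearCombination ℚ z := by
    rw [← lc_bdry, lc_of]
    ext1 σ
    apply LinearMap.ext_ring
    simp only [LinearMap.comp_apply]
    exact hU _
  funext σ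
  have h3 := LinearMap.congr_fun h2 (Finsupp.single σ 1)
  simpa using h3

theorem kill_of_exact {n : ℕ} (u : Sing X n → A) (c : F.Sx X (n + 1) →₀ ℚ)
    (h : F.bdry X n c = 0) : Finsupp.linearCombination ℚ (dl u) c = 0 := by
  rw [← lc_bdry_apply, h, map_zero]

/-- the class of a cycle vanishes iff it is a boundary -/
theorem mk_eq_zero_iff {n : ℕ} (c : F.cyc X n) :
    (Submodule.Quotient.mk c : F.RatH X n) = 0 ↔ ∃ b, F.bdry X n b = c.1 := by
  rw [Submodule.Quotient.mk_eq_zero]
  exact Iff.rfl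

theorem rank_zero_iff (n : ℕ) : Module.rank ℚ (F.RatH X (n + 1)) = 0 ↔
    ∀ c, F.bdry X n c = 0 → ∃ b, F.bdry X (n + 1) b = c := by
  rw [rank_zero_iff_forall_zero]
  constructor
  · intro h c hc
    exact (mk_eq_zero_iff (⟨c, hc⟩ : F.cyc X (n + 1))).1 (h _)
  · intro h x
    obtain ⟨c, rfl⟩ := Submodule.Quotient.mk_surjective _ x
    exact (mk_eq_zero_iff c).2 (h c.1 c.2)

theorem bnd_fun {n : ℕ} (c : F.Sx X n →₀ ℚ) (hc : ¬ ∃ b, F.bdry X n b = c) :
    ∃ z : Sing X n → ℚ, dl z = 0 ∧ Finsupp.linearCombination ℚ z c = 1 := by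
  obtain ⟨J, hJ1, hJ2⟩ := exists_fun (LinearMap.range (F.bdry X n)) c hc
  refine ⟨fun σ => J (Finsupp.single σ 1), ?_, ?_⟩
  · funext σ
    have h1 := lc_bdry_apply (fun σ : Sing X n => J (Finsupp.single σ 1)) (Finsupp.single σ 1)
    rw [lc_of, hJ1 _ ⟨_, rfl⟩, Finsupp.linearCombination_single, one_smul] at h1
    exact h1.symm
  · rw [lc_of]
    exact hJ2

end

theorem hom5 (X : Type) [TopologicalSpace X] :
    PathConnectedSpace X ↔ Module.rank ℚ (F.RatH X 0) = 1 := by
  classical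
  have h0 : ∀ (c : F.cyc X 0), (Submodule.Quotient.mk c : F.RatH X 0) = 0 ↔
      ∃ b, F.bdry X 0 b = c.1 := mk_eq_zero_iff
  have hmk : ∀ z : Sing X 0 → ℚ, dl z = 0 → ∃ φ : F.RatH X 0 →ₗ[ℚ] ℚ, ∀ c : F.cyc X 0,
      φ (Submodule.Quotient.mk c) = Finsupp.linearCombination ℚ z c.1 := by
    intro z hz
    refine ⟨Submodule.liftQ _ ((Finsupp.linearCombination ℚ z).comp (F.cyc X 0).subtype) ?_,
      fun c => rfl⟩
    intro c hc
    obtain ⟨b, hb⟩ : ∃ b, F.bdry X 0 b = c.1 := hc
    change Finsupp.linearCombination ℚ z c.1 = 0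
    rw [← hb, lc_bdry_apply, hz, lc_zero]
  have haug : dl (fun _ : Sing X 0 => (1 : ℚ)) = 0 := by
    funext σ
    rw [dl0]
    simp
  constructor
  · intro hX
    obtain ⟨x₀⟩ : Nonempty X := inferInstance
    rw [rank_eq_one_iff]
    refine ⟨Submodule.Quotient.mk ⟨Finsupp.single (pt x₀) 1, trivial⟩, ?_, ?_⟩
    · intro h
      obtain ⟨φ, hφ⟩ := hmk _ haug
      have h1 := hφ ⟨Finsupp.single (pt x₀) 1, trivial⟩
      rw [h, map_zero] at h1
      simp at h1
    · have hpt : ∀ τ : Sing X 0, ∃ b, F.bdry X 0 b =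
          Finsupp.single τ (1 : ℚ) - Finsupp.single (pt x₀) 1 := by
        intro τ
        obtain ⟨γ⟩ := PathConnectedSpace.joined x₀ (τ (vert 0 0))
        refine ⟨Finsupp.single (pathSx γ) 1, ?_⟩
        rw [F.bdry, Finsupp.linearCombination_single, one_smul, Fin.sum_univ_two]
        change ((-1 : ℚ) ^ 0) • Finsupp.single (sface 0 0 (pathSx γ)) (1 : ℚ) +
          ((-1 : ℚ) ^ 1) • Finsupp.single (sface 0 1 (pathSx γ)) (1 : ℚ) = _
        rw [sface00, sface01, pathSx_v0, pathSx_v1, ← eq_pt, pow_zero, one_smul, pow_one,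
          neg_smul, one_smul, sub_eq_add_neg]
      intro w
      obtain ⟨⟨c, hc⟩, rfl⟩ := Submodule.Quotient.mk_surjective _ w
      induction c using Finsupp.induction_linear with
      | zero =>
        refine ⟨0, ?_⟩
        rw [zero_smul]
        symm
        rw [h0]
        exact ⟨0, map_zero _⟩
      | add c c' h1 h2 =>
        obtain ⟨r, hr⟩ := h1 trivial
        obtain ⟨r', hr'⟩ := h2 trivial
        refine ⟨r + r', ?_⟩
        rw [add_smul, hr, hr']
        rfl
      | single τ q =>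
        refine ⟨q, ?_⟩
        rw [← sub_eq_zero, ← Submodule.Quotient.mk_smul, ← Submodule.Quotient.mk_sub, h0]
        obtain ⟨b, hb⟩ := hpt τ
        refine ⟨(-q) • b, ?_⟩
        rw [map_smul, hb]
        change _ = q • Finsupp.single (pt x₀) (1 : ℚ) - Finsupp.single τ q
        rw [neg_smul, smul_sub, neg_sub, Finsupp.smul_single, Finsupp.smul_single, smul_eq_mul,
          mul_one]
  · intro h
    rw [rank_eq_one_iff] at h
    obtain ⟨v₀, hv₀, hv⟩ := h
    have hcl : ∀ x : X, dl (fun τ : Sing X 0 => if Joined x (τ (vert 0 0)) then (1 : ℚ) else 0) =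
        0 := by
      intro x
      funext σ
      rw [dl0, sface00, sface01, pt_apply, pt_apply]
      have hj : Joined (σ (vert 1 0)) (σ (vert 1 1)) := by
        obtain ⟨a, b, γ, rfl⟩ := exists_path σ
        rw [pathSx_v0, pathSx_v1]
        exact ⟨γ⟩
      have : Joined x (σ (vert 1 1)) ↔ Joined x (σ (vert 1 0)) :=
        ⟨fun h => h.trans hj.symm, fun h => h.trans hj⟩
      simp only [this, sub_self, Pi.zero_apply]
    have hne : Nonempty X := by
      by_contra hn
      rw [not_nonempty_iff] at hn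
      apply hv₀
      obtain ⟨⟨c, hc⟩, rfl⟩ := Submodule.Quotient.mk_surjective _ v₀
      rw [h0]
      refine ⟨0, ?_⟩
      rw [map_zero]
      change 0 = c
      have : IsEmpty (F.Sx X 0) := ⟨fun σ => hn.elim (σ (vert 0 0))⟩
      exact Subsingleton.elim _ _
    refine ⟨hne, fun x y => ?_⟩
    by_contra hxy
    obtain ⟨φ, hφ⟩ := hmk _ (hcl x)
    obtain ⟨ε, hε⟩ := hmk _ haug
    obtain ⟨r, hr⟩ := hv (Submodule.Quotient.mk ⟨Finsupp.single (pt x) 1, trivial⟩)
    obtain ⟨s, hs⟩ := hv (Submodule.Quotient.mk ⟨Finsupp.single (pt y) 1, trivial⟩)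
    have h1 := congrArg φ hr
    have h2 := congrArg φ hs
    rw [map_smul, hφ, Finsupp.linearCombination_single, pt_apply, if_pos (Joined.refl x)] at h1
    rw [map_smul, hφ, Finsupp.linearCombination_single, pt_apply, if_neg hxy, smul_zero] at h2
    have h3 : φ v₀ ≠ 0 := by
      intro h
      rw [h] at h1
      simp at h1
    have h4 : s = 0 := by
      rcases mul_eq_zero.1 h2 with h | h
      · exact h
      · exact absurd h h3
    have h5 := congrArg ε hs
    rw [h4, zero_smul, map_zero, hε] at h5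
    simp at h5

theorem HOM : S_HOM := by
  refine ⟨?_, ?_, ?_, ?_, fun X _ => hom5 X⟩
  · intro X _ n h A _ _ z hz
    rw [rank_zero_iff] at h
    refine exact_of_kill z fun c hc => ?_
    obtain ⟨b, rfl⟩ := h c hc
    rw [lc_bdry_apply, hz, lc_zero]
  · intro X _ n h
    rw [rank_zero_iff]
    intro c hc
    by_contra hne
    obtain ⟨z, hz, hzc⟩ := bnd_fun c hne
    obtain ⟨u, rfl⟩ := h z hz
    rw [kill_of_exact u c hc] at hzc
    exact zero_ne_one hzc
  · intro X _ n J hJ ⟨z₀, hz₀, hJz₀⟩ hJ2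
    have h1 : ∃ c₀, F.bdry X n c₀ = 0 ∧ Finsupp.linearCombination ℚ z₀ c₀ ≠ 0 := by
      by_contra hcon
      push Not at hcon
      obtain ⟨u, rfl⟩ := exact_of_kill z₀ hcon
      exact hJz₀ (hJ u)
    obtain ⟨c₀, hc₀, hzc₀⟩ := h1
    rw [rank_eq_one_iff]
    refine ⟨Submodule.Quotient.mk ⟨c₀, hc₀⟩, ?_, ?_⟩
    · intro h
      rw [mk_eq_zero_iff] at h
      obtain ⟨b, hb⟩ := h
      apply hzc₀
      change F.bdry X (n + 1) b = c₀ at hb
      rw [← hb, lc_bdry_apply, hz₀, lc_zero]
    · intro w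
      obtain ⟨⟨c, hc⟩, rfl⟩ := Submodule.Quotient.mk_surjective _ w
      obtain ⟨r, hr⟩ : ∃ r, r = Finsupp.linearCombination ℚ z₀ c /
        Finsupp.linearCombination ℚ z₀ c₀ := ⟨_, rfl⟩
      refine ⟨r, ?_⟩
      symm
      rw [← sub_eq_zero, ← Submodule.Quotient.mk_smul, ← Submodule.Quotient.mk_sub, mk_eq_zero_iff]
      by_contra hne
      have hcyc : F.bdry X n (c - r • c₀) = 0 := by
        have e1 : F.bdry X n c = 0 := hc
        have e2 : F.bdry X n c₀ = 0 := hc₀
        rw [map_sub, map_smul, e1, e2, smul_zero, sub_zero]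
      obtain ⟨z₁, hz₁, hz₁c⟩ := bnd_fun (c - r • c₀) hne
      have h2 : J (z₁ - (J z₁ / J z₀) • z₀) = 0 := by
        rw [map_sub, map_smul, smul_eq_mul, div_mul_cancel₀ _ hJz₀, sub_self]
      obtain ⟨u, hu⟩ := hJ2 (z₁ - (J z₁ / J z₀) • z₀) (by
        rw [dl_sub, dl_smul, hz₁, hz₀, smul_zero, sub_zero]) h2
      have h3 := kill_of_exact u _ hcyc
      rw [hu] at h3
      have h4 : ∀ c' : F.Sx X (n + 1) →₀ ℚ,
          Finsupp.linearCombination ℚ (z₁ - (J z₁ / J z₀) • z₀) c' =
          Finsupp.linearCombination ℚ z₁ c' -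
            (J z₁ / J z₀) * Finsupp.linearCombination ℚ z₀ c' := by
        intro c'
        simp only [Finsupp.linearCombination_apply, Finsupp.sum, Finset.mul_sum,
          ← Finset.sum_sub_distrib]
        refine Finset.sum_congr rfl fun σ _ => ?_
        simp only [Pi.sub_apply, Pi.smul_apply, smul_eq_mul]
        ring
      rw [h4, hz₁c, map_sub (Finsupp.linearCombination ℚ z₀), map_smul, hr, smul_eq_mul,
        div_mul_cancel₀ _ hzc₀, sub_self, mul_zero, sub_zero] at h3
      exact one_ne_zero h3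
  · intro X _ n h
    rw [rank_eq_one_iff] at h
    obtain ⟨v₀, hv₀, -⟩ := h
    obtain ⟨⟨c, hc⟩, rfl⟩ := Submodule.Quotient.mk_surjective _ v₀
    rw [Ne, mk_eq_zero_iff] at hv₀
    obtain ⟨z, hz, hzc⟩ := bnd_fun c hv₀
    refine ⟨z, hz, fun u hu => ?_⟩
    have h3 := kill_of_exact u c hc
    rw [hu, hzc] at h3
    exact one_ne_zero h3

end Run7.h841.TM
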