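import Pool.Agent.Run7.h841.TM.Iface

/-! The pieces INJ and FAB. -/

set_option autoImplicit false
set_option linter.unusedVariables false

namespace Run7.h841.TM

theorem inj_field (k : Type) [Field k] : Module.Injective k k where
  out := by
    intro X Y _ _ _ _ f hf g
    obtain ⟨h, hh⟩ := f.exists_leftInverse_of_injective (LinearMap.ker_eq_bot.2 hf)
    refine ⟨g.comp h, fun x => ?_⟩
    rw [LinearMap.comp_apply, ← LinearMap.comp_apply h f, hh, LinearMap.id_apply]

theorem inj_frac (O : Type) [CommRing O] [IsDomain O] [IsPrincipalIdealRing O] :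
    Module.Injective O (FractionRing O) := by
  apply Module.Baer.injective
  intro I g
  obtain ⟨a, ha⟩ := (IsPrincipalIdealRing.principal I).principal
  have haI : a ∈ I := by rw [ha]; exact Submodule.mem_span_singleton_self a
  by_cases h0 : a = 0
  · refine ⟨0, fun x hx => ?_⟩
    have hx0 : x = 0 := by
      rw [ha, h0, Submodule.mem_span_singleton] at hx
      obtain ⟨r, hr⟩ := hx
      rw [← hr, smul_zero]
    subst hx0
    rw [LinearMap.zero_apply]
    exact (map_zero g).symm
  · have hK : algebraMap O (FractionRing O) a ≠ 0 := by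
      intro h
      exact h0 ((map_eq_zero_iff _ (IsFractionRing.injective O (FractionRing O))).1 h)
    refine ⟨LinearMap.toSpanSingleton O (FractionRing O)
      (g ⟨a, haI⟩ / algebraMap O (FractionRing O) a), fun x hx => ?_⟩
    have hx' := hx
    rw [ha, Submodule.mem_span_singleton] at hx'
    obtain ⟨r, hr⟩ := hx'
    have e : (⟨x, hx⟩ : I) = r • ⟨a, haI⟩ := Subtype.ext hr.symm
    rw [e, map_smul, LinearMap.toSpanSingleton_apply, ← hr, smul_eq_mul, mul_smul]
    congr 1
    rw [Algebra.smul_def]
    field_simp

theorem INJ : S_INJ :=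
  ⟨(Module.Baer.of_divisible QZ).injective, fun k _ => inj_field k, fun O _ _ _ => inj_frac O⟩

theorem FAB : S_FAB := by
  intro G _ _ hG
  have hsur : Function.Surjective (Abelianization.of : G →* Abelianization G) :=
    QuotientGroup.mk_surjective
  have hfg : Group.FG (Abelianization G) := Group.fg_of_surjective hsur
  have htor : IsMulTorsion (Abelianization G) := by
    intro x
    by_contra hx
    have hinj : Function.Injective (LinearMap.toSpanSingleton ℤ (Additive (Abelianization G))
        (Additive.ofMul x)) := by
      intro m n hmn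
      rw [LinearMap.toSpanSingleton_apply, LinearMap.toSpanSingleton_apply] at hmn
      have h1 : x ^ m = x ^ n := hmn
      by_contra hne
      exact hx (isOfFinOrder_iff_zpow_eq_one.2 ⟨m - n, sub_ne_zero.2 hne, by
        rw [zpow_sub, h1, mul_inv_cancel]⟩)
    have hQ : Module.Injective ℤ ℚ := (Module.Baer.of_divisible ℚ).injective
    obtain ⟨h, hh⟩ := hQ.out _ hinj (LinearMap.toSpanSingleton ℤ ℚ 1)
    let φ : G →* Multiplicative ℚ :=
      { toFun := fun g => Multiplicative.ofAdd (h (Additive.ofMul (Abelianization.of g)))
        map_one' := by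
          rw [map_one, ofMul_one, map_zero, ofAdd_zero]
        map_mul' := fun x y => by
          rw [map_mul, ofMul_mul, map_add, ofAdd_add] }
    have h2 := hG φ
    obtain ⟨g, hg⟩ := hsur x
    have h3 := DFunLike.congr_fun h2 g
    have h4 := hh 1
    rw [LinearMap.toSpanSingleton_apply, LinearMap.toSpanSingleton_apply, one_smul, one_smul] at h4
    have h5 : h (Additive.ofMul x) = 0 := by
      rw [← hg]
      exact congrArg Multiplicative.toAdd h3
    rw [h5] at h4
    exact zero_ne_one h4
  exact CommGroup.finite_of_fg_isMulTorsion _ htor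

end Run7.h841.TM
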