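import Pool.Agent.Run7.h841.TM.Boot

/-!
# Interface of the formalisation of MP_da777f_gt (helper841)

Goal: `Run7.h841.F.Final` (a full negative answer: `M = #⁴ L(3,1)` has metabolic linking form and
bounds no topological rational homology ball; paper proof: `work/h841/proof.md`).

Every `S_X : Prop` below is one piece; a helper proves `theorem X : S_X`, possibly with other pieces
as hypotheses when the comment says (uses): e.g. `theorem X (hSS : S_SS) : S_X`.

Conventions: `Sing X n = C(stdSimplex ℝ (Fin (n+1)), X)`, `sface n i` faces, `vert n i` vertices,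
`sub f σ` the face of `σ` given by a map of vertices `f`;
`TS X = Σ p, Sing X p`; total cochains `TS X → A` with coboundaries `td`, `tF α`, `tL α`;
`cp p c` component, `inc a` inclusion of a graded cochain; graded coboundaries `dl`, `dF α`, `dL α`;
`Nv K c` / `NV K c`: the (graded / total) cochain `c` vanishes on all simplices in some
neighbourhood of each point of `K` (the germ at `K` is zero). `α : Sing X 1 → Rˣ`, `IsTw α`: a
multiplicative cocycle. `dF α c σ = Σ (-1)^i c(∂ᵢσ)` with the `0`-th term multiplied by `α[v₀v₁]`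
(values in the fibre at the FIRST vertex), `dL α`: the last term multiplied by `α[vₙvₙ₊₁]`
(fibre at the LAST vertex). Library: `Ident.lean` (dF dF = 0, locality, `NV.split`, …),
`Helper158/PD/Abs.lean` (`HC`: complexes with supports, `good_coord`, `ex_of_local`, `glue`),
`Boot.lean` (`boot'`), and the mod 2 versions in `Helper158/PD/{Loc,Sg,Rel,Base,Top}.lean`, which are
the models to be ported.
-/

set_option autoImplicit false
set_option linter.unusedVariables false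

namespace Run7.h841.TM

open Set Topology
open Pool.Agent.Helper922.HB.Sc (Sing sface vert)
open Pool.Agent.Helper158.PD (TS sub front back pathSx)

/-! ## Part 1: local theory and duality -/

/-- **SS** (twisted small simplices; 400 lines).
Model: `ss_ext`, `nt_univ_acyclic` in `Helper158/PD/Rel.lean`, which use the chain operators
`rho 𝒞`, `DD 𝒞` of `Helper922/HB/Sc/Small.lean` (`𝒞` a family of open sets; `1 - rho = ∂ D + D ∂`,
`rho` has values in `𝒞`-small chains, `D` and `1 - rho` vanish on small simplices).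
Proof. (1) `tL α` is isomorphic to `tF α⁻¹` by `(T c)(σ) = α([v₀,vₙ])⁻¹ • c σ`, which preserves `NV`,
so it suffices to treat `tF`. (2) The chains `rho σ`, `DD σ` are of the form `σ_*(θ)`, where
`θ = θ(σ)` is a combination of (affine) simplices `τ` of `Δⁿ`. Define the twisted operator on cochains
`(ρ_α c)(σ) = Σ_τ n_τ • α(σ ∘ [v₀ → τ(v₀)]) • c(σ ∘ τ)`, where `[v₀ → τ(v₀)]` is the straight path
in `Δⁿ`; same for `D_α`. On `Δⁿ` (pulling back by `σ`) every multiplicative cocycle is `δβ` with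
`β(v) = α(σ ∘ [v₀ → v])` (cocycle identity on affine triangles), so the twisted identities at `σ`
follow from the untwisted ones applied to the cochain `τ ↦ β(τ(v₀)) • c(σ ∘ τ)` on `Δⁿ`:
`c = ρ_α c + D_α (tF c) + tF (D_α c)`. (Alternatively build the operators again from barycentric
subdivision of `Δⁿ` as in `Small.lean`.) (3) First statement: `𝒞 = {U open | c = 0 on U}`, then
`ρ_α c = 0`, `tF c = 0`, so `c = tF (D_α c)`, and `D_α c` vanishes on small simplices. Third: work in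
the subspace `B` with `𝒞 = {U | tF a = 0 on U}`, `a' = ρ_α a` on simplices in `B`. -/
def S_SS : Prop :=
  ∀ (X : Type) [TopologicalSpace X] (R A : Type) [CommRing R] [AddCommGroup A] [Module R A]
    (α : Sing X 1 → Rˣ), IsTw α →
    (∀ c : TS X → A, NV univ c → tF α c = 0 → ∃ c', NV univ c' ∧ tF α c' = c) ∧
    (∀ c : TS X → A, NV univ c → tL α c = 0 → ∃ c', NV univ c' ∧ tL α c' = c) ∧
    (∀ B : Set X, IsOpen B → ∀ a : TS X → A, NV B (tF α a) →
      ∃ a' : TS X → A, (∀ s : TS X, range s.2 ⊆ B → tF α a' s = 0) ∧ NV B (a' - a)) ∧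
    (∀ B : Set X, IsOpen B → ∀ a : TS X → A, NV B (tL α a) →
      ∃ a' : TS X → A, (∀ s : TS X, range s.2 ⊆ B → tL α a' s = 0) ∧ NV B (a' - a))

/-- **CH** (charts; 150 lines). For a closed manifold compose `chartAt` with
`PiLp.continuousLinearEquiv` (`S = univ`); for a manifold with boundary compose with the coordinates
(`S = {y | 0 ≤ y 0}`). `LocCoord`: coordinates of a chart on a closed neighbourhood (see `HC.boot`).
Completely normal: both are second countable (finitely many charts) and regular, so metrizable. -/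
def S_CH : Prop :=
  (∀ (X : Type) [TopologicalSpace X] [CompactSpace X] [T2Space X] (n : ℕ) [NeZero n]
    [ChartedSpace (EuclideanSpace ℝ (Fin n)) X],
    HasHCharts n X ∅ ∧ LocCoord X ∧ CompletelyNormalSpace X) ∧
  (∀ (X : Type) [TopologicalSpace X] [CompactSpace X] [T2Space X] (n : ℕ) [NeZero n] (B : Set X),
    F.IsManifoldWithBoundary n X B →
    HasHCharts n X B ∧ LocCoord X ∧ CompletelyNormalSpace X ∧ IsClosed B)

/-- the part of `X` with coordinates in `A` -/
def BX {X : Type} {n : ℕ} (e : PartialEquiv X (Fin n → ℝ)) (A : Set (Fin n → ℝ)) : Set X :=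
  e.source ∩ e ⁻¹' A

/-- **G1** (convex sets have the cohomology of a point; 350 lines; uses SS with `R = ℤ`, `α = 1`).
Port of `jc_*`, `contr`, `cacy_convex` of `Helper158/PD/Rel.lean`: the thickening of `A` intersected
with `S` is convex and relatively open, hence `BX e (thickening ∩ S)` is open in `X`; cone off to a
point inside `S`. Coefficients: signs now matter (`dl (cone a) = a - cone (dl a)`). -/
def S_G1 : Prop :=
  ∀ (X : Type) [TopologicalSpace X] (n : ℕ) (e : PartialEquiv X (Fin n → ℝ))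
    (S A : Set (Fin n → ℝ)), IsHChart e S → IsCompact A → Convex ℝ A → A.Nonempty →
    A ⊆ e.target → CAcy (BX e A)

/-- **G2** (algebra of relative cohomology; 350 lines). Ports of `racy_exc`, `rsph_exc`,
`racy_triple`, `rsph_conn`, `rsph_shrink`, `rsph_between`, `rsph_of_cacy`, `racy_of_cacy`
(`Helper158/PD/Rel.lean`). Two remarks for general coefficients: in `usph_exc` split `w` itself over
`ℤ` and tensor with `e`; two generators `w, w'` of the same pair satisfy `w' = r w + td b` with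
`r = ±1` (apply the uniqueness clause over `ℤ` to `r r' - 1`). -/
def S_G2 : Prop :=
  ∀ (X : Type) [TopologicalSpace X] [CompletelyNormalSpace X],
    (∀ K L : Set X, IsClosed K → IsClosed L → RAcy K (K ∩ L) → RAcy (K ∪ L) L) ∧
    (∀ (K L : Set X) (p : ℕ) (w : Sing X p → ℤ), IsClosed K → IsClosed L → USph K (K ∩ L) p w →
      ∃ w' : Sing X p → ℤ, USph (K ∪ L) L p w') ∧
    (∀ K L₁ L₂ : Set X, L₁ ⊆ L₂ → L₂ ⊆ K → RAcy K L₁ → RAcy L₂ L₁ → RAcy K L₂) ∧
    (∀ (K L₁ L₂ : Set X) (p : ℕ) (w : Sing X p → ℤ), L₁ ⊆ L₂ → L₂ ⊆ K → RAcy K L₁ →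
      USph L₂ L₁ p w → USph K L₂ (p + 1) (dl w)) ∧
    (∀ (V V' : Set X) (p : ℕ) (a w : Sing X p → ℤ), V' ⊆ V → RAcy V'ᶜ Vᶜ → USph univ Vᶜ p a →
      USph univ V'ᶜ p w → USph univ Vᶜ p w) ∧
    (∀ (V V' V'' : Set X) (p : ℕ) (a w' w'' : Sing X p → ℤ), V' ⊆ V → V'' ⊆ V' →
      USph univ Vᶜ p a → USph univ V'ᶜ p w' → USph univ V''ᶜ p w'' → USph univ Vᶜ p w'' →
      USph univ Vᶜ p w') ∧
    (∀ K : Set X, K.Nonempty → CAcy K → USph K ∅ 0 (fun _ => 1)) ∧
    (∀ K L : Set X, L ⊆ K → L.Nonempty → CAcy K → CAcy L → RAcy K L) ∧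
    (∀ (K L : Set X) (p : ℕ) (w w' : Sing X p → ℤ), L ⊆ K → USph K L p w → USph K L p w' →
      ∃ r : ℤ, (r = 1 ∨ r = -1) ∧ ∃ b : TS X → ℤ, NV L b ∧ NV K (inc w' - r • inc w - td b))

/-- a box in a chart, with compact closure in the domain of the chart -/
def IsBox {X : Type} [TopologicalSpace X] (n : ℕ) (V : Set X) : Prop :=
  ∃ (e : PartialEquiv X (Fin n → ℝ)) (S : Set (Fin n → ℝ)) (l u : Fin n → ℝ), IsHChart e S ∧
    (∀ i, l i < u i) ∧ Icc l u ⊆ e.target ∧ V = BX e (Pool.Agent.Helper158.PD.OB l u)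

/-- **G3** (boxes; 450 lines; uses G1, G2). Port of `box_acy`, `box_sph`, `box_gen`, `shrink`,
`box_gen_mono` of `Helper158/PD/Rel.lean` from `OpenPartialHomeomorph` and `F2` to `IsHChart` and
universal coefficients. Only `Icc l u ⊆ e.target` is used about the target. -/
def S_G3 : Prop :=
  ∀ (X : Type) [TopologicalSpace X] [T2Space X] [CompletelyNormalSpace X] (n : ℕ),
    (∀ (e : PartialEquiv X (Fin n → ℝ)) (S : Set (Fin n → ℝ)) (l u : Fin n → ℝ), IsHChart e S →
      l ≤ u → Icc l u ⊆ e.target → ∀ (J : Finset (Fin n × Bool)) (i : Fin n) (ε : Bool),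
      (∀ q ∈ J, q.1 ≠ i ∧ l q.1 < u q.1) →
      RAcy (BX e (Icc l u)) (BX e (Pool.Agent.Helper158.PD.Lf l u (insert (i, ε) J)))) ∧
    (∀ V : Set X, IsBox n V → ∃ w : Sing X n → ℤ, USph univ Vᶜ n w) ∧
    (∀ V V' : Set X, IsBox n V → IsBox n V' → V' ⊆ V → ∀ w : Sing X n → ℤ,
      USph univ V'ᶜ n w → USph univ Vᶜ n w)

/-- **G4** (the local geometry; 350 lines; uses G1, G2, G3).
`Bx` = all sets of one of the forms: (i) `BX e (OB l u)`, `e` a chart with `S = univ`,
`Icc l u ⊆ e.target`, source disjoint from `B`; or a box `BX e (OB l u)` in a half space chart with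
`Icc l u ⊆ e.target` (then `0 ≤ l 0`, so it does not meet `B`); (ii) half boxes `V = BX e (OB l u)`
(note: `OB l u` may leave the half space, `e` maps to it anyway), `e` a half space chart,
`l 0 < 0 < u 0`, `Icc l⁺ u ⊆ e.target` with `l⁺ = update l 0 0`. In case (ii)
`V \ B = BX e (OB l⁺ u)` is a box, `V ∩ B = {y 0 = 0}`, and `RAcy univ Vᶜ` is `racy_exc` with
`K = BX e (Icc l⁺ u)`, `L = Vᶜ`, `K ∩ L` = all facets of `K` except `y 0 = 0`, i.e. an unpaired facet
`(0, true)` and the pairs in the other directions: `box_acy`.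
Path connected / small loops contractible: the sets are homeomorphic to convex sets. `cacy`: G1 with
a point. -/
def S_GEO : Prop :=
  ∀ (X : Type) [TopologicalSpace X] [CompactSpace X] [T2Space X] [CompletelyNormalSpace X]
    (n : ℕ) [NeZero n] (B : Set X), HasHCharts n X B → ∃ Bx : Set (Set X), Geo n B Bx

/-- **FUND** (the fundamental class; 350 lines; model `dual`, `dual_acy_pt`, `Rset*`, `exists_fund`
in `Helper158/PD/{Loc,Base}.lean`).
Complex: `T k = {φ : (Sing X k → E) →ₗ[R] E | φ kills Nv univ}`, `d φ = φ ∘ dl`,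
`Z k K = {φ | ∃ U open ⊇ K, φ kills Nv (Uᶜ ∪ B)}` (so `Z univ` = functionals killing `Nv B`).
Axioms as in `Loc.lean`, extension of functionals by `Module.Injective`. Acyclic at points in
degrees `> m + 1`: `V ∈ Bx`, cocycles (mod `Nv univ`) in `Nv (V \ B)ᶜ` in those degrees are exact (by
`gen`), so a functional with zero boundary near `x` kills them, so it factors through `dl`, extend.
`R x = {φ | ∃ V ∈ Bx, x ∈ V, φ ∘ dl kills Nv (V \ B)ᶜ, ∀ e, φ (tens (o V) e) = e}`; `HC.glue`, `boot'`.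
Existence of a local functional: on the submodule `dl (Nv (V\B)ᶜ) + Nv univ + {tens (o V) e}` the
value `e` is well defined by the uniqueness clause of `USph`; extend by injectivity. -/
def S_FUND : Prop :=
  ∀ (X : Type) [TopologicalSpace X] [CompactSpace X] [T2Space X] [CompletelyNormalSpace X]
    (m : ℕ) (B : Set X) (Bx : Set (Set X)) (o : Set X → Sing X (m + 1) → ℤ)
    (R E : Type) [CommRing R] [AddCommGroup E] [Module R E] [Module.Injective R E],
    IsClosed B → Geo (m + 1) B Bx → LocCoord X → IsOri (m + 1) B Bx o →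
    ∃ I : (Sing X (m + 1) → E) →ₗ[R] E, IsFund m B Bx o I

/-- **ORIJ** (orientation from a nonzero rational functional; 300 lines; same complex as FUND, with
`R = E = ℚ`; the same person should take FUND and ORIJ).
Choose generators `w_V`; `j V = J (tens w_V 1)`. For `V' ⊆ V`: `w_V' = ± w_V + td b` (G2, last item,
after `mono`), so `|j|` depends only on the germ: it is locally constant on `X`, so constant `= c`.
If `c = 0`: `J` kills all cocycles with support in `V \ B`, so `J` is exact near every point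
(`T (m+1)`), by `HC.ex_of_local` `J = ψ ∘ dl` on `Nv B`, so `J a = ψ (dl a) = 0`, contradiction.
`o V = sign (j V) • w_V`. -/
def S_ORIJ : Prop :=
  ∀ (X : Type) [TopologicalSpace X] [CompactSpace X] [T2Space X] [CompletelyNormalSpace X]
    [PreconnectedSpace X] (m : ℕ) (B : Set X) (Bx : Set (Set X)),
    IsClosed B → Geo (m + 1) B Bx → LocCoord X →
    ∀ J : (Sing X (m + 1) → ℚ) →ₗ[ℚ] ℚ, (∀ c, Nv univ c → J c = 0) →
    (∀ c : Sing X m → ℚ, Nv B c → J (dl c) = 0) →
    ∀ a : Sing X (m + 1) → ℚ, Nv B a → Nv univ (dl a) → J a ≠ 0 →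
    ∃ o : Set X → Sing X (m + 1) → ℤ, IsOri (m + 1) B Bx o

/-- **ORI2** (orientation of a closed manifold with vanishing first cohomology mod 2; 300 lines; uses
SS). Choose generators `w_V`, and for every point `x` a set `V_x ∋ x` in `Bx`. For `x ∈ V ∩ V'` let
`ε_x(V,V') = ±1` be the sign with `w_V = ε w_V'` near `x` (through `V'' ⊆ V ∩ V'`, `x ∈ V''`); it is
locally constant in `x`. `g_V(x) = ε_x(V, V_x)`. For a path `σ` in `V`:
`z(σ) = g_V(σ0) g_V(σ1) ∈ {±1} = ZMod 2` does not depend on `V` (`ε` is constant along `σ`), `z = 0`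
on other 1-simplices. `dl z ∈ Nv univ`, so by SS `z = z' + ν` with `dl z' = 0`, `ν ∈ Nv univ`,
`z' = dl u`. Then `g_V u` is locally constant on `V`, so constant `= s_V` (`V` path connected);
`o V = s_V w_V`. -/
def S_ORI2 : Prop :=
  ∀ (X : Type) [TopologicalSpace X] [CompactSpace X] [T2Space X] [CompletelyNormalSpace X]
    (m : ℕ) (Bx : Set (Set X)), Geo (m + 1) (∅ : Set X) Bx →
    (∀ z : Sing X 1 → ZMod 2, dl z = 0 → ∃ u : Sing X 0 → ZMod 2, dl u = z) →
    ∃ o : Set X → Sing X (m + 1) → ℤ, IsOri (m + 1) ∅ Bx o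

/-- **CUP** (Leibniz rule and the duality pairing; 250 lines; port of `leibniz`, `pairing*` in
`Helper158/PD/Sg.lean` with signs). `pairing I a b = Σ_p ε_p I (a_p ∪ b_{n-p})`,
`ε_p = (-1)^{p(p+1)/2}` satisfies `pairing I a (tF α b) = pairing I (tL α a) b` if `I` kills
`dl (Nv B)` and `NV B a`. -/
def S_CUP : Prop :=
  (∀ (X : Type) [TopologicalSpace X] (R A : Type) [CommRing R] [AddCommGroup A] [Module R A]
    (α : Sing X 1 → Rˣ) (p q r : ℕ) (h : p + q = r) (a : Sing X p → A) (b : Sing X q → R),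
    dl (cup h a b) = cup (show p + 1 + q = r + 1 by omega) (dL α a) b +
      (-1 : ℤ) ^ p • cup (show p + (q + 1) = r + 1 by omega) a (dF α b)) ∧
  (∀ (X : Type) [TopologicalSpace X] (R A : Type) [CommRing R] [AddCommGroup A] [Module R A]
    (m : ℕ) (I : (Sing X (m + 1) → A) →ₗ[R] A) (B : Set X),
    (∀ c : Sing X m → A, Nv B c → I (dl c) = 0) →
    ∃ P : (TS X → A) →ₗ[R] (TS X → R) →ₗ[R] A,
      (∀ a b, P a b = ∑ p : Fin (m + 2), (-1 : ℤ) ^ ((p : ℕ) * (p + 1) / 2) •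
        I (cup (show (p : ℕ) + (m + 1 - p) = m + 1 by omega) (cp (p : ℕ) a) (cp (m + 1 - p) b))) ∧
      ∀ (α : Sing X 1 → Rˣ) (a : TS X → A) (b : TS X → R), NV B a →
        P a (tF α b) = P (tL α a) b)

/-- **DUAL** (Poincaré–Lefschetz duality; 600 lines; uses SS, CUP; model: `cone`, `cone_acy_pt*`,
`poincare` in `Helper158/PD/{Sg,Base}.lean`).
Complex `T = {a : TS X → E | NV B a} × {φ : (TS X → R) →ₗ[R] E | φ kills NV univ}`,
`d (a, φ) = (tL α a, Φ a - φ ∘ tF α)`, `Φ a b = P a b` (CUP; it kills `NV univ` since `I` does),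
`Z K = {(a, φ) | NV K a, ∃ U open ⊇ K, φ kills NV Uᶜ}`. `inter` for `a`: split `NV ((K ∪ B) ∩ (L ∪ B))`.
Local triviality: `cacy` with coefficients `Additive Rˣ` applied to `α` gives, near every `x`,
`β : X → Rˣ` with `α σ = β(σ v₀) β(σ v₁)⁻¹` for small `σ`; multiplication by `β(first vertex)` (resp.
`β(last vertex)⁻¹`) turns `tF α` (resp. `tL α`) into `td` near `x`.
Acyclic at points (all degrees; then `boot'` gives `Good 0 univ`):
 * `x ∈ B`: `NV {x} a` holds; cochains `b` with support in the half set `V` (`half`) and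
   `tF b ∈ NV univ` are `tF b'` mod `NV univ`, so `φ b = φ (tF b') = 0`; so `φ = -ψ ∘ tF` near `x`.
 * `x ∉ B`: `a = e β⁻¹ + tL a₁` near `x` (`cacy`); choose `V ∈ Bx` small, `x ∈ V ⊆ Bᶜ`, generator
   `o V`, `w = β⁻¹ • o V ⊗ 1`, so `tF w ∈ NV univ`. `φ₁ = φ - Φ a₁` has `φ₁ ∘ tF = Φ (e β⁻¹)` near
   `x`; evaluate at `w`: `0 = e`. So `φ₁ ∘ tF = 0` near `x`. With `κ = φ₁ w`,
   `φ₁ - Φ (κ β⁻¹ const)` kills all cocycles with support in `V` (they are `r w + tF b'`), so it is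
   `-ψ ∘ tF` near `x` (factor through `tF`, extend by injectivity of `E`).
Global: (inj) define `φ` on `range tF` by `φ (tF b) = Φ a b` (well defined: if `tF b ∈ NV univ` then
`b = b₀ + ν`, `tF b₀ = 0`, `ν ∈ NV univ` by SS, and `Φ a b₀ = 0` by hypothesis), extend; then
`d (a, φ) = 0`, so `(a, φ) = d (a₂, ψ)` mod `Z univ`, `a - tL a₂ ∈ NV univ` is closed, so exact in
`NV univ` (SS). (surj) extend `φ ∘ cp q` to a functional killing `NV univ` and vanishing on
`range tF`: (define it on cocycles + `NV univ`; well defined as closed elements of `NV univ` are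
`tF` of elements of `NV univ`); then `d (0, φ) = 0`, so `(0, φ) = d (a₂, ψ)`, and
`φ b = ± I (cp p a₂ ∪ b)` on cocycles; correct `a₂` by an element of `NV univ` to get `dL a = 0`. -/
def S_DUAL : Prop :=
  ∀ (X : Type) [TopologicalSpace X] [CompactSpace X] [T2Space X] [CompletelyNormalSpace X]
    (m : ℕ) (B : Set X) (Bx : Set (Set X)) (o : Set X → Sing X (m + 1) → ℤ)
    (R E : Type) [CommRing R] [AddCommGroup E] [Module R E] [Module.Injective R E]
    (I : (Sing X (m + 1) → E) →ₗ[R] E) (α : Sing X 1 → Rˣ),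
    IsClosed B → Geo (m + 1) B Bx → LocCoord X → IsOri (m + 1) B Bx o → IsFund m B Bx o I →
    IsTw α →
    (∀ (p q : ℕ) (h : p + q = m + 1) (a : Sing X p → E), Nv B a → dL α a = 0 →
      (∀ b : Sing X q → R, dF α b = 0 → I (cup h a b) = 0) →
      ∃ a' : TS X → E, NV B a' ∧ inc a = tL α a') ∧
    (∀ (q : ℕ) (φ : (Sing X q → R) →ₗ[R] E), (∀ c : TS X → R, φ (cp q (tF α c)) = 0) →
      (m + 1 < q ∧ ∀ b : Sing X q → R, dF α b = 0 → φ b = 0) ∨
      ∃ (p : ℕ) (h : p + q = m + 1) (a : Sing X p → E), Nv B a ∧ dL α a = 0 ∧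
        ∀ b : Sing X q → R, dF α b = 0 → φ b = I (cup h a b))

/-- **TAUT** (a compact manifold `M` embedded in `W` is taut; 350 lines; uses SS).
`HC` on `M`: `T = (TS W → A) × (TS M → A)`, `d (Z, u) = (tL Z, tpb i Z - tL u)`,
`Z K = {(Z, u) | NV (i '' K) Z, NV K u}`. Acyclic at points `x`: `Z = e β⁻¹ + tL Z'` near `i x`
(local triviality as in DUAL, `cacy` in `W`), so `e β⁻¹ + tL (Z'|M - u) = 0` near `x` in `M`, evaluate
at the constant 0-simplex: `e = 0`; then `u - Z'|M` is closed near `x`, so `= e' β⁻¹ + tL u'`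
(`cacy` in `M`), and `(Z, u) = d (Z' + e' β⁻¹, -u')` near `x`. `boot'`: acyclic on `M`. (T1):
`d (0, z) = 0` gives `Z'`, `u'` with `tL Z' ∈ NV B`, `z - Z'|M + tL u' ∈ NV univ`; correct `Z'` by
extensions by zero of `tL u'` and of the element `ν` of `NV univ` (`M → W` is injective on simplices,
and the extension by zero of an element of `NV univ` is in `NV B`). (T2) the same with `(Z, u)`. -/
def S_TAUT : Prop :=
  ∀ (M W : Type) [TopologicalSpace M] [TopologicalSpace W] [CompactSpace M] [CompactSpace W]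
    [T2Space W] [CompletelyNormalSpace W] (i : C(M, W)), IsEmbedding i → LocCoord M →
    (∀ x : M, CAcy ({x} : Set M)) → (∀ x : W, CAcy ({x} : Set W)) →
    ∀ (R A : Type) [CommRing R] [AddCommGroup A] [Module R A] (α : Sing W 1 → Rˣ), IsTw α →
    (∀ z : TS M → A, tL (fun σ => α (i.comp σ)) z = 0 →
      ∃ Z : TS W → A, tpb i Z = z ∧ NV (range i) (tL α Z)) ∧
    (∀ (Z : TS W → A) (u : TS M → A), NV (range i) (tL α Z) →
      tpb i Z = tL (fun σ => α (i.comp σ)) u →
      ∃ U : TS W → A, tpb i U = u ∧ NV (range i) (Z - tL α U))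

/-- **FD** (finite dimensionality; 350 lines; uses DUAL, FUND, TAUT, SS).
`V` = total cohomology `ker td / range td` (coefficients `k`), `U` = total cohomology of `NV B`.
Duality (`R = E = k`, `α = 1`, `dual_inj`, `dual_surj` in all degrees): `U ≅ V^*` if `V` is
considered in degrees `≤ m + 1`, and cocycles in degrees `> m + 1` are exact (otherwise some
functional does not vanish). The kernel of `U → V` is finite dimensional: for `B = ∅` it is `0`; in the
second case `a = td c`, `c|M` is closed, `a ↦ [c|M] ∈ H(M) / im H(X)` is well defined and injective by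
TAUT (T2). So `rank V^* ≤ rank V + finite`, so `V` is finite dimensional (`lift_rank_lt_rank_dual`). -/
def S_FD : Prop :=
  (∀ (X : Type) [TopologicalSpace X] [CompactSpace X] [T2Space X] [CompletelyNormalSpace X]
    (m : ℕ) (Bx : Set (Set X)) (o : Set X → Sing X (m + 1) → ℤ) (k : Type) [Field k],
    Geo (m + 1) (∅ : Set X) Bx → LocCoord X → IsOri (m + 1) ∅ Bx o →
    (∀ p, Module.Finite k (Hg (fun i => dFₗ (A := k) (1 : Sing X 1 → kˣ) i) p)) ∧
    (∀ p, m + 1 < p → ∀ z : Sing X p → k, dl z = 0 → ∃ u : TS X → k, inc z = td u)) ∧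
  (∀ (M X : Type) [TopologicalSpace M] [TopologicalSpace X] [CompactSpace M] [CompactSpace X]
    [T2Space X] [CompletelyNormalSpace X] (i : C(M, X)) (m : ℕ) (Bx : Set (Set X))
    (o : Set X → Sing X (m + 1) → ℤ) (k : Type) [Field k],
    IsEmbedding i → LocCoord M → (∀ x : M, CAcy ({x} : Set M)) →
    Geo (m + 1) (range i) Bx → LocCoord X → IsOri (m + 1) (range i) Bx o →
    (∀ p, Module.Finite k (Hg (fun i => dFₗ (A := k) (1 : Sing M 1 → kˣ) i) p)) →
    (∀ p, m + 1 < p → ∀ z : Sing M p → k, dl z = 0 → ∃ u : TS M → k, inc z = td u) →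
    (∀ p, Module.Finite k (Hg (fun i => dFₗ (A := k) (1 : Sing X 1 → kˣ) i) p)) ∧
    (∀ p, m + 1 < p → ∀ z : Sing X p → k, dl z = 0 → ∃ u : TS X → k, inc z = td u))

/-! ## Part 2: algebra (no topology) -/

/-- **EC** (Euler characteristic of a complete complex; 400 lines).
Write `C = (S i → O)`, `H^i = H^i(C)`, `h_i = dim H^i(C/π)`. Exact:
`0 → H^i/π → H^i(C/π) → H^{i+1}[π] → 0` (if `dk z̄ = 0`, lift `z̄` to `z`, `d z = π w`, `w` closed,
`π [w] = 0`). So `H^i/π` is finite. `H^i` is generated by lifts `g_j` of generators of `H^i/π`: a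
cocycle `z = Σ a_j g_j + d c + π z'`, `z'` a cocycle (as `π z'` is and `C` is torsion free), iterate,
sum the series pointwise by completeness. `H^i` is finitely generated over the PID `O`, so
`dim H^i/π = r_i + t_i`, `dim H^i[π] = t_i` (`r_i` = rank, `t_i` = number of cyclic `π`-torsion
summands; note `H^i` has no prime-to-`π` torsion as `O` is local: every element with `red ≠ 0` is a
unit by completeness; or use: for a f.g. module `H`, `dim H/π - dim H[π] = rank H`, by additivity on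
`0 → F' → F → H → 0` with `F` free). So `h_i = r_i + t_i + t_{i+1}`, `t_0 = 0` (`H^0 ⊆ C^0` torsion
free), `t_{N+1} = 0`. -/
def S_EC : Prop :=
  ∀ (O k : Type) [CommRing O] [IsDomain O] [IsPrincipalIdealRing O] [Field k] (π : O)
    (red : O →+* k), Function.Surjective red → (∀ x, red x = 0 ↔ π ∣ x) → π ≠ 0 →
    (∀ x : O, (∀ n : ℕ, π ^ n ∣ x) → x = 0) →
    (∀ f : ℕ → O, ∃ s : O, ∀ n : ℕ, π ^ n ∣ s - ∑ i ∈ Finset.range n, π ^ i * f i) →
    ∀ (S : ℕ → Type) (d : ∀ i, (S i → O) →ₗ[O] (S (i + 1) → O))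
      (dk : ∀ i, (S i → k) →ₗ[k] (S (i + 1) → k)),
    (∀ i c, d (i + 1) (d i c) = 0) →
    (∀ i (c : S i → O) s, red (d i c s) = dk i (fun t => red (c t)) s) →
    (∀ i, Module.Finite k (Hg dk i)) →
    ∀ N : ℕ, (∀ i, N < i → Subsingleton (Hg dk i)) →
    (∀ i, Module.Finite O (Hg d i)) ∧ (∀ i, N < i → Subsingleton (Hg d i)) ∧
    ∑ i ∈ Finset.range (N + 1), (-1 : ℤ) ^ i * (Module.finrank O (Hg d i) : ℤ) =
      ∑ i ∈ Finset.range (N + 1), (-1 : ℤ) ^ i * (Module.finrank k (Hg dk i) : ℤ)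

/-- **SETUP** (the ring `O = ℤ_p[ζ]`, `ζ` a primitive root of unity of order `p ^ k`; 350 lines).
`O = AdjoinRoot (cyclotomic (p^k) ℤ_[p])`, free over `ℤ_[p]` of rank `φ(p^k)`. Domain: the
polynomial is irreducible (Eisenstein after `X ↦ X + 1`:
`cyclotomic_prime_pow_comp_X_add_one_isEisensteinAt` over `ℤ`, mapped to `ℤ_[p]`). `π = ζ - 1`.
`O/π = ℤ_[p][X]/(Φ, X - 1) = ℤ_[p]/Φ(1) = ℤ_[p]/p = ZMod p`. `π^φ ∈ p O` (since `Φ ≡ (X-1)^φ` mod
`p`) and `p ∈ π O`. Complete: `ℤ_[p]` is complete and `O` is free of finite rank. Every nonzero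
element is `π^n` times a unit (elements with `red ≠ 0` are units by completeness), so principal. -/
def S_SETUP : Prop :=
  ∀ (p : ℕ) [Fact p.Prime] (k : ℕ), 0 < k →
    ∃ (O : Type) (_ : CommRing O) (_ : IsDomain O) (_ : IsPrincipalIdealRing O) (_ : CharZero O)
      (π : O) (ζ : Oˣ) (red : O →+* ZMod p),
      IsPrimitiveRoot ζ (p ^ k) ∧ red ζ = 1 ∧ (∀ x, red x = 0 ↔ π ∣ x) ∧ π ≠ 0 ∧
      (∀ x : O, (∀ n : ℕ, π ^ n ∣ x) → x = 0) ∧
      (∀ f : ℕ → O, ∃ s : O, ∀ n : ℕ, π ^ n ∣ s - ∑ i ∈ Finset.range n, π ^ i * f i)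

/-- **INJ** (injective modules; 120 lines): Baer's criterion, divisible modules over a PID
(`Module.Baer.injective`, `Module.Baer.of_divisible`, …). -/
def S_INJ : Prop :=
  Module.Injective ℤ QZ ∧
  (∀ (k : Type) [Field k], Module.Injective k k) ∧
  (∀ (O : Type) [CommRing O] [IsDomain O] [IsPrincipalIdealRing O],
    Module.Injective O (FractionRing O))

/-- **THA** (Theorem A for all fields and all primitive roots; helper841, from `ThmA.lean`). -/
def S_THA : Prop :=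
  ∀ (G : Type) [Group G] [Group.FG G] [Finite (Abelianization G)] (p : ℕ) [Fact p.Prime] (g : G),
    p ∣ orderOf (Abelianization.of g) →
    ∃ (k : ℕ) (n : G →* Multiplicative (ZMod (p ^ k))), 0 < k ∧ n g ≠ 1 ∧
      ∀ (K : Type) [Field K] [CharZero K] (ζ : Kˣ), IsPrimitiveRoot ζ (p ^ k) →
        ∀ f : G → K, (∀ x y, f (x * y) = f x + ((ζ ^ (Multiplicative.toAdd (n x)).val : Kˣ) : K) *
          f y) → ∃ c : K, ∀ x, f x = (((ζ ^ (Multiplicative.toAdd (n x)).val : Kˣ) : K) - 1) * c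

/-- **FAB** (finite abelianisation; 80 lines): a finitely generated abelian group without nonzero
homomorphisms to `ℚ` is finite. -/
def S_FAB : Prop :=
  ∀ (G : Type) [Group G] [Group.FG G], (∀ f : G →* Multiplicative ℚ, f = 1) →
    Finite (Abelianization G)

/-! ## Part 3: fundamental group -/

/-- **PI1** (the fundamental group of a compact locally nice space is finitely generated; 350 lines).
Cover `X` by finitely many `V_j ∈ Bx`. By compactness (Lebesgue number for a uniformity of the compact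
Hausdorff space, or a star refinement built by hand) there is a finite cover by `U_a ∈ Bx` such that
for `U_a ∩ U_b ≠ ∅` the union `U_a ∪ U_b` lies in some `V_j`. Choose `x_a ∈ U_a`, and for
`U_a ∩ U_b ≠ ∅` a path `e_ab` from `x_a` to `x_b` in `U_a ∪ U_b`, and paths `p_a` from `x₀` to `x_a`.
The finitely many classes `p_a e_ab p_b⁻¹` generate (together with the `p_a c`, `c` a path in `U_a`
from `x_a` to `x₀`, for one `a` with `x₀ ∈ U_a`): subdivide a loop `γ` such that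
`γ [t_i, t_{i+1}] ⊆ U_{a_i}`, choose paths `c_i` in `U_{a_i}` from `x_{a_i}` to `γ(t_i)`; the loops
`e_{a_i a_{i+1}} c_{i+1} γ_i⁻¹ c_i⁻¹` lie in some `V_j`, so are null homotopic. -/
def S_PI1 : Prop :=
  ∀ (X : Type) [TopologicalSpace X] [CompactSpace X] [T2Space X] [PathConnectedSpace X]
    (Bx : Set (Set X)), (∀ V ∈ Bx, IsOpen V) → (∀ V ∈ Bx, IsPathConnected V) →
    (∀ (x : X) (U : Set X), IsOpen U → x ∈ U → ∃ V ∈ Bx, x ∈ V ∧ V ⊆ U) →
    (∀ V ∈ Bx, ∀ x ∈ V, ∀ γ : Path x x, range γ ⊆ V → γ.Homotopic (Path.refl x)) →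
    ∀ x₀ : X, Group.FG (FundamentalGroup X x₀)

/-- **PI2** (cohomology in degree one and the fundamental group; 250 lines). `c` = `exists_label`
(`Helper158/PD/Top.lean`) with `MulEquiv.refl`. Twisted case (the untwisted case is `ρ = 1` over
`ℤ`): a cocycle satisfies `z(γη) = z(γ) + α(γ) z(η)` (`exists_tri`) and is homotopy invariant
(`exists_sq`). Choose paths `p_x` from `x₀` to `x` and put `u₀(x) = z(p_x)` normalised:
`f(g) = z(γ)` for a loop `γ` with `c γ = g` is well defined and a crossed homomorphism; with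
`c(p_x) =: g_x`, `z(σ) - f(c σ)` is computed from `f(c(p_x σ p_y⁻¹)) = …`: it is `dF u` with
`u(x) = ρ(g_x)⁻¹ (f(g_x) - z(p_x))` up to sign. -/
def S_PI2 : Prop :=
  ∀ (X : Type) [TopologicalSpace X] [PathConnectedSpace X] (x₀ : X),
    ∃ c : Sing X 1 → FundamentalGroup X x₀,
      (∀ τ : Sing X 2, c (sface 1 1 τ) = c (sface 1 2 τ) * c (sface 1 0 τ)) ∧
      (∀ g, ∃ γ : Path x₀ x₀, c (pathSx γ) = g) ∧
      (∀ (A : Type) [AddCommGroup A] (z : Sing X 1 → A), dl z = 0 →
        ∃ (f : FundamentalGroup X x₀ →* Multiplicative A) (u : Sing X 0 → A),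
          ∀ σ, z σ = Multiplicative.toAdd (f (c σ)) + dl u σ) ∧
      (∀ (R A : Type) [CommRing R] [AddCommGroup A] [Module R A]
        (ρ : FundamentalGroup X x₀ →* Rˣ) (z : Sing X 1 → A),
        dF (fun σ => ρ (c σ)) z = 0 →
        ∃ (f : FundamentalGroup X x₀ → A) (u : Sing X 0 → A),
          (∀ x y, f (x * y) = f x + ((ρ x : Rˣ) : R) • f y) ∧
          ∀ σ, z σ = f (c σ) + dF (fun σ => ρ (c σ)) u σ)

/-! ## Part 4: homology and cohomology -/

/-- **HOM** (universal coefficients over `ℚ`; 300 lines). `C^n(X; A) = Hom_ℚ(C_n(X; ℚ), A)`, and every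
subspace has a complement. -/
def S_HOM : Prop :=
  (∀ (X : Type) [TopologicalSpace X] (n : ℕ), Module.rank ℚ (F.RatH X (n + 1)) = 0 →
    ∀ (A : Type) [AddCommGroup A] [Module ℚ A] (z : Sing X (n + 1) → A), dl z = 0 →
      ∃ u : Sing X n → A, dl u = z) ∧
  (∀ (X : Type) [TopologicalSpace X] (n : ℕ),
    (∀ z : Sing X (n + 1) → ℚ, dl z = 0 → ∃ u : Sing X n → ℚ, dl u = z) →
    Module.rank ℚ (F.RatH X (n + 1)) = 0) ∧
  (∀ (X : Type) [TopologicalSpace X] (n : ℕ) (J : (Sing X (n + 1) → ℚ) →ₗ[ℚ] ℚ),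
    (∀ u : Sing X n → ℚ, J (dl u) = 0) → (∃ z : Sing X (n + 1) → ℚ, dl z = 0 ∧ J z ≠ 0) →
    (∀ z : Sing X (n + 1) → ℚ, dl z = 0 → J z = 0 → ∃ u : Sing X n → ℚ, dl u = z) →
    Module.rank ℚ (F.RatH X (n + 1)) = 1) ∧
  (∀ (X : Type) [TopologicalSpace X] (n : ℕ), Module.rank ℚ (F.RatH X (n + 1)) = 1 →
    ∃ z : Sing X (n + 1) → ℚ, dl z = 0 ∧ ∀ u : Sing X n → ℚ, dl u ≠ z) ∧
  (∀ (X : Type) [TopologicalSpace X], PathConnectedSpace X ↔ Module.rank ℚ (F.RatH X 0) = 1)

/-- **LZ** (the linking relation is bilinear; 200 lines).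
`cob (a ∪ b) = cob a ∪ b ± a ∪ cob b` (CUP with `R = A = ℚ`, `α = 1`; `F.cob = dl`,
`F.cup12 a b = cup a b`). (a) additive in both variables. (b) If `a = cob u + integral` and `cob b` is
integral then `a ∪ cob b = cob (u ∪ cob b) + integral`. (c) If `b = cob v + n`, `n` integral, `cob a`
integral: `a ∪ cob b = a ∪ cob n = -cob (a ∪ n) + cob a ∪ n`. -/
def S_LZ : Prop :=
  ∀ (X : Type) [TopologicalSpace X],
    (∀ a a' b : Sing X 1 → ℚ, F.LinkZero a b → F.LinkZero a' b → F.LinkZero (a + a') b) ∧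
    (∀ a b b' : Sing X 1 → ℚ, F.LinkZero a b → F.LinkZero a b' → F.LinkZero a (b + b')) ∧
    (∀ a b : Sing X 1 → ℚ, F.LinkZero a b → F.LinkZero (-a) b ∧ F.LinkZero a (-b)) ∧
    (∀ a b : Sing X 1 → ℚ, b ∈ F.Z1QZ X →
      (∃ u : Sing X 0 → ℚ, ∀ σ, F.IsInt (a σ - dl u σ)) → F.LinkZero a b) ∧
    (∀ a b : Sing X 1 → ℚ, a ∈ F.Z1QZ X →
      (∃ u : Sing X 0 → ℚ, ∀ σ, F.IsInt (b σ - dl u σ)) → F.LinkZero a b)

/-! ## Part 5: the bounding manifold -/

/-- the situation: `M` is the boundary of the oriented 4-manifold `W`; rational cohomology -/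
structure WCtx (M W : Type) [TopologicalSpace M] [TopologicalSpace W] (i : C(M, W))
    (Bx : Set (Set W)) (o : Set W → Sing W 4 → ℤ) : Prop where
  emb : IsEmbedding i
  pcM : PathConnectedSpace M
  pcW : PathConnectedSpace W
  locM : LocCoord M
  locW : LocCoord W
  cacyM : ∀ x : M, CAcy ({x} : Set M)
  geo : Geo 4 (range i) Bx
  ori : IsOri 4 (range i) Bx o
  hW : ∀ (n : ℕ) (A : Type) [AddCommGroup A] [Module ℚ A] (z : Sing W (n + 1) → A), dl z = 0 →
    ∃ u : Sing W n → A, dl u = z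
  hM : ∀ (n : ℕ), n < 2 → ∀ (A : Type) [AddCommGroup A] [Module ℚ A] (z : Sing M (n + 1) → A),
    dl z = 0 → ∃ u : Sing M n → A, dl u = z

/-- **ORIW** (orientation of `W`; 200 lines; uses SS, TAUT, ORIJ). `z ∈ Z³(M; ℚ)` not exact, extend
it to `Z` on `W` with `dl Z ∈ Nv B` (TAUT). `a = dl Z`. If `a = dl c + ν`, `c ∈ Nv B`,
`ν ∈ Nv univ` then (SS) `ν = dl ν'`, `Z - c - ν'` is closed, so exact (`H³(W; ℚ) = 0`), restrict to
`M`: `z = dl u` (restrictions of elements of `Nv univ` are in `Nv univ`, closed ones are exact by SS),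
contradiction. So there is a functional `J` on `C⁴(W; ℚ)` killing `dl (Nv B) + Nv univ` with
`J a ≠ 0`; ORIJ. -/
def S_ORIW : Prop :=
  ∀ (M W : Type) [TopologicalSpace M] [TopologicalSpace W] [CompactSpace M] [CompactSpace W]
    [T2Space W] [CompletelyNormalSpace W] [PathConnectedSpace W] (i : C(M, W))
    (Bx : Set (Set W)), IsEmbedding i → LocCoord M → LocCoord W →
    (∀ x : M, CAcy ({x} : Set M)) → Geo 4 (range i) Bx →
    (∃ z : Sing M 3 → ℚ, dl z = 0 ∧ ∀ u : Sing M 2 → ℚ, dl u ≠ z) →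
    (∀ z : Sing W 3 → ℚ, dl z = 0 → ∃ u : Sing W 2 → ℚ, dl u = z) →
    ∃ o : Set W → Sing W 4 → ℤ, IsOri 4 (range i) Bx o

/-- **EX** (some character of `W` is nontrivial on `M`; 300 lines; uses SS, TAUT, FUND, DUAL, INJ,
CUP). Suppose all `y ∈ Z¹(W; ℚ/ℤ)` are exact on `M`. Let `x ∈ Z¹(M; ℚ/ℤ)`; extend it (TAUT) to `X`
on `W` with `δX ∈ Nv B`. For `c ∈ Z²(W; ℤ)`: `c = δe`, `e` rational (`H²(W; ℚ) = 0`), `y = e mod ℤ` is
a cocycle, so `y|M = δv`, `v` with values in `ℚ/ℤ`, lift `v` to `ṽ : M → ℚ`; `e|M - δṽ` is integral.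
Extend `ṽ` to `W` by TAUT/by zero: replacing `e` by `e - δṽ` we get `c = δe`, `e|M` integral, so
`c|M = δn`, `n` integral, extend `n` to `W`: `c' = c - δn` vanishes on `M`, so by TAUT (T2) (integral)
`c' = δU + c''`, `c'' ∈ Nv B`. Then `I(δX ∪ c)`: `δX ∪ δ(n+U) = ±δ(δX ∪ (n+U))` has integral `0` as
`δX ∪ … ∈ Nv B`; `δX ∪ c'' = δ(X ∪ c'')` and `X ∪ c'' ∈ Nv B`: `0`. So by DUAL (inj) with
`(R,E) = (ℤ, ℚ/ℤ)`, `δX = δX'` with `X' ∈ Nv B`, so `X - X'` is a cocycle which restricts to `x` up to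
`Nv univ`-closed = exact. By assumption `x` is exact. -/
def S_EX : Prop :=
  ∀ (M W : Type) [TopologicalSpace M] [TopologicalSpace W] [CompactSpace M] [CompactSpace W]
    [T2Space W] [CompletelyNormalSpace W] (i : C(M, W)) (Bx : Set (Set W))
    (o : Set W → Sing W 4 → ℤ), WCtx M W i Bx o →
    (∃ z : Sing M 1 → QZ, dl z = 0 ∧ ∀ u : Sing M 0 → QZ, dl u ≠ z) →
    ∃ y : Sing W 1 → QZ, dl y = 0 ∧ ∀ u : Sing M 0 → QZ, dl u ≠ pb i y

/-- **ISO** (isotropy; 200 lines; uses FUND, DUAL, INJ, CUP). `H⁴(W; ℤ) = 0`: for `b ∈ Z⁴(W; ℤ)` not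
exact there is a functional `φ : C⁴(W; ℤ) → ℚ/ℤ` killing coboundaries with `φ b ≠ 0`
(`CharacterModule`); DUAL (surj): `φ b = I(a ∪ b)` with `a ∈ Z⁰`, `a ∈ Nv B`, so `a = 0` (`W` path
connected, `range i` nonempty). For `y ∈ Z1QZ W`: `δy ∪ δy ∈ Z⁴(W; ℤ)`, `= δg`, `g` integral;
`y ∪ δy - g` is a rational cocycle of degree 3, so `= δe`. -/
def S_ISO : Prop :=
  ∀ (M W : Type) [TopologicalSpace M] [TopologicalSpace W] [CompactSpace M] [CompactSpace W]
    [T2Space W] [CompletelyNormalSpace W] (i : C(M, W)) (Bx : Set (Set W))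
    (o : Set W → Sing W 4 → ℤ), WCtx M W i Bx o →
    ∀ y : Sing W 1 → ℚ, y ∈ F.Z1QZ W → F.LinkZero y y

/-- **EUL** (the rank argument; 500 lines; uses SS, TAUT, FUND, DUAL, FD, EC, INJ, CUP, ORIJ).
`K = FractionRing O`. `r_j(α)` = rank over `O` of `H^j` of `dF α` on `O`-valued cochains.
By FD (for `M`, oriented by ORIJ with a non exact rational 3-cocycle, and `W`) with
`k = ZMod p` and EC (with `N = 4`, `dF α` reduces to `dl` mod `π`) all are finitely generated and
`Σ (-1)^j r_j(α) = χ(W; k) = Σ (-1)^j r_j(1)`.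
(1) `r_0(1) = 1`; `r_j(1) = 0` for `j ≥ 1`: every `O`-linear `φ : Z^j → K` killing coboundaries
vanishes: it extends to all cochains (INJ); DUAL (surj): `φ = I(a ∪ ·)`, `a ∈ Z^{4-j}(W; K)`,
`a ∈ Nv B`; if `4 - j ≥ 1`: `a = δu` (`hW`), `u|M` is a cocycle of degree `3 - j ≤ 2`; in degree 1, 2
it is exact (`hM`), in degree 0 constant: subtract a cochain of `W` so that `u|M = 0`, and then by TAUT
(T2) `u` may be changed by a cocycle-free correction to be in `Nv B` (apply T2 to `(a, u|M)`), so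
`a = δu'`, `u' ∈ Nv B`, `I(a ∪ b) = ± I(δ(u' ∪ b)) = 0`. `4 - j = 0`: `a = 0`. A f.g. module with
`Hom(·, K) = 0` has rank 0.
(2) For `α`: `r_0 = 0` (no flat sections on `M`, `M` nonempty, `W` path connected);
`r_1 = 0`: `z = dF u`, `u` with values in `K` (hypothesis); multiply by a denominator of `u(x₀)`: then
all values of `u` are in `O` (`u(y) = α(path)⁻¹ (…)`), so `z` is torsion;
`r_3 = 0`: `φ = I(a ∪ ·)`, `a ∈ Z¹_L ∩ Nv B`, `a = dL u`, `u` is flat near `B`, `u|M` is flat, so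
`u|M = 0`, so `u ∈ Nv B` (`W` locally path connected), so `φ = 0`; `r_4 = 0`: `a` flat, `0` near `B`,
so `0`; `r_j = 0` for `j > 4`. So `r_2 = 1`.
(3) `z₁, z₂` on `M`: extend to `Z_j` with `a_j = dL Z_j ∈ Nv B` (TAUT); `φ_j = I(a_j ∪ ·)` on
`H²(dF α; O)` of rank 1: `s φ₁ + t φ₂ = 0`, `(s,t) ≠ 0`; DUAL (inj): `s a₁ + t a₂ = dL a'`,
`a' ∈ Nv B`, `s Z₁ + t Z₂ - a'` is closed on `W`, so `= dL u`; restrict to `M` (elements of `Nv univ`
which are closed in degree 1 are 0 by SS). -/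
def S_EUL : Prop :=
  ∀ (M W : Type) [TopologicalSpace M] [TopologicalSpace W] [CompactSpace M] [CompactSpace W]
    [T2Space W] [CompletelyNormalSpace W] (i : C(M, W)) (Bx : Set (Set W))
    (o : Set W → Sing W 4 → ℤ) (BM : Set (Set M)), WCtx M W i Bx o → Geo 3 (∅ : Set M) BM →
    (∃ z : Sing M 3 → ℚ, dl z = 0 ∧ ∀ u : Sing M 2 → ℚ, dl u ≠ z) →
    ∀ (p : ℕ) [Fact p.Prime] (O : Type) [CommRing O] [IsDomain O] [IsPrincipalIdealRing O]
      [CharZero O] (π : O) (red : O →+* ZMod p), (∀ x, red x = 0 ↔ π ∣ x) → π ≠ 0 →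
      (∀ x : O, (∀ n : ℕ, π ^ n ∣ x) → x = 0) →
      (∀ f : ℕ → O, ∃ s : O, ∀ n : ℕ, π ^ n ∣ s - ∑ i ∈ Finset.range n, π ^ i * f i) →
    ∀ α : Sing W 1 → Oˣ, IsTw α → (∀ σ, red (α σ) = 1) →
      (∀ v : Sing M 0 → FractionRing O, dL (fun σ => α (i.comp σ)) v = 0 → v = 0) →
      (∀ z : Sing W 1 → FractionRing O, dL α z = 0 → ∃ u : Sing W 0 → FractionRing O,
        z = dL α u) →
      (∀ z : Sing W 1 → FractionRing O, dF α z = 0 → ∃ u : Sing W 0 → FractionRing O,
        z = dF α u) →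
    ∀ z₁ z₂ : Sing M 1 → FractionRing O, dL (fun σ => α (i.comp σ)) z₁ = 0 →
      dL (fun σ => α (i.comp σ)) z₂ = 0 →
      ∃ (s t : FractionRing O) (u : Sing M 0 → FractionRing O), (s ≠ 0 ∨ t ≠ 0) ∧
        s • z₁ + t • z₂ = dL (fun σ => α (i.comp σ)) u

/-- **WW** (what a bounding rational ball gives; helper841, from all of the above). -/
def S_WW : Prop :=
  ∀ (M : Type) [TopologicalSpace M] [CompactSpace M] [T2Space M] [PathConnectedSpace M]
    [ChartedSpace (EuclideanSpace ℝ (Fin 3)) M], F.IsRatSphere3 M →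
    (∀ z : Sing M 1 → QZ, dl z = 0 → ∃ u : Sing M 0 → QZ, dl u = (3 : ℤ) • z) →
    (∃ z : Sing M 1 → QZ, dl z = 0 ∧ ∀ u : Sing M 0 → QZ, dl u ≠ z) →
    ∀ (W : Type) [TopologicalSpace W] [CompactSpace W] [T2Space W] (i : M → W),
      IsEmbedding i → F.IsManifoldWithBoundary 4 W (range i) → F.IsRatBall W →
      ∃ (K : Type) (_ : Field K) (ζ : Kˣ) (x : Sing M 1 → ZMod 3), ζ ^ 3 = 1 ∧ ζ ≠ 1 ∧
        dl x = 0 ∧ (∀ u : Sing M 0 → ZMod 3, dl u ≠ x) ∧
        F.LinkZero (fun σ => ((x σ).val : ℚ) / 3) (fun σ => ((x σ).val : ℚ) / 3) ∧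
        ∀ z₁ z₂ : Sing M 1 → K, dL (expo ζ x) z₁ = 0 → dL (expo ζ x) z₂ = 0 →
          ∃ (s t : K) (u : Sing M 0 → K), (s ≠ 0 ∨ t ≠ 0) ∧
            s • z₁ + t • z₂ = dL (expo ζ x) u

/-! ## Part 6: the 3-manifold `M = #⁴ L(3,1)` -/

/-- **H1** (degree one on open sets; 400 lines; uses SS).
(1) `z = δu` on `U`, `δv` on `V`; `u - v` is constant along paths in `U ∩ V`, so constant; adjust `v`;
`w` = `u` on `U`, `v` on `V`; `z - δw` vanishes on small simplices of `U ∪ V` and is closed there, so it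
vanishes on `U ∪ V` (subdivide the path; or SS in the subspace: closed elements of `NV univ` of degree
1 are `δ` of elements of `NV univ` of degree 0, which are 0).
(2) star shaped sets: cone (explicit `u(x) = z(segment)`; a cocycle on the affine triangle / the cone
of a path); `ℝ³ \ 0 = (ℝ³ \ ray₊) ∪ (ℝ³ \ ray₋)`, both star shaped, intersection `ℝ³ \ line` path
connected (`isPathConnected_compl_of_one_lt_rank`); `ℝ³ ∪ ∞ = ℝ³ ∪ (complement of 0)`, the second is
homeomorphic to `ℝ³` by `sinv`.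
(3) `D = range e`. `z` is exact on `D \ {e 0} ≅ ℝ³ \ 0`: `z = δv`; extend `v` by zero to `X`,
`z₁ = z - δv` vanishes on simplices in `D \ {e 0}`; let `z₂ = z₁` on simplices in `U \ {e 0}` and `0`
otherwise. It is closed on small simplices of `U` (cover `U \ {e 0}`, `D`), so by SS there is `z'`
closed on `U` with `z' - z₂ ∈ Nv U`; on `U \ {e 0}` it is closed and in `Nv`, so zero. -/
def S_H1 : Prop :=
  (∀ (X : Type) [TopologicalSpace X] (A : Type) [AddCommGroup A] (U V : Set X), IsOpen U →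
    IsOpen V → (U ∩ V = ∅ ∨ IsPathConnected (U ∩ V)) → ∀ z : Sing X 1 → A, ClOn (U ∪ V) z →
    ExOn U z → ExOn V z → ExOn (U ∪ V) z) ∧
  H1z (univ : Set E3) ∧ H1z {x : E3 | x ≠ 0} ∧ H1z (univ : Set (OnePoint E3)) ∧
  (∀ (X : Type) [TopologicalSpace X] [T2Space X] (A : Type) [AddCommGroup A] (U : Set X)
    (e : E3 → X), IsOpen U → IsOpenEmbedding e → range e ⊆ U →
    ∀ z : Sing X 1 → A, ClOn (U \ {e 0}) z → ∃ z' : Sing X 1 → A, ClOn U z' ∧
      ExOn (U \ {e 0}) (z - z'))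

/-- **NA** (the lens space `N = L(3,1) = S³/μ₃`; 500 lines; uses H1).
`S³` = unit sphere of `EuclideanSpace ℂ (Fin 2)` or of `ℂ × ℂ`, `μ₃` acts by scalar multiplication,
freely; `N` = orbit space: compact, T2, the projection `q` is a covering; charts: local inverse of `q`
followed by a chart of `S³` (stereographic projection). `ℓ`: a small ball in a chart, rescaled to `ℝ³`.
Path connected complement: `S³` minus three points is path connected (codimension `> 1`).
`ξ`: choose a (discontinuous) function `g : S³ → ZMod 3` with `g(ωx) = g(x) + 1`; for a path `σ` in `N`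
with lift `σ̃`: `ξ(σ) = g(σ̃ 1) - g(σ̃ 0)`, well defined and a cocycle (lift 2-simplices).
(gen) `z ∈ Z¹(N; A)`; `q^* z = δu` on `S³` (`S³` = point ∪ `ℝ³`-like: `H¹(S³) = 0` by H1 (1) for two
stereographic charts). `u(ωx) - u(x) = a` is constant (closed 0-cochain on the connected `S³`), `3a = 0`.
`u - g.val • a` is invariant, so descends to `N`: `z = ξ.val • a + δ(…)` (careful with `.val`: use
`(ξ σ).val • a = g(σ̃1).val • a - g(σ̃0).val • a` as `3 a = 0`).
(inj) if `ξ.val • a = δu` on `N`, lift to `S³`: `g.val • a - u∘q` is constant on `S³`, compare `x` and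
`ωx`: `a = 0`. -/
def S_NA : Prop :=
  ∃ (N : Type) (_ : TopologicalSpace N) (_ : CompactSpace N) (_ : T2Space N)
    (_ : ChartedSpace (EuclideanSpace ℝ (Fin 3)) N) (ξ : Sing N 1 → ZMod 3) (ℓ : E3 → N),
    NSp N ξ ℓ

/-- **HUB** (maps between one-point compactifications; 300 lines). -/
def S_HUB : Prop :=
  (∀ (N : Type) [TopologicalSpace N] [T2Space N] (ℓ : E3 → N), IsOpenEmbedding ℓ →
    Continuous (clp ℓ) ∧ (∀ u, clp ℓ (ℓ u) = (u : OnePoint E3)) ∧
    (∀ x, x ∉ range ℓ → clp ℓ x = OnePoint.infty)) ∧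
  (∀ c : E3, IsOpenEmbedding (bet c)) ∧
  Continuous sinv ∧ (∀ x, sinv (sinv x) = x) ∧
  (∀ c : E3, range (bet c) = {x | ∃ u : E3, dist u c < 1 ∧ (u : OnePoint E3) = x}) ∧
  (∃ H : C(E3 × OnePoint E3, OnePoint E3), ∀ c x, H (c, x) = clp (bet c) x)

/-- **MA** (the connected sum is a manifold; 400 lines; uses HUB).
`MSum N ℓ` is closed in a compact T2 space. `h`, `f i`: projections. Inverse of `f i` on
`N \ {ℓ 0}`: `x ↦ (bet (c i) (sinv (clp ℓ x)), x at i, ℓ 0 elsewhere)` (note `sinv (clp ℓ x) ≠ ∞`, and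
`bet (c i) v` is in the ball around `c i`, so outside the other balls). Inverse of `h` on the complement
of the centres: `x ↦ (x, ℓ (sinv (clp (bet (c i)) x)) at i)`. Charts: the open sets `{f i ≠ ℓ 0}` and
`{h ≠ centres}` cover (if `h m = c i` then `clp ℓ (f i m) = ∞ ≠ 0`), they are homeomorphic to open
subsets of `N` and of `ℝ³ ∪ ∞` (which has charts `ℝ³` and `sinv`). -/
def S_MA : Prop :=
  ∀ (N : Type) [TopologicalSpace N] [CompactSpace N] [T2Space N]
    [ChartedSpace (EuclideanSpace ℝ (Fin 3)) N] (ℓ : E3 → N), IsOpenEmbedding ℓ →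
    CompactSpace (MSum N ℓ) ∧ T2Space (MSum N ℓ) ∧
    Nonempty (ChartedSpace (EuclideanSpace ℝ (Fin 3)) (MSum N ℓ)) ∧
    ∃ (h : C(MSum N ℓ, OnePoint E3)) (f : Fin 4 → C(MSum N ℓ, N)), HubSp N (MSum N ℓ) ℓ h f

/-- **MB** (first cohomology of the connected sum; 450 lines; uses H1, HUB, SS).
`V i = {f i ≠ ℓ 0} ≅ N \ {ℓ 0}` (by `f i`), pairwise disjoint; `V₀ = {h ∉ centres}`;
`V₀ ∩ V i` = `{h ∈ ball i \ c i}` is homeomorphic to `ℝ³ \ 0`, path connected.
`z` on `M`: on `V i` it comes from a cocycle on `N \ {ℓ 0}`, by H1 (puncture) from a cocycle on `N`,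
so (NSp.gen) it is `f i^*(ξ.val • a i)` + exact on `V i`. `f j` is constant on `V i` for `j ≠ i`, and
`ξ` vanishes on constant simplices; so `z' = z - Σ f i^* ξ.val • a i` is exact on each `V i`.
`V₀ ≅ (ℝ³ ∪ ∞) \ 4 points` by `h`: `z'` is exact on `V₀` (H1: puncture four times, then
`H1z (univ : Set (OnePoint E3))`). Glue with H1 (1): `V₀ ∪ V 0`, … (`(V₀ ∪ V 0) ∩ V 1 = V₀ ∩ V 1`).
Uniqueness: if `Σ f i^* ξ.val • a i = δu`, restrict to `V i`: `ξ.val • a i` is exact on `N \ {ℓ 0}`,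
it is exact on the ball, so exact on `N` by H1 (1), so `a i = 0`. -/
def S_MB : Prop :=
  ∀ (N M : Type) [TopologicalSpace N] [TopologicalSpace M] [CompactSpace N] [T2Space N]
    [CompactSpace M] [T2Space M] (ξ : Sing N 1 → ZMod 3) (ℓ : E3 → N)
    (h : C(M, OnePoint E3)) (f : Fin 4 → C(M, N)), NSp N ξ ℓ → HubSp N M ℓ h f →
    PathConnectedSpace M ∧
    (∀ (A : Type) [AddCommGroup A] (z : Sing M 1 → A), dl z = 0 → ∃ a : Fin 4 → A,
      (∀ i, 3 • a i = 0) ∧ ∃ u : Sing M 0 → A, ∀ σ,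
        z σ = ∑ i, (ξ ((f i).comp σ)).val • a i + dl u σ) ∧
    (∀ (A : Type) [AddCommGroup A] (a : Fin 4 → A) (u : Sing M 0 → A), (∀ i, 3 • a i = 0) →
      (∀ σ, ∑ i, (ξ ((f i).comp σ)).val • a i = dl u σ) → ∀ i, a i = 0)

/-- **MC** (two independent twisted cocycles; 400 lines; uses H1, HUB, SS; best by the person who
does MB). Notation of MB; `α = expo ζ x`. On `V₀` the cocycle `x` is exact (as in MB, coefficients
`ZMod 3`): `x = δw` on `V₀`; so `α(σ) = B(σ1) B(σ0)⁻¹` for `σ` in `V₀`, `B = ζ^w`. For `i` let `y i` be the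
cochain: `y i (σ) = B(σ1) - α(σ) B(σ0)` if `σ ⊆ V i` and `σ ⊄ V₀`; `0` if `σ ⊆ V₀` or `σ ⊄ V i` (`B`
extended by `1` outside `V₀`; note the formula gives `0` for `σ ⊆ V₀`). `dL α (y i)` vanishes on
simplices contained in `V₀` or in some `V j`, so by SS (twisted) there is a cocycle `y' i` with
`y' i - y i ∈ Nv univ`. If `Σ s i y' i = dL α v`: on `V j`: `v - s j B` is flat (`L`-flat: `g(σ1) = α(σ) g(σ0)`;
`dL α` of a 0-cochain `g` is `g(σ1) - α(σ) g(σ0)`) for `α`; if `a j ≠ 0` a flat section `g` on `V j` is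
`0`: otherwise `α(σ) = g(σ1)/g(σ0)` on `V j` (path connected), so the multiplicative cocycle
`σ ↦ ζ^{a j ξ(σ)}` is exact on `N \ {ℓ 0}`, so on `N` (H1 (1)), so `ζ^{a j} = 1` by `NSp.inj` with
`A = Additive Kˣ`, `a j = 0`. On `V₀`: `v` is flat, so `v = s B` there for a constant `s` (path
connected). So `s j = s` for all `j` with `a j ≠ 0` (compare at a point of `V₀ ∩ V j`). Take three
indices `j₁, j₂, j₃` with `a j ≠ 0`, `z₁ = y' j₁`, `z₂ = y' j₂`: coefficients `(s, t, 0)` must be equal. -/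
def S_MC : Prop :=
  ∀ (N M : Type) [TopologicalSpace N] [TopologicalSpace M] [CompactSpace N] [T2Space N]
    [CompactSpace M] [T2Space M] (ξ : Sing N 1 → ZMod 3) (ℓ : E3 → N)
    (h : C(M, OnePoint E3)) (f : Fin 4 → C(M, N)), NSp N ξ ℓ → HubSp N M ℓ h f →
    ∀ (K : Type) [Field K] (ζ : Kˣ), ζ ^ 3 = 1 → ζ ≠ 1 →
    ∀ (x : Sing M 1 → ZMod 3) (a : Fin 4 → ZMod 3) (u : Sing M 0 → ZMod 3),
      (∀ σ, x σ = ∑ i, (ξ ((f i).comp σ)) * a i + dl u σ) →
      3 ≤ (Finset.univ.filter fun i => a i ≠ 0).card →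
      ∃ z₁ z₂ : Sing M 1 → K, dL (expo ζ x) z₁ = 0 ∧ dL (expo ζ x) z₂ = 0 ∧
        ∀ (s t : K) (v : Sing M 0 → K), s • z₁ + t • z₂ = dL (expo ζ x) v → s = 0 ∧ t = 0

/-- **ME** (the maps `f i` agree on cohomology in degree three; 400 lines; uses SS, CH, GEO, ORI2,
FUND, DUAL, INJ, HUB). `N` is path connected and `H¹(N; ZMod 2) = 0` (NSp.gen), so orientable (ORI2),
`I` : fundamental class with values in `ℚ/ℤ` (FUND, `R = ℤ`). Choose `V ∈ Bx` with `ℓ 0 ∈ V`, closure
of `V` in `ℓ (ball)`, `w = o V`. For `e = I θ`: `θ - tens w e` has `I ((·) ∪ b) = 0` for all closed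
`b ∈ C⁰(N; ℤ)` (constant), so it is exact (DUAL inj). So we may assume `θ = tens w e` mod `Nv univ`.
Let `w'` on `ℝ³ ∪ ∞`: `w'(τ) = w(ℓ ∘ τ)` if `τ ⊆ ℝ³`, else `0`. Then `pb (clp ℓ) w' - w ∈ Nv univ`
(`clp ℓ ∘ σ` for `σ` in `range ℓ` is `ℓ⁻¹ ∘ σ`; near points outside `range ℓ` both vanish since `w`
vanishes outside a compact subset of `range ℓ`), and `dl w' ∈ Nv univ`; by SS correct `w'` to a cocycle
`ω` (coefficients `ℚ/ℤ`). So `θ = pb (clp ℓ) ω + dl e`. Now `clp ℓ ∘ f i = sinv ∘ clp (bet (c i)) ∘ h`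
(glue), and `clp (bet (c i))`, `clp (bet (c j))` are homotopic (HUB, last item, straight line from
`c i` to `c j`), so the pullbacks of `ω` differ by a coboundary (prism operator:
`Helper922/HB/Sc/Prism.lean`, `exists_altd_eq_pb_sub` over `ℤ`; for coefficients in a group apply
`Finsupp`/linearity in the same way). -/
def S_ME : Prop :=
  ∀ (N M : Type) [TopologicalSpace N] [TopologicalSpace M] [CompactSpace N] [T2Space N]
    [ChartedSpace (EuclideanSpace ℝ (Fin 3)) N]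
    [CompactSpace M] [T2Space M] (ξ : Sing N 1 → ZMod 3) (ℓ : E3 → N)
    (h : C(M, OnePoint E3)) (f : Fin 4 → C(M, N)), NSp N ξ ℓ → HubSp N M ℓ h f →
    ∀ (θ : Sing N 3 → QZ), dl θ = 0 → ∀ i j : Fin 4, ∃ e : Sing M 2 → QZ,
      pb (f i) θ - pb (f j) θ = dl e

/-- the basic classes of `M`, as rational cochains -/
noncomputable def xit {N M : Type} [TopologicalSpace N] [TopologicalSpace M]
    (ξ : Sing N 1 → ZMod 3) (f : Fin 4 → C(M, N)) (i : Fin 4) : Sing M 1 → ℚ :=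
  fun σ => ((ξ ((f i).comp σ)).val : ℚ) / 3

/-- **MD1** (duality on `M`; 350 lines; uses SS, CH, GEO, ORI2, FUND, DUAL, INJ, HOM, MB, LZ).
`M` is path connected, `H¹(M; ZMod 2) = 0` (MB: `3a = 0` and `2a = 0`), so oriented. `H¹(M; ℚ) = 0`
(MB). DUAL with `R = E = ℚ`: `H²(M; ℚ)`: a class pairs trivially with `H¹(M; ℚ) = 0`, so is zero (inj);
degrees `> 3`: (surj) with all functionals; degree 3: `J = I`, `H³ → ℚ` injective by (inj) with
`b ∈ H⁰` constant. HOM: `IsRatSphere3`.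
`¬ LinkZero (ξ̃₀) (ξ̃₀)`: `x = ξ̃₀ mod ℤ ∈ Z¹(M; ℚ/ℤ)` is not exact (MB). DUAL inj with
`(ℤ, ℚ/ℤ)`: there is `c ∈ Z²(M; ℤ)` with `I(x ∪ c) ≠ 0`. `H²(M; ℚ) = 0`: `c = δe`, `e mod ℤ` is a
cocycle, so (MB) `e = Σ b j ξ̃ j + δu + integral`, `b j ∈ ℤ`. `I(x ∪ δ(integral)) = 0`,
`I (x ∪ δ ξ̃ j) = 0` for `j ≠ 0` by MD2, so `I(x ∪ δξ̃₀) ≠ 0`, and so `x ∪ δξ̃₀` is not exact mod `ℤ`. -/
def S_MD1 : Prop :=
  ∀ (N M : Type) [TopologicalSpace N] [TopologicalSpace M] [CompactSpace N] [T2Space N]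
    [CompactSpace M] [T2Space M] [ChartedSpace (EuclideanSpace ℝ (Fin 3)) M]
    (ξ : Sing N 1 → ZMod 3) (ℓ : E3 → N)
    (h : C(M, OnePoint E3)) (f : Fin 4 → C(M, N)), NSp N ξ ℓ → HubSp N M ℓ h f →
    F.IsRatSphere3 M ∧ ¬ F.LinkZero (xit ξ f 0) (xit ξ f 0)

/-- **MD2** (cross terms vanish; 250 lines; uses SS, HUB). The closed unit balls around the centres
are disjoint, so every point `m` of `M` has a neighbourhood `O` which meets `V k = {f k ≠ ℓ 0}` for at
most one `k`; for `i ≠ j` one of `f i`, `f j` is constant on `O`, so `ξ̃ i ∪ δ ξ̃ j` vanishes on the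
simplices in `O` (`ξ` vanishes on constant simplices). So mod `ℤ` it is a closed cochain in `Nv univ`,
so exact (SS with coefficients `ℚ/ℤ`). -/
def S_MD2 : Prop :=
  ∀ (N M : Type) [TopologicalSpace N] [TopologicalSpace M] [CompactSpace N] [T2Space N]
    [CompactSpace M] [T2Space M]
    (ξ : Sing N 1 → ZMod 3) (ℓ : E3 → N)
    (h : C(M, OnePoint E3)) (f : Fin 4 → C(M, N)), NSp N ξ ℓ → HubSp N M ℓ h f →
    ∀ i j, i ≠ j → F.LinkZero (xit ξ f i) (xit ξ f j)

/-- **MD3** (linking form of the connected sum; 350 lines; uses MB, LZ, ME, MD1, MD2, SS).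
For `a = Σ a i ξ̃ i`, `b = Σ b i ξ̃ i` (integers), `a ∪ δb` is mod `ℤ` and exact cochains
`Σ a i b i (ξ̃ i ∪ δ ξ̃ i) = (Σ a i b i) (ξ̃₀ ∪ δξ̃₀)` (ME for `θ = ξ̃ ∪ δξ̃` on `N`, `.val/3`), and
`3 (ξ̃₀ ∪ δξ̃₀)` is integral. So `LinkZero a b ↔ 3 ∣ Σ a i b i` (MD1 for `→`). Every element of `Z1QZ M`
is `Σ a i ξ̃ i + δu + integral`, `a i ∈ ℤ` unique mod 3 (MB with `A = ℚ/ℤ`). `P` = those with
`(a i) mod 3` in the tetracode `span {(1,1,1,0), (0,1,2,1)}`, which is equal to its orthogonal complement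
(decide). -/
def S_MD3 : Prop :=
  ∀ (N M : Type) [TopologicalSpace N] [TopologicalSpace M] [CompactSpace N] [T2Space N]
    [ChartedSpace (EuclideanSpace ℝ (Fin 3)) N]
    [CompactSpace M] [T2Space M] [ChartedSpace (EuclideanSpace ℝ (Fin 3)) M]
    (ξ : Sing N 1 → ZMod 3) (ℓ : E3 → N)
    (h : C(M, OnePoint E3)) (f : Fin 4 → C(M, N)), NSp N ξ ℓ → HubSp N M ℓ h f →
    F.LinkingFormMetabolic M ∧
    ∀ (x : Sing M 1 → ZMod 3) (a : Fin 4 → ZMod 3) (u : Sing M 0 → ZMod 3),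
      (∀ σ, x σ = ∑ i, (ξ ((f i).comp σ)) * a i + dl u σ) →
      F.LinkZero (fun σ => ((x σ).val : ℚ) / 3) (fun σ => ((x σ).val : ℚ) / 3) →
      ∑ i, a i ^ 2 = 0

end Run7.h841.TM
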