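import Pool.Agent.Run7.h841.TM.Ident
import Pool.Agent.Helper158.PD.Top
import Pool.Agent.Run7.h841.FDefs

/-!
# Definitions used in the interface of the formalisation of MP_da777f_gt

See `Iface.lean` for the statements of the pieces with their proofs.
-/

set_option autoImplicit false
set_option linter.unusedVariables false

namespace Run7.h841.TM

open Set Topology
open Pool.Agent.Helper922.HB.Sc (Sing sface vert)
open Pool.Agent.Helper158.PD (TS sub front back pathSx)

/-! ### relative cohomology of pairs of closed sets, universal in the coefficient group -/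

section rel

variable {X : Type} [TopologicalSpace X]

/-- the pair `(K, L)` has trivial cohomology (all coefficient groups) -/
def RAcy (K L : Set X) : Prop :=
  ∀ (A : Type) [AddCommGroup A] (b : TS X → A), NV L b → NV K (td b) →
    ∃ b' : TS X → A, NV L b' ∧ NV K (b - td b')

/-- the cohomology of the pair `(K, L)` with coefficients `A` is `A`, generated by `w ⊗ e`, where
`w` is an integral cochain of degree `p` -/
def USph (K L : Set X) (p : ℕ) (w : Sing X p → ℤ) : Prop :=
  Nv L w ∧ Nv K (dl w) ∧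
  (∀ (A : Type) [AddCommGroup A] (e : A) (b' : TS X → A), NV L b' →
    NV K (inc (tens w e) - td b') → e = 0) ∧
  ∀ (A : Type) [AddCommGroup A] (b : TS X → A), NV L b → NV K (td b) →
    ∃ (e : A) (b' : TS X → A), NV L b' ∧ NV K (b - inc (tens w e) - td b')

/-- `K` has the cohomology of a point -/
def CAcy (K : Set X) : Prop :=
  ∀ (A : Type) [AddCommGroup A] (a : TS X → A), NV K (td a) →
    ∃ (e : A) (a' : TS X → A), NV K (a - cst e - td a')

/-- The local geometry of an `n`-manifold `X` with boundary `B`, used for duality. `Bx` is a basis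
of the topology. -/
structure Geo (n : ℕ) (B : Set X) (Bx : Set (Set X)) : Prop where
  isOpen : ∀ V ∈ Bx, IsOpen V
  pconn : ∀ V ∈ Bx, IsPathConnected V
  basis : ∀ (x : X) (U : Set X), IsOpen U → x ∈ U → ∃ V ∈ Bx, x ∈ V ∧ V ⊆ U
  gen : ∀ V ∈ Bx, ∃ w : Sing X n → ℤ, USph univ (V \ B)ᶜ n w
  mono : ∀ V ∈ Bx, ∀ V' ∈ Bx, V' ⊆ V → ∀ w : Sing X n → ℤ,
    USph univ (V' \ B)ᶜ n w → USph univ (V \ B)ᶜ n w
  half : ∀ V ∈ Bx, (V ∩ B).Nonempty → RAcy univ Vᶜ
  cacy : ∀ x : X, CAcy ({x} : Set X)
  sc : ∀ V ∈ Bx, ∀ x ∈ V, ∀ γ : Path x x, range γ ⊆ V → γ.Homotopic (Path.refl x)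

/-- every point has a closed neighbourhood on which finitely many continuous functions separate
the points (for the bootstrap principle `HC.good_coord`) -/
def LocCoord (X : Type) [TopologicalSpace X] : Prop :=
  ∀ x : X, ∃ K ∈ 𝓝 x, IsClosed K ∧ ∃ (m : ℕ) (f : Fin m → X → ℝ),
    (∀ i, ContinuousOn (f i) K) ∧ ∀ y ∈ K, ∀ z ∈ K, (∀ i, f i y = f i z) → y = z

/-- an orientation: a compatible choice of generators -/
def IsOri (n : ℕ) (B : Set X) (Bx : Set (Set X)) (o : Set X → Sing X n → ℤ) : Prop :=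
  (∀ V ∈ Bx, USph univ (V \ B)ᶜ n (o V)) ∧
  ∀ V ∈ Bx, ∀ V' ∈ Bx, V' ⊆ V → ∃ b : TS X → ℤ, NV (V \ B)ᶜ b ∧
    NV univ (inc (o V' - o V) - td b)

/-- a fundamental class of `(X, B)`, as a functional on the cochains of top degree -/
structure IsFund {R E : Type} [CommRing R] [AddCommGroup E] [Module R E] (m : ℕ) (B : Set X)
    (Bx : Set (Set X)) (o : Set X → Sing X (m + 1) → ℤ)
    (I : (Sing X (m + 1) → E) →ₗ[R] E) : Prop where
  kill : ∀ c : Sing X (m + 1) → E, Nv univ c → I c = 0
  clos : ∀ c : Sing X m → E, Nv B c → I (dl c) = 0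
  val : ∀ V ∈ Bx, ∀ e : E, I (tens (o V) e) = e

end rel

/-! ### charts -/

/-- a chart whose image is relatively open in the convex set `S` -/
structure IsHChart {X : Type} [TopologicalSpace X] {n : ℕ} (e : PartialEquiv X (Fin n → ℝ))
    (S : Set (Fin n → ℝ)) : Prop where
  open_source : IsOpen e.source
  conv : Convex ℝ S
  target : ∃ O : Set (Fin n → ℝ), IsOpen O ∧ e.target = O ∩ S
  cont : ContinuousOn e e.source
  cont_symm : ContinuousOn e.symm e.target

/-- charts of an `n`-manifold with boundary `B`: the image is open in `ℝⁿ` and does not meet the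
boundary, or the image is relatively open in the half space and the boundary corresponds to
`y 0 = 0` -/
def HasHCharts (n : ℕ) [NeZero n] (X : Type) [TopologicalSpace X] (B : Set X) : Prop :=
  ∀ x : X, ∃ (e : PartialEquiv X (Fin n → ℝ)) (S : Set (Fin n → ℝ)), IsHChart e S ∧
    x ∈ e.source ∧ ((S = univ ∧ e.source ∩ B = ∅) ∨
      (S = {y | 0 ≤ y 0} ∧ ∀ y ∈ e.source, (y ∈ B ↔ e y 0 = 0)))

/-! ### cohomology modules of a complex given by linear maps -/

section coh

variable {R : Type} [CommRing R] {C : ℕ → Type} [∀ i, AddCommGroup (C i)] [∀ i, Module R (C i)]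

/-- coboundaries -/
def Bg (d : ∀ i, C i →ₗ[R] C (i + 1)) : ∀ i, Submodule R (C i)
  | 0 => ⊥
  | i + 1 => LinearMap.range (d i)

/-- cohomology -/
abbrev Hg (d : ∀ i, C i →ₗ[R] C (i + 1)) (i : ℕ) : Type :=
  LinearMap.ker (d i) ⧸ (Bg d i).submoduleOf (LinearMap.ker (d i))

end coh

/-! ### cohomology in degree one on open sets -/

section deg1

variable {X : Type} [TopologicalSpace X] {A : Type} [AddCommGroup A]

/-- `z` is a cocycle on the simplices contained in `U` -/
def ClOn (U : Set X) (z : Sing X 1 → A) : Prop :=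
  ∀ τ : Sing X 2, range τ ⊆ U → dl z τ = 0

/-- `z` is a coboundary on the simplices contained in `U` -/
def ExOn (U : Set X) (z : Sing X 1 → A) : Prop :=
  ∃ u : X → A, ∀ σ : Sing X 1, range σ ⊆ U → z σ = u (σ (vert 1 1)) - u (σ (vert 1 0))

/-- every cocycle on `U` is a coboundary on `U`, for all coefficient groups -/
def H1z (U : Set X) : Prop :=
  ∀ (A : Type) [AddCommGroup A] (z : Sing X 1 → A), ClOn U z → ExOn U z

end deg1

/-- `ℚ/ℤ` -/
abbrev QZ : Type := AddCircle (1 : ℚ)

/-- the multiplicative cochain `ζ ^ x` of an additive cochain mod `3` -/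
def expo {X : Type} [TopologicalSpace X] {K : Type} [CommRing K] (ζ : Kˣ)
    (x : Sing X 1 → ZMod 3) : Sing X 1 → Kˣ := fun σ => ζ ^ (x σ).val

/-! ### three-dimensional pieces -/

/-- the model space -/
abbrev E3 : Type := EuclideanSpace ℝ (Fin 3)

open Classical in
/-- the collapse map of an embedding `ℓ : Z → Y`: the inverse of `ℓ` on the range of `ℓ` and `∞`
outside -/
noncomputable def clp {Y Z : Type} (ℓ : Z → Y) (y : Y) : OnePoint Z :=
  if h : ∃ z, ℓ z = y then ((h.choose : Z) : OnePoint Z) else OnePoint.infty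

open Classical in
/-- the inversion of `ℝ³ ∪ ∞` -/
noncomputable def sinv : OnePoint E3 → OnePoint E3
  | none => ((0 : E3) : OnePoint E3)
  | some u => if u = 0 then OnePoint.infty else (((‖u‖ ^ 2)⁻¹ • u : E3) : OnePoint E3)

/-- the embedding of `ℝ³` in `ℝ³ ∪ ∞` as the open unit ball with centre `c` -/
noncomputable def bet (c : E3) (u : E3) : OnePoint E3 :=
  ((c + (Real.sqrt (1 + ‖u‖ ^ 2))⁻¹ • u : E3) : OnePoint E3)

/-- the four centres -/
noncomputable def ctr (i : Fin 4) : E3 := EuclideanSpace.single 0 (3 * (i : ℝ))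

/-- the properties of the lens space `L(3,1)` which are used -/
structure NSp (N : Type) [TopologicalSpace N] (ξ : Sing N 1 → ZMod 3) (ℓ : E3 → N) : Prop where
  emb : IsOpenEmbedding ℓ
  pconn : IsPathConnected {x : N | x ≠ ℓ 0}
  cl : dl ξ = 0
  gen : ∀ (A : Type) [AddCommGroup A] (z : Sing N 1 → A), dl z = 0 →
    ∃ a : A, 3 • a = 0 ∧ ∃ u : Sing N 0 → A, ∀ σ, z σ = (ξ σ).val • a + dl u σ
  inj : ∀ (A : Type) [AddCommGroup A] (a : A) (u : Sing N 0 → A), 3 • a = 0 →
    (∀ σ, (ξ σ).val • a = dl u σ) → a = 0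

/-- the connected sum of four copies of `N`: four copies of `N` with a ball removed are glued to
`S³` with four balls removed -/
def MSum (N : Type) (ℓ : E3 → N) : Type :=
  {q : OnePoint E3 × (Fin 4 → N) // ∀ i, clp ℓ (q.2 i) = sinv (clp (bet (ctr i)) q.1)}

instance (N : Type) [TopologicalSpace N] (ℓ : E3 → N) : TopologicalSpace (MSum N ℓ) :=
  instTopologicalSpaceSubtype

/-- the abstract description of the connected sum of four copies of `N` -/
structure HubSp (N M : Type) [TopologicalSpace N] [TopologicalSpace M] (ℓ : E3 → N)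
    (h : C(M, OnePoint E3)) (f : Fin 4 → C(M, N)) : Prop where
  glue : ∀ m i, clp ℓ (f i m) = sinv (clp (bet (ctr i)) (h m))
  inv : ∀ i, ∃ g : {x : N // x ≠ ℓ 0} → M, Continuous g ∧ (∀ x, f i (g x) = x.1) ∧
    ∀ (m : M) (hm : f i m ≠ ℓ 0), g ⟨f i m, hm⟩ = m
  inv0 : ∃ g : {x : OnePoint E3 // ∀ i : Fin 4, x ≠ ((ctr i : E3) : OnePoint E3)} → M,
    Continuous g ∧ (∀ x, h (g x) = x.1) ∧
    ∀ (m : M) (hm : ∀ i : Fin 4, h m ≠ ((ctr i : E3) : OnePoint E3)), g ⟨h m, hm⟩ = m

end Run7.h841.TM
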