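import Pool.Agent.Helper158.PD.Sg

/-!
# Twisted singular cochains: basic definitions and identities

`R` is a commutative ring, `A` an `R`-module, `α : Sing X 1 → Rˣ` a multiplicative 1-cocycle
(`IsTw`). Cochains `Sing X n → A` carry two twisted coboundaries:

* `dF α` (first vertex convention): the value `c σ` lies in the fibre at the first vertex;
* `dL α` (last vertex convention).

`cup a b` of an `L`-cochain `a` with values in `A` and an `F`-cochain `b` with values in `R` is an
ordinary cochain with values in `A`, and `dl (cup a b) = cup (dL a) b + (-1)^p cup a (dF b)`.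
-/

set_option autoImplicit false
set_option linter.unusedVariables false
set_option linter.unusedSectionVars false

namespace Run7.h841.TM

open Set Topology
open Pool.Agent.Helper922.HB.Sc (Sing sface vert)
open Pool.Agent.Helper158.PD (TS sub front back sub_sub_lz sface_sub_lz)

section defs

variable {X : Type} [TopologicalSpace X] {R : Type} [CommRing R] {A : Type} [AddCommGroup A]
  [Module R A]

/-- the (untwisted) coboundary, raw form -/
noncomputable def dl {n : ℕ} (c : Sing X n → A) : Sing X (n + 1) → A :=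
  fun σ => ∑ i : Fin (n + 2), (-1 : ℤ) ^ (i : ℕ) • c (sface n i σ)

/-- the first edge `[v₀, v₁]` -/
noncomputable def eF {n : ℕ} (σ : Sing X (n + 1)) : Sing X 1 :=
  sub (![0, 1] : Fin 2 → Fin (n + 1 + 1)) σ

/-- the last edge `[vₙ, vₙ₊₁]` -/
noncomputable def eL {n : ℕ} (σ : Sing X (n + 1)) : Sing X 1 :=
  sub (![(Fin.last n).castSucc, Fin.last (n + 1)] : Fin 2 → Fin (n + 1 + 1)) σ

/-- twisted coboundary, first vertex convention -/
noncomputable def dF (α : Sing X 1 → Rˣ) {n : ℕ} (c : Sing X n → A) : Sing X (n + 1) → A :=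
  fun σ => dl c σ + ((α (eF σ) : R) - 1) • c (sface n 0 σ)

/-- twisted coboundary, last vertex convention -/
noncomputable def dL (α : Sing X 1 → Rˣ) {n : ℕ} (c : Sing X n → A) : Sing X (n + 1) → A :=
  fun σ => dl c σ + (-1 : ℤ) ^ (n + 1) •
    (((α (eL σ) : R) - 1) • c (sface n (Fin.last (n + 1)) σ))

/-- multiplicative 1-cocycles (`sface 1 0 = [1,2]`, `sface 1 1 = [0,2]`, `sface 1 2 = [0,1]`) -/
def IsTw (α : Sing X 1 → Rˣ) : Prop :=
  ∀ τ : Sing X 2, α (sface 1 1 τ) = α (sface 1 2 τ) * α (sface 1 0 τ)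

/-- a graded cochain vanishes near `K` (on all small simplices near every point of `K`) -/
def Nv {n : ℕ} (K : Set X) (c : Sing X n → A) : Prop :=
  ∀ x ∈ K, ∃ U, IsOpen U ∧ x ∈ U ∧ ∀ σ : Sing X n, range σ ⊆ U → c σ = 0

/-- a total cochain vanishes near `K` -/
def NV (K : Set X) (c : TS X → A) : Prop :=
  ∀ x ∈ K, ∃ U, IsOpen U ∧ x ∈ U ∧ ∀ s : TS X, range s.2 ⊆ U → c s = 0

/-- component of a total cochain -/
def cp (p : ℕ) (c : TS X → A) : Sing X p → A := fun σ => c ⟨p, σ⟩

/-- total (untwisted) coboundary -/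
noncomputable def td (c : TS X → A) : TS X → A
  | ⟨0, _⟩ => 0
  | ⟨p + 1, σ⟩ => dl (cp p c) σ

/-- total twisted coboundary, first vertex convention -/
noncomputable def tF (α : Sing X 1 → Rˣ) (c : TS X → A) : TS X → A
  | ⟨0, _⟩ => 0
  | ⟨p + 1, σ⟩ => dF α (cp p c) σ

/-- total twisted coboundary, last vertex convention -/
noncomputable def tL (α : Sing X 1 → Rˣ) (c : TS X → A) : TS X → A
  | ⟨0, _⟩ => 0
  | ⟨p + 1, σ⟩ => dL α (cp p c) σ

open Classical in
/-- inclusion of cochains of degree `p` in the total cochains -/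
noncomputable def inc {p : ℕ} (a : Sing X p → A) : TS X → A :=
  fun s => if h : s.1 = p then a (h ▸ s.2) else 0

/-- pullback of cochains -/
def pb {Y : Type} [TopologicalSpace Y] (f : C(X, Y)) {n : ℕ} (c : Sing Y n → A) : Sing X n → A :=
  fun σ => c (f.comp σ)

/-- pullback of total cochains -/
def tpb {Y : Type} [TopologicalSpace Y] (f : C(X, Y)) (c : TS Y → A) : TS X → A :=
  fun s => c ⟨s.1, f.comp s.2⟩

/-- cup product of an `L`-cochain with values in `A` and an `F`-cochain with values in `R` -/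
noncomputable def cup {p q r : ℕ} (h : p + q = r) (a : Sing X p → A) (b : Sing X q → R) :
    Sing X r → A :=
  fun σ => b (sub (back h) σ) • a (sub (front h) σ)

/-- `w ⊗ e` for an integral cochain `w` and a coefficient `e` -/
def tens {n : ℕ} (w : Sing X n → ℤ) (e : A) : Sing X n → A := fun σ => w σ • e

/-- the flat total cochain with constant value `e` in degree `0` -/
noncomputable def cst (e : A) : TS X → A := inc (p := 0) (fun _ => e)

/-- local triviality of a twisting near every point -/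
def LocTriv (α : Sing X 1 → Rˣ) : Prop :=
  ∀ x : X, ∃ U, IsOpen U ∧ x ∈ U ∧ ∃ β : X → Rˣ, ∀ e : Sing X 1, range e ⊆ U →
    α e = β (e (vert 1 0)) * (β (e (vert 1 1)))⁻¹

end defs

/-! ### linearity -/

section linear

variable {X : Type} [TopologicalSpace X] {R : Type} [CommRing R] {A : Type} [AddCommGroup A]
  [Module R A]

theorem dl_add {n : ℕ} (c c' : Sing X n → A) : dl (c + c') = dl c + dl c' := by
  funext σ
  simp only [dl, Pi.add_apply, smul_add, Finset.sum_add_distrib]

theorem dl_smul {n : ℕ} (r : R) (c : Sing X n → A) : dl (r • c) = r • dl c := by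
  funext σ
  simp only [dl, Pi.smul_apply, Finset.smul_sum]
  exact Finset.sum_congr rfl fun i _ => smul_comm _ _ _

theorem dF_add (α : Sing X 1 → Rˣ) {n : ℕ} (c c' : Sing X n → A) :
    dF α (c + c') = dF α c + dF α c' := by
  funext σ
  simp only [dF, dl_add, Pi.add_apply, smul_add]
  abel

theorem dF_smul (α : Sing X 1 → Rˣ) {n : ℕ} (r : R) (c : Sing X n → A) :
    dF α (r • c) = r • dF α c := by
  funext σ
  simp only [dF, dl_smul, Pi.smul_apply, smul_add]
  rw [smul_comm]

theorem dL_add (α : Sing X 1 → Rˣ) {n : ℕ} (c c' : Sing X n → A) :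
    dL α (c + c') = dL α c + dL α c' := by
  funext σ
  simp only [dL, dl_add, Pi.add_apply, smul_add]
  abel

theorem dL_smul (α : Sing X 1 → Rˣ) {n : ℕ} (r : R) (c : Sing X n → A) :
    dL α (r • c) = r • dL α c := by
  funext σ
  simp only [dL, dl_smul, Pi.smul_apply, smul_add]
  congr 1
  rw [smul_comm _ r (c _), smul_comm _ r (_ • c _)]

/-- bundled form of `dF` -/
noncomputable def dFₗ (α : Sing X 1 → Rˣ) (n : ℕ) : (Sing X n → A) →ₗ[R] (Sing X (n + 1) → A) where
  toFun := dF α
  map_add' := dF_add α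
  map_smul' := dF_smul α

/-- bundled form of `dL` -/
noncomputable def dLₗ (α : Sing X 1 → Rˣ) (n : ℕ) : (Sing X n → A) →ₗ[R] (Sing X (n + 1) → A) where
  toFun := dL α
  map_add' := dL_add α
  map_smul' := dL_smul α

variable (R) in
/-- bundled form of `dl` -/
noncomputable def dlₗ (n : ℕ) : (Sing X n → A) →ₗ[R] (Sing X (n + 1) → A) where
  toFun := dl
  map_add' := dl_add
  map_smul' := dl_smul

@[simp] theorem dF_one {n : ℕ} (c : Sing X n → A) : dF (1 : Sing X 1 → Rˣ) c = dl c := by
  funext σ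
  simp [dF]

@[simp] theorem dL_one {n : ℕ} (c : Sing X n → A) : dL (1 : Sing X 1 → Rˣ) c = dl c := by
  funext σ
  simp [dL]

variable (R) in
/-- bundled form of `td` -/
noncomputable def tdₗ : (TS X → A) →ₗ[R] (TS X → A) where
  toFun := td
  map_add' a b := by
    funext ⟨p, σ⟩
    cases p with
    | zero => change (0 : A) = 0 + 0; rw [add_zero]
    | succ p => exact congrFun (dl_add (cp p a) (cp p b)) σ
  map_smul' r a := by
    funext ⟨p, σ⟩
    cases p with
    | zero => change (0 : A) = r • 0; rw [smul_zero]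
    | succ p => exact congrFun (dl_smul r (cp p a)) σ

/-- bundled form of `tF` -/
noncomputable def tFₗ (α : Sing X 1 → Rˣ) : (TS X → A) →ₗ[R] (TS X → A) where
  toFun := tF α
  map_add' a b := by
    funext ⟨p, σ⟩
    cases p with
    | zero => change (0 : A) = 0 + 0; rw [add_zero]
    | succ p => exact congrFun (dF_add α (cp p a) (cp p b)) σ
  map_smul' r a := by
    funext ⟨p, σ⟩
    cases p with
    | zero => change (0 : A) = r • 0; rw [smul_zero]
    | succ p => exact congrFun (dF_smul α r (cp p a)) σ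

/-- bundled form of `tL` -/
noncomputable def tLₗ (α : Sing X 1 → Rˣ) : (TS X → A) →ₗ[R] (TS X → A) where
  toFun := tL α
  map_add' a b := by
    funext ⟨p, σ⟩
    cases p with
    | zero => change (0 : A) = 0 + 0; rw [add_zero]
    | succ p => exact congrFun (dL_add α (cp p a) (cp p b)) σ
  map_smul' r a := by
    funext ⟨p, σ⟩
    cases p with
    | zero => change (0 : A) = r • 0; rw [smul_zero]
    | succ p => exact congrFun (dL_smul α r (cp p a)) σ

theorem tF_add (α : Sing X 1 → Rˣ) (a b : TS X → A) : tF α (a + b) = tF α a + tF α b :=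
  (tFₗ α).map_add a b
theorem tF_sub (α : Sing X 1 → Rˣ) (a b : TS X → A) : tF α (a - b) = tF α a - tF α b :=
  (tFₗ α).map_sub a b
theorem tF_neg (α : Sing X 1 → Rˣ) (a : TS X → A) : tF α (-a) = -tF α a :=
  (tFₗ α).map_neg a
theorem tF_zero (α : Sing X 1 → Rˣ) : tF α (0 : TS X → A) = 0 := (tFₗ α).map_zero
theorem tF_smul (α : Sing X 1 → Rˣ) (r : R) (a : TS X → A) : tF α (r • a) = r • tF α a :=
  (tFₗ α).map_smul r a
theorem tL_add (α : Sing X 1 → Rˣ) (a b : TS X → A) : tL α (a + b) = tL α a + tL α b :=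
  (tLₗ α).map_add a b
theorem tL_sub (α : Sing X 1 → Rˣ) (a b : TS X → A) : tL α (a - b) = tL α a - tL α b :=
  (tLₗ α).map_sub a b
theorem tL_zero (α : Sing X 1 → Rˣ) : tL α (0 : TS X → A) = 0 := (tLₗ α).map_zero
theorem tL_smul (α : Sing X 1 → Rˣ) (r : R) (a : TS X → A) : tL α (r • a) = r • tL α a :=
  (tLₗ α).map_smul r a
theorem td_add (a b : TS X → A) : td (a + b) = td a + td b := (tdₗ ℤ).map_add a b
theorem td_sub (a b : TS X → A) : td (a - b) = td a - td b := (tdₗ ℤ).map_sub a b
theorem td_neg (a : TS X → A) : td (-a) = -td a := (tdₗ ℤ).map_neg a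
theorem td_zero : td (0 : TS X → A) = 0 := (tdₗ ℤ).map_zero
theorem td_smul (r : R) (a : TS X → A) : td (r • a) = r • td a := (tdₗ R).map_smul r a
theorem dl_sub {n : ℕ} (a b : Sing X n → A) : dl (a - b) = dl a - dl b := (dlₗ ℤ n).map_sub a b
theorem dl_neg {n : ℕ} (a : Sing X n → A) : dl (-a) = -dl a := (dlₗ ℤ n).map_neg a
theorem dl_zero {n : ℕ} : dl (0 : Sing X n → A) = 0 := (dlₗ ℤ n).map_zero
theorem dF_sub (α : Sing X 1 → Rˣ) {n : ℕ} (a b : Sing X n → A) :
    dF α (a - b) = dF α a - dF α b := (dFₗ α n).map_sub a b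
theorem dF_neg (α : Sing X 1 → Rˣ) {n : ℕ} (a : Sing X n → A) :
    dF α (-a) = -dF α a := (dFₗ α n).map_neg a
theorem dF_zero (α : Sing X 1 → Rˣ) {n : ℕ} : dF α (0 : Sing X n → A) = 0 := (dFₗ α n).map_zero
theorem dL_sub (α : Sing X 1 → Rˣ) {n : ℕ} (a b : Sing X n → A) :
    dL α (a - b) = dL α a - dL α b := (dLₗ α n).map_sub a b
theorem dL_zero (α : Sing X 1 → Rˣ) {n : ℕ} : dL α (0 : Sing X n → A) = 0 := (dLₗ α n).map_zero

@[simp] theorem tF_one (c : TS X → A) : tF (1 : Sing X 1 → Rˣ) c = td c := by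
  funext ⟨p, σ⟩
  cases p with
  | zero => rfl
  | succ p => exact congrFun (dF_one (cp p c)) σ

@[simp] theorem tL_one (c : TS X → A) : tL (1 : Sing X 1 → Rˣ) c = td c := by
  funext ⟨p, σ⟩
  cases p with
  | zero => rfl
  | succ p => exact congrFun (dL_one (cp p c)) σ

theorem cp_tF_succ (α : Sing X 1 → Rˣ) (p : ℕ) (c : TS X → A) :
    cp (p + 1) (tF α c) = dF α (cp p c) := rfl
theorem cp_tL_succ (α : Sing X 1 → Rˣ) (p : ℕ) (c : TS X → A) :
    cp (p + 1) (tL α c) = dL α (cp p c) := rfl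
theorem cp_td_succ (p : ℕ) (c : TS X → A) : cp (p + 1) (td c) = dl (cp p c) := rfl
theorem cp_tF_zero (α : Sing X 1 → Rˣ) (c : TS X → A) : cp 0 (tF α c) = 0 := rfl
theorem cp_tL_zero (α : Sing X 1 → Rˣ) (c : TS X → A) : cp 0 (tL α c) = 0 := rfl
theorem cp_td_zero (c : TS X → A) : cp 0 (td c) = 0 := rfl

theorem cp_add (p : ℕ) (a b : TS X → A) : cp p (a + b) = cp p a + cp p b := rfl
theorem cp_sub (p : ℕ) (a b : TS X → A) : cp p (a - b) = cp p a - cp p b := rfl
theorem cp_smul (p : ℕ) (r : R) (a : TS X → A) : cp p (r • a) = r • cp p a := rfl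
theorem cp_zero (p : ℕ) : cp p (0 : TS X → A) = 0 := rfl

theorem tot_ext {a b : TS X → A} (h : ∀ p, cp p a = cp p b) : a = b := by
  funext ⟨p, σ⟩
  exact congrFun (h p) σ

theorem cp_inc {p : ℕ} (a : Sing X p → A) : cp p (inc a) = a := by
  funext σ
  change (if h : p = p then a (h ▸ σ) else 0) = a σ
  rw [dif_pos rfl]

theorem cp_inc_ne {p q : ℕ} (h : q ≠ p) (a : Sing X p → A) : cp q (inc a) = 0 := by
  funext σ
  change (if h : q = p then a (h ▸ σ) else 0) = 0
  rw [dif_neg h]

theorem inc_add {p : ℕ} (a b : Sing X p → A) : inc (a + b) = inc a + inc b := by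
  apply tot_ext
  intro q
  by_cases h : q = p
  · subst h; rw [cp_add, cp_inc, cp_inc, cp_inc]
  · rw [cp_add, cp_inc_ne h, cp_inc_ne h, cp_inc_ne h, add_zero]

theorem inc_sub {p : ℕ} (a b : Sing X p → A) : inc (a - b) = inc a - inc b := by
  apply tot_ext
  intro q
  by_cases h : q = p
  · subst h; rw [cp_sub, cp_inc, cp_inc, cp_inc]
  · rw [cp_sub, cp_inc_ne h, cp_inc_ne h, cp_inc_ne h, sub_zero]

theorem inc_smul {p : ℕ} (r : R) (a : Sing X p → A) : inc (r • a) = r • inc a := by
  apply tot_ext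
  intro q
  by_cases h : q = p
  · subst h; rw [cp_smul, cp_inc, cp_inc]
  · rw [cp_smul, cp_inc_ne h, cp_inc_ne h, smul_zero]

theorem inc_zero {p : ℕ} : inc (0 : Sing X p → A) = 0 := by
  apply tot_ext
  intro q
  by_cases h : q = p
  · subst h; rw [cp_inc, cp_zero]
  · rw [cp_inc_ne h, cp_zero]

theorem tF_inc (α : Sing X 1 → Rˣ) {p : ℕ} (a : Sing X p → A) : tF α (inc a) = inc (dF α a) := by
  apply tot_ext
  intro q
  by_cases h : q = p + 1
  · subst h
    rw [cp_tF_succ, cp_inc, cp_inc]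
  · rw [cp_inc_ne h]
    cases q with
    | zero => rfl
    | succ q => rw [cp_tF_succ, cp_inc_ne (by omega), dF_zero]

theorem tL_inc (α : Sing X 1 → Rˣ) {p : ℕ} (a : Sing X p → A) : tL α (inc a) = inc (dL α a) := by
  apply tot_ext
  intro q
  by_cases h : q = p + 1
  · subst h
    rw [cp_tL_succ, cp_inc, cp_inc]
  · rw [cp_inc_ne h]
    cases q with
    | zero => rfl
    | succ q => rw [cp_tL_succ, cp_inc_ne (by omega), dL_zero]

theorem td_inc {p : ℕ} (a : Sing X p → A) : td (inc a) = inc (dl a) := by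
  apply tot_ext
  intro q
  by_cases h : q = p + 1
  · subst h
    rw [cp_td_succ, cp_inc, cp_inc]
  · rw [cp_inc_ne h]
    cases q with
    | zero => rfl
    | succ q => rw [cp_td_succ, cp_inc_ne (by omega), dl_zero]

end linear

end Run7.h841.TM
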