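import Pool.Agent.Run7.h841.TM.Defs

/-! The bootstrap principle for compact spaces with local coordinates. -/

set_option autoImplicit false

namespace Run7.h841.TM

open Set Topology
open Pool.Agent.Helper158.PD (HC)

universe u v

/-- `HC.boot` for compact spaces with local coordinates -/
theorem boot' {X : Type} [TopologicalSpace X] (C : HC.{0, v} X) [CompactSpace X] [T2Space X]
    (hX : LocCoord X) {n : ℕ} (hpt : ∀ x, C.Acy n {x}) : C.Good n univ := by
  classical
  have hloc : ∀ x : X, ∃ K : Set X, K ∈ 𝓝 x ∧ IsClosed K ∧ C.Good n K := by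
    intro x
    obtain ⟨K, hK, hKc, m, f, hf, hsep⟩ := hX x
    exact ⟨K, hK, hKc, C.good_coord f hpt m Finset.univ (by simp) K hKc (fun i _ => hf i)
      (fun y hy z hz h => hsep y hy z hz fun i => h i (Finset.mem_univ i))⟩
  choose K hK hKc hKg using hloc
  obtain ⟨t, ht⟩ := CompactSpace.elim_nhds_subcover K hK
  have hind : ∀ t : Finset X, IsClosed (⋃ x ∈ t, K x) ∧ C.Good n (⋃ x ∈ t, K x) := by
    intro t
    induction t using Finset.induction_on with
    | empty => simpa using C.good_empty
    | insert a s _ ih =>
      rw [Finset.set_biUnion_insert]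
      exact ⟨(hKc a).union ih.1, C.good_union (hKc a) ih.1 (hKg a) ih.2⟩
  have h := (hind t).2
  rw [ht] at h
  exact h

end Run7.h841.TM
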