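import Pool.Agent.Run7.h841.TM.PHom

/-! Functionals on cochains with supports. -/

set_option autoImplicit false
set_option linter.unusedVariables false
set_option linter.unusedSectionVars false

namespace Run7.h841.TM

open Set Topology
open Pool.Agent.Helper158.PD (HC)

/-- A graded cochain complex of functions on simplices with supports in `X`. -/
structure CCx (X : Type) [TopologicalSpace X] (R A : Type) [CommRing R] [AddCommGroup A]
    [Module R A] where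
  S : ℕ → Type
  rg : ∀ k, S k → Set X
  v0 : ∀ k, S k → X
  v0_mem : ∀ k s, v0 k s ∈ rg k s
  d : ∀ k, (S k → A) →ₗ[R] (S (k + 1) → A)
  dd : ∀ k c, d (k + 1) (d k c) = 0
  loc : ∀ k (c : S k → A) (U : Set X), (∀ s, rg k s ⊆ U → c s = 0) →
    ∀ s, rg (k + 1) s ⊆ U → d k c s = 0

/-- extension of a functional which is zero on a submodule -/
theorem ext_two {R E M : Type} [CommRing R] [AddCommGroup E] [Module R E] [Module.Injective R E]
    [AddCommGroup M] [Module R M] (P Q : Submodule R M)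
    (φ : M →ₗ[R] E) (h : ∀ c ∈ P, c ∈ Q → φ c = 0) :
    ∃ ψ : M →ₗ[R] E, (∀ c ∈ P, ψ c = 0) ∧ ∀ c ∈ Q, ψ c = φ c := by
  obtain ⟨ψ, hψ⟩ := ext_inj (LinearMap.coprod P.subtype Q.subtype)
    (φ.comp (Q.subtype.comp (LinearMap.snd R P Q))) (by
      rintro ⟨⟨p, hp⟩, ⟨q, hq⟩⟩ hpq
      change p + q = 0 at hpq
      change φ q = 0
      have : q = -p := eq_neg_of_add_eq_zero_right hpq
      exact h q (this ▸ P.neg_mem hp) hq)
  refine ⟨ψ, fun c hc => ?_, fun c hc => ?_⟩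
  · have h1 := hψ (⟨c, hc⟩, 0)
    change ψ (c + 0) = φ 0 at h1
    rwa [add_zero, map_zero] at h1
  · have h1 := hψ (0, ⟨c, hc⟩)
    change ψ (0 + c) = φ c at h1
    rwa [zero_add] at h1

namespace CCx

variable {X : Type} [TopologicalSpace X] {R A : Type} [CommRing R] [AddCommGroup A]
  [Module R A] (C : CCx X R A)

/-- cochains which vanish on all small simplices near every point of `K` -/
def N (k : ℕ) (K : Set X) : Submodule R (C.S k → A) where
  carrier := {c | ∀ x ∈ K, ∃ U, IsOpen U ∧ x ∈ U ∧ ∀ s, C.rg k s ⊆ U → c s = 0}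
  zero_mem' := fun x _ => ⟨univ, isOpen_univ, mem_univ _, fun _ _ => rfl⟩
  add_mem' := by
    intro a b ha hb x hx
    obtain ⟨U, hU, hxU, h1⟩ := ha x hx
    obtain ⟨V, hV, hxV, h2⟩ := hb x hx
    refine ⟨U ∩ V, hU.inter hV, ⟨hxU, hxV⟩, fun s hs => ?_⟩
    rw [Pi.add_apply, h1 s (hs.trans inter_subset_left), h2 s (hs.trans inter_subset_right),
      add_zero]
  smul_mem' := by
    intro r a ha x hx
    obtain ⟨U, hU, hxU, h1⟩ := ha x hx
    refine ⟨U, hU, hxU, fun s hs => ?_⟩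
    rw [Pi.smul_apply, h1 s hs, smul_zero]

theorem N_mono {k : ℕ} {K L : Set X} (h : K ⊆ L) : C.N k L ≤ C.N k K :=
  fun _ hc x hx => hc x (h hx)

theorem N_empty (k : ℕ) (c : C.S k → A) : c ∈ C.N k ∅ := fun x hx => absurd hx (notMem_empty x)

theorem N_union {k : ℕ} {K L : Set X} {c : C.S k → A} (h1 : c ∈ C.N k K) (h2 : c ∈ C.N k L) :
    c ∈ C.N k (K ∪ L) := by
  rintro x (hx | hx)
  · exact h1 x hx
  · exact h2 x hx

theorem d_N {k : ℕ} {K : Set X} {c : C.S k → A} (h : c ∈ C.N k K) :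
    C.d k c ∈ C.N (k + 1) K := by
  intro x hx
  obtain ⟨U, hU, hxU, h1⟩ := h x hx
  exact ⟨U, hU, hxU, C.loc k c U h1⟩

theorem N_inter [CompletelyNormalSpace X] {k : ℕ} {K L : Set X} (hK : IsClosed K)
    (hL : IsClosed L) {c : C.S k → A} (hc : c ∈ C.N k (K ∩ L)) :
    ∃ c₁ ∈ C.N k K, ∃ c₂ ∈ C.N k L, c = c₁ + c₂ := by
  classical
  have h1 : Disjoint (closure (K \ L)) (L \ K) :=
    Set.disjoint_left.2 fun x hx hx' => hx'.2 ((closure_minimal sdiff_subset hK) hx)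
  have h2 : Disjoint (K \ L) (closure (L \ K)) :=
    Set.disjoint_left.2 fun x hx hx' => hx.2 ((closure_minimal sdiff_subset hL) hx')
  obtain ⟨G, H, hG, hH, hAG, hBH, hd⟩ := separatedNhds_iff_disjoint.mpr
    (CompletelyNormalSpace.completely_normal h1 h2)
  refine ⟨fun s => if C.v0 k s ∈ H then c s else 0, ?_,
    fun s => if C.v0 k s ∈ H then 0 else c s, ?_, ?_⟩
  · intro x hx
    by_cases hxB : x ∈ L
    · obtain ⟨U, hU, hxU, h⟩ := hc x ⟨hx, hxB⟩
      refine ⟨U, hU, hxU, fun s hs => ?_⟩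
      change (if C.v0 k s ∈ H then c s else 0) = 0
      rw [h s hs, ite_self]
    · refine ⟨G, hG, hAG ⟨hx, hxB⟩, fun s hs => ?_⟩
      have h3 : C.v0 k s ∉ H := fun h4 => disjoint_left.mp hd (hs (C.v0_mem k s)) h4
      change (if C.v0 k s ∈ H then c s else 0) = 0
      rw [if_neg h3]
  · intro x hx
    by_cases hxA : x ∈ K
    · obtain ⟨U, hU, hxU, h⟩ := hc x ⟨hxA, hx⟩
      refine ⟨U, hU, hxU, fun s hs => ?_⟩
      change (if C.v0 k s ∈ H then 0 else c s) = 0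
      rw [h s hs, ite_self]
    · refine ⟨H, hH, hBH ⟨hx, hxA⟩, fun s hs => ?_⟩
      have h3 : C.v0 k s ∈ H := hs (C.v0_mem k s)
      change (if C.v0 k s ∈ H then 0 else c s) = 0
      rw [if_pos h3]
  · funext s
    change c s = (if C.v0 k s ∈ H then c s else 0) + (if C.v0 k s ∈ H then 0 else c s)
    by_cases h3 : C.v0 k s ∈ H
    · rw [if_pos h3, if_pos h3, add_zero]
    · rw [if_neg h3, if_neg h3, zero_add]

variable (E : Type) [AddCommGroup E] [Module R E]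

/-- functionals which kill all locally zero cochains -/
def D (k : ℕ) : Submodule R ((C.S k → A) →ₗ[R] E) where
  carrier := {φ | ∀ c ∈ C.N k univ, φ c = 0}
  zero_mem' := fun _ _ => rfl
  add_mem' := by
    intro a b ha hb c hc
    rw [LinearMap.add_apply, ha c hc, hb c hc, add_zero]
  smul_mem' := by
    intro r a ha c hc
    rw [LinearMap.smul_apply, ha c hc, smul_zero]

/-- the boundary of a functional -/
def bd (k : ℕ) : C.D E (k + 1) →ₗ[R] C.D E k where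
  toFun φ := ⟨φ.1.comp (C.d k), fun c hc => φ.2 _ (C.d_N hc)⟩
  map_add' _ _ := rfl
  map_smul' _ _ := rfl

theorem bd_apply (k : ℕ) (φ : C.D E (k + 1)) (c : C.S k → A) : (C.bd E k φ).1 c = φ.1 (C.d k c) :=
  rfl

/-- functionals which vanish near `K`, relative to `B`: they kill all cochains vanishing near `B`
and with support in some neighbourhood of `K` -/
def Z (B : Set X) (k : ℕ) (K : Set X) : Submodule R (C.D E k) where
  carrier := {φ | ∃ U, IsOpen U ∧ K ⊆ U ∧ ∀ c ∈ C.N k (Uᶜ ∪ B), φ.1 c = 0}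
  zero_mem' := ⟨univ, isOpen_univ, subset_univ _, fun _ _ => rfl⟩
  add_mem' := by
    rintro a b ⟨U, hU, hAU, h1⟩ ⟨V, hV, hAV, h2⟩
    refine ⟨U ∩ V, hU.inter hV, subset_inter hAU hAV, fun c hc => ?_⟩
    have e1 : c ∈ C.N k (Uᶜ ∪ B) :=
      C.N_mono (union_subset_union_left _ (compl_subset_compl.2 inter_subset_left)) hc
    have e2 : c ∈ C.N k (Vᶜ ∪ B) :=
      C.N_mono (union_subset_union_left _ (compl_subset_compl.2 inter_subset_right)) hc
    change a.1 c + b.1 c = 0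
    rw [h1 c e1, h2 c e2, add_zero]
  smul_mem' := by
    rintro r a ⟨U, hU, hAU, h1⟩
    refine ⟨U, hU, hAU, fun c hc => ?_⟩
    change r • a.1 c = 0
    rw [h1 c hc, smul_zero]

variable {E} {B : Set X}

theorem Z_univ {k : ℕ} {φ : C.D E k} (h : φ ∈ C.Z E B k univ) : ∀ c ∈ C.N k B, φ.1 c = 0 := by
  obtain ⟨U, _, hU, h1⟩ := h
  intro c hc
  apply h1
  rw [eq_univ_of_univ_subset hU, compl_univ, empty_union]
  exact hc

theorem Z_union [CompletelyNormalSpace X] (hB : IsClosed B) {k : ℕ} {K L : Set X} {φ : C.D E k}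
    (h1 : φ ∈ C.Z E B k K) (h2 : φ ∈ C.Z E B k L) : φ ∈ C.Z E B k (K ∪ L) := by
  obtain ⟨U, hU, hAU, h1⟩ := h1
  obtain ⟨V, hV, hBV, h2⟩ := h2
  refine ⟨U ∪ V, hU.union hV, union_subset_union hAU hBV, fun c hc => ?_⟩
  have e : (U ∪ V)ᶜ ∪ B = (Uᶜ ∪ B) ∩ (Vᶜ ∪ B) := by
    rw [compl_union, inter_union_distrib_right]
  rw [e] at hc
  obtain ⟨c1, hc1, c2, hc2, rfl⟩ := C.N_inter (hU.isClosed_compl.union hB)
    (hV.isClosed_compl.union hB) hc
  rw [map_add, h1 c1 hc1, h2 c2 hc2, add_zero]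

theorem Z_inter [CompletelyNormalSpace X] [T2Space X] [Module.Injective R E] {k : ℕ} {K L : Set X}
    (hK : IsClosed K) (hL : IsClosed L) {φ : C.D E k} (h : φ ∈ C.Z E B k (K ∩ L)) :
    ∃ φ₁ ∈ C.Z E B k K, ∃ φ₂ ∈ C.Z E B k L, φ = φ₁ + φ₂ := by
  obtain ⟨W, hW, hABW, hφ⟩ := h
  have hBW : IsClosed (L \ W) := hL.sdiff hW
  have hdisj : Disjoint K (L \ W) := by
    rw [Set.disjoint_left]
    rintro x hxA ⟨hxB, hxW⟩
    exact hxW (hABW ⟨hxA, hxB⟩)
  obtain ⟨U, V1, hU, hV1, hAU, hBV1, hUV⟩ := normal_separation hK hBW hdisj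
  have hV : IsOpen (V1 ∪ W) := hV1.union hW
  have hBV : L ⊆ V1 ∪ W := by
    intro x hx
    by_cases hxW : x ∈ W
    · exact Or.inr hxW
    · exact Or.inl (hBV1 ⟨hx, hxW⟩)
  have hsub : Wᶜ ∪ B ⊆ (Uᶜ ∪ B) ∪ ((V1 ∪ W)ᶜ ∪ B) := by
    rintro x (hx | hx)
    · by_cases hxU : x ∈ U
      · right; left
        rintro (h1 | h1)
        · exact (Set.disjoint_left.1 hUV) hxU h1
        · exact hx h1
      · exact Or.inl (Or.inl hxU)
    · exact Or.inl (Or.inr hx)
  obtain ⟨ψ, hψ1, hψ2⟩ := ext_two (C.N k (Uᶜ ∪ B)) (C.N k ((V1 ∪ W)ᶜ ∪ B)) φ.1 (fun c h1 h2 =>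
    hφ c (C.N_mono hsub (C.N_union h1 h2)))
  have hψD : ψ ∈ C.D E k := fun c hc => hψ1 c (C.N_mono (subset_univ _) hc)
  refine ⟨⟨ψ, hψD⟩, ⟨U, hU, hAU, hψ1⟩, φ - ⟨ψ, hψD⟩, ⟨V1 ∪ W, hV, hBV, fun c hc => ?_⟩, ?_⟩
  · show φ.1 c - ψ c = 0
    rw [hψ2 c hc, sub_self]
  · abel

variable (E) in
/-- the dual complex, relative to `B` -/
def dual [CompletelyNormalSpace X] [T2Space X] [Module.Injective R E] (hB : IsClosed B) :
    HC X where
  T k := C.D E k
  d k := (C.bd E k).toAddMonoidHom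
  Z k K := (C.Z E B k K).toAddSubgroup
  d_Z := by
    rintro k K φ ⟨U, hU, hAU, h⟩
    exact ⟨U, hU, hAU, fun c hc => h _ (C.d_N hc)⟩
  dd := by
    intro k φ
    apply Subtype.ext
    apply LinearMap.ext
    intro c
    change φ.1 (C.d (k + 1) (C.d k c)) = 0
    rw [C.dd, map_zero]
  mono := by
    rintro k K L hAB φ ⟨U, hU, hBU, h⟩
    exact ⟨U, hU, hAB.trans hBU, h⟩
  union := fun k K L _ _ φ h1 h2 => C.Z_union hB h1 h2
  inter := fun k K L hK hL φ h => C.Z_inter hK hL h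
  nhd := by
    rintro k K _ φ ⟨U, hU, hAU, h⟩
    exact ⟨U, hU, hAU, fun B hB => ⟨U, hU, hB, h⟩⟩
  empty := by
    intro k φ
    refine ⟨∅, isOpen_empty, subset_rfl, fun c hc => φ.2 c ?_⟩
    rwa [compl_empty, univ_union] at hc

/-- a functional which kills the relative cocycles is a boundary there -/
theorem ext_bd [Module.Injective R E] {k : ℕ} {L : Set X} (φ : C.D E k)
    (h : ∀ b ∈ C.N k L, C.d k b ∈ C.N (k + 1) univ → φ.1 b = 0) :
    ∃ ψ : C.D E (k + 1), ∀ c ∈ C.N k L, (φ - C.bd E k ψ).1 c = 0 := by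
  obtain ⟨ψ0, hψ0⟩ := ext_inj (((C.N (k + 1) univ).mkQ.comp (C.d k)).comp (C.N k L).subtype)
    (φ.1.comp (C.N k L).subtype) (by
      intro b hb
      have h1 : (C.N (k + 1) univ).mkQ (C.d k (b : C.S k → A)) = 0 := hb
      rw [Submodule.mkQ_apply, Submodule.Quotient.mk_eq_zero] at h1
      exact h b b.2 h1)
  refine ⟨⟨ψ0.comp (C.N (k + 1) univ).mkQ, ?_⟩, ?_⟩
  · intro c hc
    have h1 : (C.N (k + 1) univ).mkQ c = 0 := by
      rw [Submodule.mkQ_apply, Submodule.Quotient.mk_eq_zero]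
      exact hc
    rw [LinearMap.comp_apply, h1, map_zero]
  · intro c hc
    have h1 := hψ0 ⟨c, hc⟩
    change φ.1 c - ψ0 ((C.N (k + 1) univ).mkQ (C.d k c)) = 0
    rw [sub_eq_zero]
    exact h1.symm

end CCx

end Run7.h841.TM
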