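import Pool.Agent.Run7.h841.TM.Basic

/-! Identities for the twisted coboundaries: `dF dF = 0`, `dL dL = 0`, the Leibniz rule, locality,
pullbacks, transport. -/

set_option autoImplicit false
set_option linter.unusedVariables false
set_option linter.unusedSectionVars false

namespace Run7.h841.TM

open Set Topology
open Pool.Agent.Helper922.HB.Sc (Sing sface vert succAbove_comm)
open Pool.Agent.Helper158.PD (TS sub front back sub_sub_lz sface_sub_lz range_sface range_sub)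

variable {X : Type} [TopologicalSpace X] {R : Type} [CommRing R] {A : Type} [AddCommGroup A]
  [Module R A]

/-- the basic cancellation for double alternating sums -/
theorem alt_cancel' (n : ℕ) (F : Fin (n + 2) → Fin (n + 3) → A)
    (h : ∀ i j : Fin (n + 2), i ≤ j → F i j.succ = F j i.castSucc) :
    ∑ j : Fin (n + 3), ∑ i : Fin (n + 2), (-1 : ℤ) ^ (j : ℕ) • ((-1 : ℤ) ^ (i : ℕ) • F i j) = 0 := by
  classical
  rw [← Finset.sum_product']
  let S : Finset (Fin (n + 3) × Fin (n + 2)) := Finset.univ.filter (fun ij => (ij.1 : ℕ) ≤ (ij.2 : ℕ))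
  rw [Finset.univ_product_univ, ← Finset.sum_add_sum_compl S, ← eq_neg_iff_add_eq_zero,
    ← Finset.sum_neg_distrib]
  let φ : ∀ ij : Fin (n + 3) × Fin (n + 2), ij ∈ S → Fin (n + 3) × Fin (n + 2) := fun ij hij =>
    (ij.2.succ, Fin.castLT ij.1 (lt_of_le_of_lt (Finset.mem_filter.mp hij).right (Fin.is_lt ij.2)))
  apply Finset.sum_bij φ
  · intro ij hij
    simp only [S, φ, Finset.mem_compl, Finset.mem_filter, Finset.mem_univ, true_and,
      Fin.val_succ, Fin.val_castLT] at hij ⊢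
    omega
  · rintro ⟨i, j⟩ hij ⟨i', j'⟩ hij' h
    simp only [φ, Prod.mk.injEq, Fin.succ_inj] at h
    obtain ⟨h1, h2⟩ := h
    have h3 : (i : ℕ) = (i' : ℕ) := by
      have := congrArg (fun x : Fin (n + 2) => (x : ℕ)) h2
      simpa using this
    rw [Prod.mk.injEq]
    exact ⟨Fin.ext h3, h1⟩
  · rintro ⟨i, j⟩ hij
    simp only [S, Finset.mem_compl, Finset.mem_filter, Finset.mem_univ, true_and, not_le] at hij
    have hi : 0 < (i : ℕ) := by omega
    have hi0 : i ≠ 0 := by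
      intro h; rw [h] at hi; simp at hi
    refine ⟨(j.castSucc, i.pred hi0), ?_, ?_⟩
    · simp only [S, Finset.mem_filter, Finset.mem_univ, true_and, Fin.val_castSucc, Fin.val_pred]
      omega
    · simp only [φ, Prod.mk.injEq, Fin.succ_pred, true_and]
      apply Fin.ext
      simp
  · rintro ⟨j, i⟩ hij
    simp only [S, Finset.mem_filter, Finset.mem_univ, true_and] at hij
    have h1 : (Fin.castLT j (lt_of_le_of_lt hij (Fin.is_lt i)) : Fin (n + 2)) ≤ i := by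
      rw [Fin.le_def]; simpa using hij
    have h2 := h _ _ h1
    have h3 : (Fin.castLT j (lt_of_le_of_lt hij (Fin.is_lt i)) : Fin (n + 2)).castSucc = j := by
      apply Fin.ext; simp
    rw [h3] at h2
    simp only [φ, Fin.val_succ, Fin.val_castLT]
    rw [h2, pow_succ, mul_smul, smul_comm ((-1 : ℤ) ^ (j : ℕ)) ((-1 : ℤ) ^ (i : ℕ))]
    simp

theorem IsTw.cst {α : Sing X 1 → Rˣ} (hα : IsTw α) {r : ℕ} (σ : Sing X r) (i : Fin (r + 1)) :
    α (sub (![i, i] : Fin 2 → Fin (r + 1)) σ) = 1 := by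
  have h := hα (sub (![i, i, i] : Fin 3 → Fin (r + 1)) σ)
  have e : ∀ j : Fin 3, sface 1 j (sub (![i, i, i] : Fin 3 → Fin (r + 1)) σ) =
      sub (![i, i] : Fin 2 → Fin (r + 1)) σ := by
    intro j
    rw [sface_sub_lz, sub_sub_lz]
    congr 1
    funext k
    fin_cases j <;> fin_cases k <;> rfl
  rw [e, e, e] at h
  exact (mul_eq_left.1 h.symm)

/-- the cocycle identity on the triangle with vertices `i, j, k` -/
theorem IsTw.tri {α : Sing X 1 → Rˣ} (hα : IsTw α) {r : ℕ} (σ : Sing X r) (i j k : Fin (r + 1)) :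
    α (sub (![i, k] : Fin 2 → Fin (r + 1)) σ) =
      α (sub (![i, j] : Fin 2 → Fin (r + 1)) σ) * α (sub (![j, k] : Fin 2 → Fin (r + 1)) σ) := by
  have h := hα (sub (![i, j, k] : Fin 3 → Fin (r + 1)) σ)
  have e0 : sface 1 0 (sub (![i, j, k] : Fin 3 → Fin (r + 1)) σ) =
      sub (![j, k] : Fin 2 → Fin (r + 1)) σ := by
    rw [sface_sub_lz, sub_sub_lz]
    rfl
  have e1 : sface 1 1 (sub (![i, j, k] : Fin 3 → Fin (r + 1)) σ) =
      sub (![i, k] : Fin 2 → Fin (r + 1)) σ := by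
    rw [sface_sub_lz, sub_sub_lz]
    congr 1
    funext l
    fin_cases l <;> rfl
  have e2 : sface 1 2 (sub (![i, j, k] : Fin 3 → Fin (r + 1)) σ) =
      sub (![i, j] : Fin 2 → Fin (r + 1)) σ := by
    rw [sface_sub_lz, sub_sub_lz]
    congr 1
    funext l
    fin_cases l <;> rfl
  rw [e0, e1, e2] at h
  exact h

theorem sub_id {r : ℕ} (σ : Sing X r) : sub (id : Fin (r + 1) → Fin (r + 1)) σ = σ := by
  refine ContinuousMap.ext fun x => ?_
  change σ (stdSimplex.map id x) = σ x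
  congr 1
  exact stdSimplex.map_id_apply x

/-- the twisted coboundary on a vertex map, transported to the first vertex -/
theorem dF_sub_eq {α : Sing X 1 → Rˣ} (hα : IsTw α) {m r : ℕ} (c : Sing X m → A)
    (f : Fin (m + 1 + 1) → Fin (r + 1)) (σ : Sing X r) :
    (α (sub (![0, f 0] : Fin 2 → Fin (r + 1)) σ) : R) • dF α c (sub f σ) =
      ∑ i : Fin (m + 2), (-1 : ℤ) ^ (i : ℕ) •
        ((α (sub (![0, (f ∘ i.succAbove) 0] : Fin 2 → Fin (r + 1)) σ) : R) •
          c (sub (f ∘ i.succAbove) σ)) := by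
  have hs : ∀ i : Fin (m + 2), sface m i (sub f σ) = sub (f ∘ i.succAbove) σ := by
    intro i
    rw [sface_sub_lz, sub_sub_lz]
  have he : eF (sub f σ) = sub (![f 0, f 1] : Fin 2 → Fin (r + 1)) σ := by
    rw [eF, sub_sub_lz]
    congr 1
    funext l
    fin_cases l <;> rfl
  have h1 : ∀ i : Fin (m + 1), (f ∘ (i.succ).succAbove) 0 = f 0 := by
    intro i
    simp
  have h0 : (f ∘ (0 : Fin (m + 2)).succAbove) 0 = f 1 := by
    simp
  have hR : ∀ G : Fin (m + 2) → A, ∑ i, G i = G 0 + ∑ i : Fin (m + 1), G i.succ :=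
    fun G => Fin.sum_univ_succ G
  rw [hR (fun i : Fin (m + 2) => (-1 : ℤ) ^ (i : ℕ) •
        ((α (sub (![0, (f ∘ i.succAbove) 0] : Fin 2 → Fin (r + 1)) σ) : R) •
          c (sub (f ∘ i.succAbove) σ)))]
  rw [dF, dl, he, hR, smul_add, smul_add, Finset.smul_sum]
  simp only [hs, h1, h0, Fin.val_zero, pow_zero, one_smul]
  rw [hα.tri σ 0 (f 0) (f 1), Units.val_mul]
  have e1 : ∀ i : Fin (m + 1), (α (sub (![0, f 0] : Fin 2 → Fin (r + 1)) σ) : R) •
      (-1 : ℤ) ^ ((i.succ : Fin (m + 2)) : ℕ) • c (sub (f ∘ i.succ.succAbove) σ) =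
      (-1 : ℤ) ^ ((i.succ : Fin (m + 2)) : ℕ) •
        (α (sub (![0, f 0] : Fin 2 → Fin (r + 1)) σ) : R) • c (sub (f ∘ i.succ.succAbove) σ) :=
    fun i => smul_comm _ _ _
  simp only [e1, sub_smul, one_smul, smul_sub, mul_smul]
  abel

theorem dF_eq {α : Sing X 1 → Rˣ} (hα : IsTw α) {m : ℕ} (c : Sing X m → A)
    (σ : Sing X (m + 1)) :
    dF α c σ = ∑ i : Fin (m + 2), (-1 : ℤ) ^ (i : ℕ) •
        ((α (sub (![0, i.succAbove 0] : Fin 2 → Fin (m + 1 + 1)) σ) : R) • c (sface m i σ)) := by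
  have h := dF_sub_eq hα c id σ
  rw [sub_id] at h
  have h1 : α (sub (![0, id 0] : Fin 2 → Fin (m + 1 + 1)) σ) = 1 := hα.cst σ 0
  rw [h1, Units.val_one, one_smul] at h
  exact h

theorem dF_dF {α : Sing X 1 → Rˣ} (hα : IsTw α) {n : ℕ} (c : Sing X n → A) :
    dF α (dF α c) = 0 := by
  funext σ
  rw [dF_eq hα]
  have h : ∀ j : Fin (n + 1 + 2),
      (α (sub (![0, j.succAbove 0] : Fin 2 → Fin (n + 1 + 1 + 1)) σ) : R) • dF α c (sface (n + 1) j σ) =
      ∑ i : Fin (n + 2), (-1 : ℤ) ^ (i : ℕ) •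
        ((α (sub (![0, (j.succAbove ∘ i.succAbove) 0] : Fin 2 → Fin (n + 1 + 1 + 1)) σ) : R) •
          c (sub (j.succAbove ∘ i.succAbove) σ)) := by
    intro j
    rw [sface_sub_lz]
    exact dF_sub_eq hα c j.succAbove σ
  simp only [h, Finset.smul_sum]
  refine alt_cancel' n (fun i j =>
    (α (sub (![0, (j.succAbove ∘ i.succAbove) 0] : Fin 2 → Fin (n + 1 + 1 + 1)) σ) : R) •
          c (sub (j.succAbove ∘ i.succAbove) σ)) ?_
  intro i j hij
  have e : (j.succ).succAbove ∘ i.succAbove = (i.castSucc).succAbove ∘ j.succAbove := by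
    funext k
    exact succAbove_comm i j hij k
  simp only [e]

/-- the twisted coboundary on a vertex map, transported to the last vertex -/
theorem dL_sub_eq {α : Sing X 1 → Rˣ} (hα : IsTw α) {m r : ℕ} (c : Sing X m → A)
    (f : Fin (m + 1 + 1) → Fin (r + 1)) (σ : Sing X r) :
    (α (sub (![f (Fin.last (m + 1)), Fin.last r] : Fin 2 → Fin (r + 1)) σ) : R) •
        dL α c (sub f σ) =
      ∑ i : Fin (m + 2), (-1 : ℤ) ^ (i : ℕ) •
        ((α (sub (![(f ∘ i.succAbove) (Fin.last m), Fin.last r] : Fin 2 → Fin (r + 1)) σ) : R) •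
          c (sub (f ∘ i.succAbove) σ)) := by
  have hs : ∀ i : Fin (m + 2), sface m i (sub f σ) = sub (f ∘ i.succAbove) σ := by
    intro i
    rw [sface_sub_lz, sub_sub_lz]
  have he : eL (sub f σ) = sub (![f (Fin.last m).castSucc, f (Fin.last (m + 1))] :
      Fin 2 → Fin (r + 1)) σ := by
    rw [eL, sub_sub_lz]
    congr 1
    funext l
    fin_cases l <;> rfl
  have h1 : ∀ i : Fin (m + 1), (f ∘ (i.castSucc).succAbove) (Fin.last m) = f (Fin.last (m + 1)) := by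
    intro i
    change f ((i.castSucc).succAbove (Fin.last m)) = _
    congr 1
    rw [Fin.succAbove_of_le_castSucc]
    · rfl
    · rw [Fin.le_def]; simp; omega
  have h0 : (f ∘ (Fin.last (m + 1)).succAbove) (Fin.last m) = f (Fin.last m).castSucc := by
    simp
  have hR : ∀ G : Fin (m + 2) → A, ∑ i, G i =
      ∑ i : Fin (m + 1), G i.castSucc + G (Fin.last (m + 1)) :=
    fun G => Fin.sum_univ_castSucc G
  rw [hR (fun i : Fin (m + 2) => (-1 : ℤ) ^ (i : ℕ) •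
        ((α (sub (![(f ∘ i.succAbove) (Fin.last m), Fin.last r] : Fin 2 → Fin (r + 1)) σ) : R) •
          c (sub (f ∘ i.succAbove) σ)))]
  rw [dL, dl, he, hR, smul_add, smul_add, Finset.smul_sum]
  simp only [hs, h1, h0, Fin.val_last]
  rw [hα.tri σ (f (Fin.last m).castSucc) (f (Fin.last (m + 1))) (Fin.last r), Units.val_mul]
  have e1 : ∀ i : Fin (m + 1),
      (α (sub (![f (Fin.last (m + 1)), Fin.last r] : Fin 2 → Fin (r + 1)) σ) : R) •
      (-1 : ℤ) ^ ((i.castSucc : Fin (m + 2)) : ℕ) • c (sub (f ∘ i.castSucc.succAbove) σ) =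
      (-1 : ℤ) ^ ((i.castSucc : Fin (m + 2)) : ℕ) •
        (α (sub (![f (Fin.last (m + 1)), Fin.last r] : Fin 2 → Fin (r + 1)) σ) : R) •
          c (sub (f ∘ i.castSucc.succAbove) σ) :=
    fun i => smul_comm _ _ _
  simp only [e1, sub_smul, one_smul, smul_sub, mul_smul]
  have e2 : ∀ x y : R, ∀ z : A, x • ((-1 : ℤ) ^ (m + 1) • y • z) =
      (-1 : ℤ) ^ (m + 1) • y • x • z := by
    intro x y z
    rw [smul_comm x ((-1 : ℤ) ^ (m + 1)), smul_comm x y]
  have e3 : ∀ x : R, ∀ z : A, x • ((-1 : ℤ) ^ (m + 1) • z) = (-1 : ℤ) ^ (m + 1) • x • z :=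
    fun x z => smul_comm _ _ _
  simp only [e2, e3]
  abel

theorem dL_eq {α : Sing X 1 → Rˣ} (hα : IsTw α) {m : ℕ} (c : Sing X m → A)
    (σ : Sing X (m + 1)) :
    dL α c σ = ∑ i : Fin (m + 2), (-1 : ℤ) ^ (i : ℕ) •
        ((α (sub (![i.succAbove (Fin.last m), Fin.last (m + 1)] : Fin 2 → Fin (m + 1 + 1)) σ) : R) •
          c (sface m i σ)) := by
  have h := dL_sub_eq hα c id σ
  rw [sub_id] at h
  have h1 : α (sub (![id (Fin.last (m + 1)), Fin.last (m + 1)] : Fin 2 → Fin (m + 1 + 1)) σ) = 1 :=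
    hα.cst σ _
  rw [h1, Units.val_one, one_smul] at h
  exact h

theorem dL_dL {α : Sing X 1 → Rˣ} (hα : IsTw α) {n : ℕ} (c : Sing X n → A) :
    dL α (dL α c) = 0 := by
  funext σ
  rw [dL_eq hα]
  have h : ∀ j : Fin (n + 1 + 2),
      (α (sub (![j.succAbove (Fin.last (n + 1)), Fin.last (n + 1 + 1)] :
        Fin 2 → Fin (n + 1 + 1 + 1)) σ) : R) • dL α c (sface (n + 1) j σ) =
      ∑ i : Fin (n + 2), (-1 : ℤ) ^ (i : ℕ) •
        ((α (sub (![(j.succAbove ∘ i.succAbove) (Fin.last n), Fin.last (n + 1 + 1)] :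
          Fin 2 → Fin (n + 1 + 1 + 1)) σ) : R) • c (sub (j.succAbove ∘ i.succAbove) σ)) := by
    intro j
    rw [sface_sub_lz]
    exact dL_sub_eq hα c j.succAbove σ
  simp only [h, Finset.smul_sum]
  refine alt_cancel' n (fun i j =>
    (α (sub (![(j.succAbove ∘ i.succAbove) (Fin.last n), Fin.last (n + 1 + 1)] :
          Fin 2 → Fin (n + 1 + 1 + 1)) σ) : R) • c (sub (j.succAbove ∘ i.succAbove) σ)) ?_
  intro i j hij
  have e : (j.succ).succAbove ∘ i.succAbove = (i.castSucc).succAbove ∘ j.succAbove := by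
    funext k
    exact succAbove_comm i j hij k
  simp only [e]

theorem isTw_one : IsTw (1 : Sing X 1 → Rˣ) := fun _ => by simp

theorem dl_dl {n : ℕ} (c : Sing X n → A) : dl (dl c) = 0 := by
  have h := dF_dF (isTw_one (X := X) (R := ℤ)) c
  simpa using h

theorem tF_tF {α : Sing X 1 → Rˣ} (hα : IsTw α) (c : TS X → A) : tF α (tF α c) = 0 := by
  apply tot_ext
  intro p
  rcases p with _ | _ | p
  · rfl
  · rw [cp_tF_succ, cp_tF_zero, dF_zero]; rfl
  · rw [cp_tF_succ, cp_tF_succ, dF_dF hα]; rfl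

theorem tL_tL {α : Sing X 1 → Rˣ} (hα : IsTw α) (c : TS X → A) : tL α (tL α c) = 0 := by
  apply tot_ext
  intro p
  rcases p with _ | _ | p
  · rfl
  · rw [cp_tL_succ, cp_tL_zero, dL_zero]; rfl
  · rw [cp_tL_succ, cp_tL_succ, dL_dL hα]; rfl

theorem td_td (c : TS X → A) : td (td c) = 0 := by
  have h := tF_tF (isTw_one (X := X) (R := ℤ)) c
  simpa using h

/-! ### locality -/

theorem dl_loc {n : ℕ} (c : Sing X n → A) (U : Set X) (h : ∀ σ : Sing X n, range σ ⊆ U → c σ = 0)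
    (σ : Sing X (n + 1)) (hσ : range σ ⊆ U) : dl c σ = 0 := by
  rw [dl]
  exact Finset.sum_eq_zero fun i _ => by rw [h _ ((range_sface n i σ).trans hσ), smul_zero]

theorem dF_loc (α : Sing X 1 → Rˣ) {n : ℕ} (c : Sing X n → A) (U : Set X)
    (h : ∀ σ : Sing X n, range σ ⊆ U → c σ = 0)
    (σ : Sing X (n + 1)) (hσ : range σ ⊆ U) : dF α c σ = 0 := by
  rw [dF, dl_loc c U h σ hσ, h _ ((range_sface n 0 σ).trans hσ), smul_zero, add_zero]

theorem dL_loc (α : Sing X 1 → Rˣ) {n : ℕ} (c : Sing X n → A) (U : Set X)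
    (h : ∀ σ : Sing X n, range σ ⊆ U → c σ = 0)
    (σ : Sing X (n + 1)) (hσ : range σ ⊆ U) : dL α c σ = 0 := by
  rw [dL, dl_loc c U h σ hσ, h _ ((range_sface n _ σ).trans hσ), smul_zero, smul_zero, add_zero]

theorem tF_loc (α : Sing X 1 → Rˣ) (c : TS X → A) (U : Set X)
    (h : ∀ s : TS X, range s.2 ⊆ U → c s = 0) (s : TS X) (hs : range s.2 ⊆ U) :
    tF α c s = 0 := by
  obtain ⟨p, σ⟩ := s
  cases p with
  | zero => rfl
  | succ p => exact dF_loc α (cp p c) U (fun τ hτ => h ⟨p, τ⟩ hτ) σ hs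

theorem tL_loc (α : Sing X 1 → Rˣ) (c : TS X → A) (U : Set X)
    (h : ∀ s : TS X, range s.2 ⊆ U → c s = 0) (s : TS X) (hs : range s.2 ⊆ U) :
    tL α c s = 0 := by
  obtain ⟨p, σ⟩ := s
  cases p with
  | zero => rfl
  | succ p => exact dL_loc α (cp p c) U (fun τ hτ => h ⟨p, τ⟩ hτ) σ hs

theorem td_loc (c : TS X → A) (U : Set X)
    (h : ∀ s : TS X, range s.2 ⊆ U → c s = 0) (s : TS X) (hs : range s.2 ⊆ U) :
    td c s = 0 := by
  obtain ⟨p, σ⟩ := s
  cases p with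
  | zero => rfl
  | succ p => exact dl_loc (cp p c) U (fun τ hτ => h ⟨p, τ⟩ hτ) σ hs

theorem NV.add {K : Set X} {a b : TS X → A} (ha : NV K a) (hb : NV K b) : NV K (a + b) := by
  intro x hx
  obtain ⟨U, hU, hxU, h1⟩ := ha x hx
  obtain ⟨V, hV, hxV, h2⟩ := hb x hx
  refine ⟨U ∩ V, hU.inter hV, ⟨hxU, hxV⟩, fun s hs => ?_⟩
  rw [Pi.add_apply, h1 s (hs.trans inter_subset_left), h2 s (hs.trans inter_subset_right),
    add_zero]

theorem NV.neg {K : Set X} {a : TS X → A} (ha : NV K a) : NV K (-a) := by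
  intro x hx
  obtain ⟨U, hU, hxU, h1⟩ := ha x hx
  exact ⟨U, hU, hxU, fun s hs => by rw [Pi.neg_apply, h1 s hs, neg_zero]⟩

theorem NV.sub {K : Set X} {a b : TS X → A} (ha : NV K a) (hb : NV K b) : NV K (a - b) := by
  rw [sub_eq_add_neg]
  exact ha.add hb.neg

theorem NV.smul {K : Set X} (r : R) {a : TS X → A} (ha : NV K a) : NV K (r • a) := by
  intro x hx
  obtain ⟨U, hU, hxU, h1⟩ := ha x hx
  exact ⟨U, hU, hxU, fun s hs => by rw [Pi.smul_apply, h1 s hs, smul_zero]⟩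

theorem NV.zero {K : Set X} : NV K (0 : TS X → A) :=
  fun _ _ => ⟨univ, isOpen_univ, mem_univ _, fun _ _ => rfl⟩

theorem NV.mono {K K' : Set X} (h : K' ⊆ K) {a : TS X → A} (ha : NV K a) : NV K' a :=
  fun x hx => ha x (h hx)

theorem NV.empty (a : TS X → A) : NV ∅ a := fun x hx => absurd hx (notMem_empty x)

theorem NV.union {K K' : Set X} {a : TS X → A} (h1 : NV K a) (h2 : NV K' a) : NV (K ∪ K') a := by
  rintro x (hx | hx)
  · exact h1 x hx
  · exact h2 x hx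

theorem NV.tF {α : Sing X 1 → Rˣ} {K : Set X} {a : TS X → A} (h : NV K a) : NV K (tF α a) := by
  intro x hx
  obtain ⟨U, hU, hxU, h1⟩ := h x hx
  exact ⟨U, hU, hxU, tF_loc α a U h1⟩

theorem NV.tL {α : Sing X 1 → Rˣ} {K : Set X} {a : TS X → A} (h : NV K a) : NV K (tL α a) := by
  intro x hx
  obtain ⟨U, hU, hxU, h1⟩ := h x hx
  exact ⟨U, hU, hxU, tL_loc α a U h1⟩

theorem NV.td {K : Set X} {a : TS X → A} (h : NV K a) : NV K (td a) := by
  intro x hx
  obtain ⟨U, hU, hxU, h1⟩ := h x hx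
  exact ⟨U, hU, hxU, td_loc a U h1⟩

/-- a cochain vanishing near `K` vanishes near a neighbourhood of `K` -/
theorem NV.nhd {K : Set X} {a : TS X → A} (h : NV K a) : ∃ U, IsOpen U ∧ K ⊆ U ∧ NV U a := by
  refine ⟨⋃ (V : Set X) (_ : IsOpen V ∧ ∀ s : TS X, range s.2 ⊆ V → a s = 0), V, ?_, ?_, ?_⟩
  · exact isOpen_iUnion fun V => isOpen_iUnion fun hV => hV.1
  · intro x hx
    obtain ⟨U, hU, hxU, h1⟩ := h x hx
    simp only [mem_iUnion]
    exact ⟨U, ⟨hU, h1⟩, hxU⟩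
  · intro x hx
    simp only [mem_iUnion] at hx
    obtain ⟨V, ⟨hV, h1⟩, hxV⟩ := hx
    exact ⟨V, hV, hxV, h1⟩

theorem NV.split [CompletelyNormalSpace X] {K L : Set X} (hK : IsClosed K) (hL : IsClosed L)
    {c : TS X → A} (hc : NV (K ∩ L) c) : ∃ c₁ c₂ : TS X → A, NV K c₁ ∧ NV L c₂ ∧ c = c₁ + c₂ := by
  classical
  have h1 : Disjoint (closure (K \ L)) (L \ K) :=
    Set.disjoint_left.2 fun x hx hx' => hx'.2 ((closure_minimal sdiff_subset hK) hx)
  have h2 : Disjoint (K \ L) (closure (L \ K)) :=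
    Set.disjoint_left.2 fun x hx hx' => hx.2 ((closure_minimal sdiff_subset hL) hx')
  obtain ⟨G, H, hG, hH, hAG, hBH, hd⟩ := separatedNhds_iff_disjoint.mpr
    (CompletelyNormalSpace.completely_normal h1 h2)
  refine ⟨fun s => if s.2 (vert s.1 0) ∈ H then c s else 0,
    fun s => if s.2 (vert s.1 0) ∈ H then 0 else c s, ?_, ?_, ?_⟩
  · intro x hx
    by_cases hxB : x ∈ L
    · obtain ⟨U, hU, hxU, h⟩ := hc x ⟨hx, hxB⟩
      refine ⟨U, hU, hxU, fun s hs => ?_⟩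
      change (if s.2 (vert s.1 0) ∈ H then c s else 0) = 0
      rw [h s hs, ite_self]
    · refine ⟨G, hG, hAG ⟨hx, hxB⟩, fun s hs => ?_⟩
      have h3 : s.2 (vert s.1 0) ∉ H := fun h4 => disjoint_left.mp hd (hs ⟨_, rfl⟩) h4
      change (if s.2 (vert s.1 0) ∈ H then c s else 0) = 0
      rw [if_neg h3]
  · intro x hx
    by_cases hxA : x ∈ K
    · obtain ⟨U, hU, hxU, h⟩ := hc x ⟨hxA, hx⟩
      refine ⟨U, hU, hxU, fun s hs => ?_⟩
      change (if s.2 (vert s.1 0) ∈ H then 0 else c s) = 0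
      rw [h s hs, ite_self]
    · refine ⟨H, hH, hBH ⟨hx, hxA⟩, fun s hs => ?_⟩
      have h3 : s.2 (vert s.1 0) ∈ H := hs ⟨_, rfl⟩
      change (if s.2 (vert s.1 0) ∈ H then 0 else c s) = 0
      rw [if_pos h3]
  · funext s
    change c s = (if s.2 (vert s.1 0) ∈ H then c s else 0) +
      (if s.2 (vert s.1 0) ∈ H then 0 else c s)
    by_cases h3 : s.2 (vert s.1 0) ∈ H
    · rw [if_pos h3, if_pos h3, add_zero]
    · rw [if_neg h3, if_neg h3, zero_add]

theorem NV.inc {p : ℕ} {K : Set X} {a : Sing X p → A} (h : Nv K a) : NV K (inc a) := by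
  intro x hx
  obtain ⟨U, hU, hxU, h1⟩ := h x hx
  refine ⟨U, hU, hxU, ?_⟩
  rintro ⟨q, σ⟩ hσ
  by_cases hq : q = p
  · subst hq
    exact (congrFun (cp_inc a) σ).trans (h1 σ hσ)
  · exact congrFun (cp_inc_ne hq a) σ

theorem NV.cp {K : Set X} {c : TS X → A} (h : NV K c) (p : ℕ) : Nv K (cp p c) := by
  intro x hx
  obtain ⟨U, hU, hxU, h1⟩ := h x hx
  exact ⟨U, hU, hxU, fun σ hσ => h1 ⟨p, σ⟩ hσ⟩

theorem Nv.of_inc {p : ℕ} {K : Set X} {a : Sing X p → A} (h : NV K (TM.inc a)) : Nv K a := by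
  have := h.cp p
  rwa [cp_inc] at this

theorem Nv.add {n : ℕ} {K : Set X} {a b : Sing X n → A} (ha : Nv K a) (hb : Nv K b) :
    Nv K (a + b) := by
  intro x hx
  obtain ⟨U, hU, hxU, h1⟩ := ha x hx
  obtain ⟨V, hV, hxV, h2⟩ := hb x hx
  refine ⟨U ∩ V, hU.inter hV, ⟨hxU, hxV⟩, fun s hs => ?_⟩
  rw [Pi.add_apply, h1 s (hs.trans inter_subset_left), h2 s (hs.trans inter_subset_right),
    add_zero]

theorem Nv.neg {n : ℕ} {K : Set X} {a : Sing X n → A} (ha : Nv K a) : Nv K (-a) := by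
  intro x hx
  obtain ⟨U, hU, hxU, h1⟩ := ha x hx
  exact ⟨U, hU, hxU, fun s hs => by rw [Pi.neg_apply, h1 s hs, neg_zero]⟩

theorem Nv.sub {n : ℕ} {K : Set X} {a b : Sing X n → A} (ha : Nv K a) (hb : Nv K b) :
    Nv K (a - b) := by
  rw [sub_eq_add_neg]
  exact ha.add hb.neg

theorem Nv.smul {n : ℕ} {K : Set X} (r : R) {a : Sing X n → A} (ha : Nv K a) : Nv K (r • a) := by
  intro x hx
  obtain ⟨U, hU, hxU, h1⟩ := ha x hx
  exact ⟨U, hU, hxU, fun s hs => by rw [Pi.smul_apply, h1 s hs, smul_zero]⟩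

theorem Nv.zero {n : ℕ} {K : Set X} : Nv K (0 : Sing X n → A) :=
  fun _ _ => ⟨univ, isOpen_univ, mem_univ _, fun _ _ => rfl⟩

theorem Nv.mono {n : ℕ} {K K' : Set X} (h : K' ⊆ K) {a : Sing X n → A} (ha : Nv K a) :
    Nv K' a := fun x hx => ha x (h hx)

theorem Nv.union {n : ℕ} {K K' : Set X} {a : Sing X n → A} (h1 : Nv K a) (h2 : Nv K' a) :
    Nv (K ∪ K') a := by
  rintro x (hx | hx)
  · exact h1 x hx
  · exact h2 x hx

theorem Nv.dF {n : ℕ} {α : Sing X 1 → Rˣ} {K : Set X} {a : Sing X n → A} (h : Nv K a) :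
    Nv K (dF α a) := by
  intro x hx
  obtain ⟨U, hU, hxU, h1⟩ := h x hx
  exact ⟨U, hU, hxU, dF_loc α a U h1⟩

theorem Nv.dL {n : ℕ} {α : Sing X 1 → Rˣ} {K : Set X} {a : Sing X n → A} (h : Nv K a) :
    Nv K (dL α a) := by
  intro x hx
  obtain ⟨U, hU, hxU, h1⟩ := h x hx
  exact ⟨U, hU, hxU, dL_loc α a U h1⟩

theorem Nv.dl {n : ℕ} {K : Set X} {a : Sing X n → A} (h : Nv K a) : Nv K (dl a) := by
  intro x hx
  obtain ⟨U, hU, hxU, h1⟩ := h x hx
  exact ⟨U, hU, hxU, dl_loc a U h1⟩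

theorem Nv.cup {p q r : ℕ} (h : p + q = r) {K L : Set X} {a : Sing X p → A} {b : Sing X q → R}
    (ha : Nv K a) (hb : Nv L b) : Nv (K ∪ L) (cup h a b) := by
  rintro x (hx | hx)
  · obtain ⟨U, hU, hxU, h1⟩ := ha x hx
    refine ⟨U, hU, hxU, fun σ hσ => ?_⟩
    have : a (Pool.Agent.Helper158.PD.sub (front h) σ) = 0 := h1 _ ((range_sub _ σ).trans hσ)
    rw [TM.cup, this, smul_zero]
  · obtain ⟨U, hU, hxU, h1⟩ := hb x hx
    refine ⟨U, hU, hxU, fun σ hσ => ?_⟩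
    have : b (Pool.Agent.Helper158.PD.sub (back h) σ) = 0 := h1 _ ((range_sub _ σ).trans hσ)
    rw [TM.cup, this, zero_smul]

end Run7.h841.TM
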