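import Pool.Agent.Run7.h841.TM.PSs

/-! Local triviality of a twisting, and local computations. -/

set_option autoImplicit false
set_option linter.unusedVariables false
set_option linter.unusedSectionVars false

namespace Run7.h841.TM

open Set Topology
open Pool.Agent.Helper922.HB.Sc (Sing sface vert)
open Pool.Agent.Helper158.PD (TS sub front back range_sface range_sub sub_sub_lz sface_sub_lz)

variable {X : Type} [TopologicalSpace X] {R : Type} [CommRing R] {A : Type} [AddCommGroup A]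
  [Module R A]

theorem vert_mem {s : TS X} {U : Set X} (h : range s.2 ⊆ U) (i : Fin (s.1 + 1)) :
    s.2 (vert s.1 i) ∈ U := h ⟨_, rfl⟩

/-- the values of a function at the first vertex -/
noncomputable def bF (β : X → Rˣ) : TS X → Rˣ := fun s => β (s.2 (vert s.1 0))
/-- the values of a function at the last vertex -/
noncomputable def bL (β : X → Rˣ) : TS X → Rˣ := fun s => β (s.2 (vert s.1 (Fin.last s.1)))

/-- `α` is the coboundary of `β` on `U` -/
def TrivOn (α : Sing X 1 → Rˣ) (β : X → Rˣ) (U : Set X) : Prop :=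
  ∀ e : Sing X 1, range e ⊆ U → α e = β (e (vert 1 0)) * (β (e (vert 1 1)))⁻¹

theorem sub_vert {n m : ℕ} (σ : Sing X n) (f : Fin (m + 1) → Fin (n + 1)) (i : Fin (m + 1)) :
    sub f σ (vert m i) = σ (vert n (f i)) := by
  rw [sub_eq_aff]
  change σ (Pool.Agent.Helper922.HB.Sc.aff _ (vert m i)) = _
  rw [Pool.Agent.Helper922.HB.Sc.aff_vert]

theorem sface_vert {n : ℕ} (σ : Sing X (n + 1)) (i : Fin (n + 2)) (j : Fin (n + 1)) :
    sface n i σ (vert n j) = σ (vert (n + 1) (i.succAbove j)) := by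
  rw [sface_sub_lz]
  exact sub_vert σ _ j

theorem locF {α : Sing X 1 → Rˣ} (hα : IsTw α) {β : X → Rˣ} {U : Set X} (h : TrivOn α β U)
    (c : TS X → A) (s : TS X) (hs : range s.2 ⊆ U) :
    tF α c s = Tm (bF β) (td (Tm (bF β)⁻¹ c)) s := by
  obtain ⟨k, σ⟩ := s
  cases k with
  | zero => exact (smul_zero _).symm
  | succ k =>
    change dF α (cp k c) σ = (bF β ⟨k + 1, σ⟩ : R) • dl (cp k (Tm (bF β)⁻¹ c)) σ
    rw [dF_eq hα, dl, Finset.smul_sum]
    refine Finset.sum_congr rfl fun i _ => ?_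
    rw [smul_comm (bF β ⟨k + 1, σ⟩ : R)]
    congr 1
    change _ = (bF β ⟨k + 1, σ⟩ : R) • (((bF β)⁻¹ ⟨k, sface k i σ⟩ : Rˣ) : R) • c ⟨k, sface k i σ⟩
    rw [smul_smul, ← Units.val_mul, h _ ((range_sub _ σ).trans hs), sub_vert, sub_vert]
    have e : (bF β)⁻¹ ⟨k, sface k i σ⟩ = (β (σ (vert (k + 1) (i.succAbove 0))))⁻¹ := by
      change (β (sface k i σ (vert k 0)))⁻¹ = _
      rw [sface_vert]
    rw [e]
    rfl

theorem locL {α : Sing X 1 → Rˣ} (hα : IsTw α) {β : X → Rˣ} {U : Set X} (h : TrivOn α β U)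
    (c : TS X → A) (s : TS X) (hs : range s.2 ⊆ U) :
    tL α c s = Tm (bL β)⁻¹ (td (Tm (bL β) c)) s := by
  obtain ⟨k, σ⟩ := s
  cases k with
  | zero => exact (smul_zero _).symm
  | succ k =>
    change dL α (cp k c) σ = (((bL β)⁻¹ ⟨k + 1, σ⟩ : Rˣ) : R) • dl (cp k (Tm (bL β) c)) σ
    rw [dL_eq hα, dl, Finset.smul_sum]
    refine Finset.sum_congr rfl fun i _ => ?_
    rw [smul_comm (((bL β)⁻¹ ⟨k + 1, σ⟩ : Rˣ) : R)]
    congr 1
    change _ = (((bL β)⁻¹ ⟨k + 1, σ⟩ : Rˣ) : R) • ((bL β ⟨k, sface k i σ⟩ : Rˣ) : R) •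
      c ⟨k, sface k i σ⟩
    rw [smul_smul, ← Units.val_mul, h _ ((range_sub _ σ).trans hs), sub_vert, sub_vert]
    have e : bL β ⟨k, sface k i σ⟩ = β (σ (vert (k + 1) (i.succAbove (Fin.last k)))) := by
      change β (sface k i σ (vert k (Fin.last k))) = _
      rw [sface_vert]
    rw [e, mul_comm]
    rfl

theorem NV_Tm_iff {K : Set X} {c : TS X → A} (g : TS X → Rˣ) : NV K (Tm g c) ↔ NV K c := by
  constructor
  · intro h
    have h2 := h.Tm g⁻¹
    rwa [Tm_Tm, inv_mul_cancel, Tm_one] at h2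
  · intro h
    exact h.Tm g

theorem NV.congr_on {K U : Set X} (hU : IsOpen U) {c c' : TS X → A}
    (h : ∀ s : TS X, range s.2 ⊆ U → c s = c' s) (hc : NV (K ∩ U) c) : NV (K ∩ U) c' := by
  intro x hx
  obtain ⟨V, hV, hxV, h1⟩ := hc x hx
  refine ⟨V ∩ U, hV.inter hU, ⟨hxV, hx.2⟩, fun s hs => ?_⟩
  rw [← h s (hs.trans inter_subset_right)]
  exact h1 s (hs.trans inter_subset_left)

theorem NV.of_zero {U : Set X} (hU : IsOpen U) {c : TS X → A}
    (h : ∀ s : TS X, range s.2 ⊆ U → c s = 0) : NV U c :=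
  fun x hx => ⟨U, hU, hx, h⟩

theorem Nv.of_zero {n : ℕ} {U : Set X} (hU : IsOpen U) {c : Sing X n → A}
    (h : ∀ s : Sing X n, range s ⊆ U → c s = 0) : Nv U c :=
  fun x hx => ⟨U, hU, hx, h⟩

theorem td_cst (e : A) : td (cst e : TS X → A) = 0 := by
  rw [cst, td_inc]
  have : dl (fun _ : Sing X 0 => e) = 0 := by
    funext σ
    rw [dl0, sub_self]
    rfl
  rw [this, inc_zero]

/-- every twisting is locally trivial -/
theorem locTriv {α : Sing X 1 → Rˣ} (hα : IsTw α) {x : X} (hx : CAcy ({x} : Set X)) :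
    ∃ U, IsOpen U ∧ x ∈ U ∧ ∃ β : X → Rˣ, TrivOn α β U := by
  obtain ⟨a, ha⟩ : ∃ a : TS X → Additive Rˣ, a = inc (fun σ : Sing X 1 => Additive.ofMul (α σ)) :=
    ⟨_, rfl⟩
  have h1 : td a = 0 := by
    rw [ha, td_inc]
    have : dl (fun σ : Sing X 1 => Additive.ofMul (α σ)) = 0 := by
      funext τ
      rw [dl1, hα τ, ofMul_mul, Pi.zero_apply]
      abel
    rw [this, inc_zero]
  obtain ⟨e, a', h2⟩ := hx (Additive Rˣ) a (by rw [h1]; exact NV.zero)
  obtain ⟨U, hU, hxU, h3⟩ := (h2.cp 1) x rfl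
  refine ⟨U, hU, hxU, fun y => (Additive.toMul (cp 0 a' (pt y)))⁻¹, fun σ hσ => ?_⟩
  have h4 := h3 σ hσ
  rw [cp_sub, cp_sub, ha, cp_inc, cst, cp_inc_ne (by norm_num), sub_zero, cp_td_succ, Pi.sub_apply,
    sub_eq_zero, dl0, sface00, sface01] at h4
  have h5 := congrArg Additive.toMul h4
  rw [toMul_sub, toMul_ofMul] at h5
  rw [h5, inv_inv, mul_comm, div_eq_mul_inv]

/-- twisted cohomology at a point -/
theorem cacyL {α : Sing X 1 → Rˣ} (hα : IsTw α) {x : X} (hx : CAcy ({x} : Set X)) {β : X → Rˣ}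
    {U : Set X} (hU : IsOpen U) (hxU : x ∈ U) (h : TrivOn α β U) (a : TS X → A)
    (ha : NV {x} (tL α a)) :
    ∃ (e : A) (a₁ : TS X → A), NV {x} (a - Tm (bL β)⁻¹ (cst e) - tL α a₁) := by
  have hxs : ({x} : Set X) ∩ U = {x} := by
    rw [inter_eq_left, singleton_subset_iff]; exact hxU
  have h1 : NV {x} (td (Tm (bL β) a)) := by
    rw [← NV_Tm_iff (bL β)⁻¹]
    rw [← hxs] at ha ⊢
    exact NV.congr_on hU (locL hα h a) ha
  obtain ⟨e, a', h2⟩ := hx A _ h1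
  refine ⟨e, Tm (bL β)⁻¹ a', ?_⟩
  have h3 : NV {x} (Tm (bL β)⁻¹ (Tm (bL β) a - cst e - td a')) := h2.Tm _
  rw [Tm_sub, Tm_sub, Tm_Tm, inv_mul_cancel, Tm_one] at h3
  rw [← hxs] at h3 ⊢
  refine NV.congr_on hU ?_ h3
  intro s hs
  rw [Pi.sub_apply, Pi.sub_apply _ (tL α (Tm (bL β)⁻¹ a')), locL hα h _ s hs, Tm_Tm,
    mul_inv_cancel, Tm_one]

theorem flatL {α : Sing X 1 → Rˣ} (hα : IsTw α) {β : X → Rˣ} {U : Set X} (h : TrivOn α β U) (e : A)
    (s : TS X) (hs : range s.2 ⊆ U) : tL α (Tm (bL β)⁻¹ (cst e)) s = 0 := by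
  rw [locL hα h _ s hs, Tm_Tm, mul_inv_cancel, Tm_one, td_cst]
  exact smul_zero _

open Classical in
/-- cutting off -/
noncomputable def cut (V : Set X) (c : TS X → A) : TS X → A :=
  fun s => if range s.2 ⊆ V then c s else 0

theorem cut_of {V : Set X} (c : TS X → A) {s : TS X} (hs : range s.2 ⊆ V) : cut V c s = c s := by
  classical
  exact if_pos hs

theorem range_nonempty_sing (s : TS X) : (range s.2).Nonempty := ⟨_, vert s.1 0, rfl⟩

theorem cut_NV {V B : Set X} (h : Disjoint (closure V) B) (c : TS X → A) : NV B (cut V c) := by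
  classical
  intro x hx
  refine ⟨(closure V)ᶜ, isClosed_closure.isOpen_compl, fun h2 => (Set.disjoint_left.1 h) h2 hx,
    fun s hs => if_neg fun h2 => ?_⟩
  obtain ⟨y, hy⟩ := range_nonempty_sing s
  exact hs hy (subset_closure (h2 hy))

theorem tL_cut (α : Sing X 1 → Rˣ) {V : Set X} (c : TS X → A) {s : TS X} (hs : range s.2 ⊆ V) :
    tL α (cut V c) s = tL α c s := by
  have h := tL_loc α (cut V c - c) V (fun t ht => by rw [Pi.sub_apply, cut_of c ht, sub_self]) s hs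
  rw [tL_sub, Pi.sub_apply, sub_eq_zero] at h
  exact h

theorem tF_cut (α : Sing X 1 → Rˣ) {V : Set X} (c : TS X → A) {s : TS X} (hs : range s.2 ⊆ V) :
    tF α (cut V c) s = tF α c s := by
  have h := tF_loc α (cut V c - c) V (fun t ht => by rw [Pi.sub_apply, cut_of c ht, sub_self]) s hs
  rw [tF_sub, Pi.sub_apply, sub_eq_zero] at h
  exact h

/-- twisted relative cocycles with small support -/
theorem relF {α : Sing X 1 → Rˣ} (hα : IsTw α) {β : X → Rˣ} {U : Set X} (h : TrivOn α β U)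
    {V : Set X} (hV : IsOpen V) (hVU : V ⊆ U) (b : TS X → A) (hb : NV Vᶜ b)
    (hdb : NV univ (tF α b)) : NV univ (td (Tm (bF β)⁻¹ b)) := by
  have h1 : NV V (td (Tm (bF β)⁻¹ b)) := by
    rw [← NV_Tm_iff (bF β), ← univ_inter V]
    refine NV.congr_on hV (fun s hs => locF hα h b s (hs.trans hVU)) (hdb.mono (subset_univ _))
  have h2 : NV Vᶜ (td (Tm (bF β)⁻¹ b)) := (hb.Tm _).td
  have := h1.union h2
  rwa [union_compl_self] at this

theorem relF' {α : Sing X 1 → Rˣ} (hα : IsTw α) {β : X → Rˣ} {U : Set X} (h : TrivOn α β U)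
    {V : Set X} (hV : IsOpen V) (hVU : V ⊆ U) (b : TS X → A) (hb : NV Vᶜ b) :
    NV univ (tF α (Tm (bF β) b) - Tm (bF β) (td b)) := by
  have h1 : NV V (tF α (Tm (bF β) b) - Tm (bF β) (td b)) := by
    refine NV.of_zero hV fun s hs => ?_
    rw [Pi.sub_apply, locF hα h _ s (hs.trans hVU), Tm_Tm, inv_mul_cancel, Tm_one, sub_self]
  have h2 : NV Vᶜ (tF α (Tm (bF β) b) - Tm (bF β) (td b)) := ((hb.Tm _).tF).sub ((hb.td).Tm _)
  have := h1.union h2
  rwa [union_compl_self] at this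

theorem raF {α : Sing X 1 → Rˣ} (hα : IsTw α) {β : X → Rˣ} {U : Set X} (h : TrivOn α β U)
    {V : Set X} (hV : IsOpen V) (hVU : V ⊆ U) (hr : RAcy univ Vᶜ) (b : TS X → A) (hb : NV Vᶜ b)
    (hdb : NV univ (tF α b)) : ∃ b', NV Vᶜ b' ∧ NV univ (b - tF α b') := by
  obtain ⟨b', hb', h1⟩ := hr A _ (hb.Tm (bF β)⁻¹) (relF hα h hV hVU b hb hdb)
  refine ⟨Tm (bF β) b', hb'.Tm _, ?_⟩
  have h2 := h1.Tm (bF β)
  rw [Tm_sub, Tm_Tm, mul_inv_cancel, Tm_one] at h2
  have h3 := h2.sub (relF' hα h hV hVU b' hb')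
  have e : b - Tm (bF β) (td b') - (tF α (Tm (bF β) b') - Tm (bF β) (td b')) =
      b - tF α (Tm (bF β) b') := by abel
  rwa [e] at h3

/-- the twisted local generator -/
noncomputable def Wg (β : X → Rˣ) {n : ℕ} (w : Sing X n → ℤ) : TS X → R :=
  Tm (bF β) (inc (tens w (1 : R)))

theorem Wg_NV (β : X → Rˣ) {n : ℕ} {w : Sing X n → ℤ} {V : Set X} (h : USph univ Vᶜ n w) :
    NV Vᶜ (Wg β w) := by
  refine NV.Tm (NV.inc ?_) _
  intro x hx
  obtain ⟨U, hU, hxU, h1⟩ := h.1 x hx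
  exact ⟨U, hU, hxU, fun σ hσ => by rw [TM.tens, h1 σ hσ, zero_smul]⟩

theorem dl_tens' {n : ℕ} (w : Sing X n → ℤ) (e : A) : dl (tens w e) = tens (dl w) e := by
  funext σ
  simp only [dl, tens, Finset.sum_smul, smul_assoc]

theorem Wg_closed {α : Sing X 1 → Rˣ} (hα : IsTw α) {β : X → Rˣ} {U : Set X} (h : TrivOn α β U)
    {V : Set X} (hV : IsOpen V) (hVU : V ⊆ U) {n : ℕ} {w : Sing X n → ℤ}
    (hw : USph univ Vᶜ n w) : NV univ (tF α (Wg β w)) := by
  have h0 : NV Vᶜ (inc (tens w (1 : R))) := by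
    have := (Wg_NV β hw).Tm (bF β)⁻¹
    rwa [Wg, Tm_Tm, inv_mul_cancel, Tm_one] at this
  have h1 := relF' hα h hV hVU _ h0
  have h2 : NV univ (Tm (bF β) (td (inc (tens w (1 : R))))) := by
    refine NV.Tm ?_ _
    rw [td_inc, dl_tens']
    refine NV.inc ?_
    intro x hx
    obtain ⟨U, hU, hxU, h1⟩ := hw.2.1 x hx
    exact ⟨U, hU, hxU, fun σ hσ => by rw [TM.tens, h1 σ hσ, zero_smul]⟩
  have h3 := h1.add h2
  rwa [sub_add_cancel] at h3

theorem spF {α : Sing X 1 → Rˣ} (hα : IsTw α) {β : X → Rˣ} {U : Set X} (h : TrivOn α β U)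
    {V : Set X} (hV : IsOpen V) (hVU : V ⊆ U) {n : ℕ} {w : Sing X n → ℤ}
    (hw : USph univ Vᶜ n w) (b : TS X → R) (hb : NV Vᶜ b)
    (hdb : NV univ (tF α b)) : ∃ (r : R) (b' : TS X → R), NV Vᶜ b' ∧
      NV univ (b - r • Wg β w - tF α b') := by
  obtain ⟨r, b', hb', h1⟩ := hw.2.2.2 R _ (hb.Tm (bF β)⁻¹) (relF hα h hV hVU b hb hdb)
  refine ⟨r, Tm (bF β) b', hb'.Tm _, ?_⟩
  have h2 := h1.Tm (bF β)
  rw [Tm_sub, Tm_sub, Tm_Tm, mul_inv_cancel, Tm_one] at h2
  have h3 := h2.sub (relF' hα h hV hVU b' hb')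
  have e0 : Tm (bF β) (inc (tens w r)) = r • Wg β w := by
    have : (inc (tens w r) : TS X → R) = r • inc (tens w (1 : R)) := by
      rw [← inc_smul]
      congr 1
      funext σ
      change w σ • r = r * (w σ • (1 : R))
      rw [mul_smul_comm, mul_one]
    rw [this, Wg]
    funext s
    change ((bF β s : Rˣ) : R) * (r * _) = r * (((bF β s : Rˣ) : R) * _)
    ring
  have e : b - Tm (bF β) (inc (tens w r)) - Tm (bF β) (td b') -
      (tF α (Tm (bF β) b') - Tm (bF β) (td b')) =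
      b - r • Wg β w - tF α (Tm (bF β) b') := by rw [e0]; abel
  rwa [e] at h3

end Run7.h841.TM
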